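import Pool.Agent.H591R2.CoinRun

set_option autoImplicit false

/-!
# Averages over coin strings
-/

namespace Pool.Agent.Q226.SS

open NPC Pool.Agent.H591R2

/-- average over all bit strings of length `k` -/
noncomputable def av : ℕ → (List Bool → ℝ) → ℝ
  | 0, f => f []
  | k + 1, f => (av k (fun r => f (false :: r)) + av k (fun r => f (true :: r))) / 2

theorem av_congr (k : ℕ) : ∀ {f g : List Bool → ℝ}, (∀ r : List Bool, r.length = k → f r = g r) →
    av k f = av k g := by
  induction k with
  | zero => intro f g h; exact h [] rfl
  | succ k ih =>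
    intro f g h
    unfold av
    rw [ih (fun r hr => h (false :: r) (by simp [hr])),
      ih (fun r hr => h (true :: r) (by simp [hr]))]

theorem av_mono (k : ℕ) : ∀ {f g : List Bool → ℝ}, (∀ r : List Bool, r.length = k → f r ≤ g r) →
    av k f ≤ av k g := by
  induction k with
  | zero => intro f g h; exact h [] rfl
  | succ k ih =>
    intro f g h
    unfold av
    have h1 := ih (fun r hr => h (false :: r) (by simp [hr]))
    have h2 := ih (fun r hr => h (true :: r) (by simp [hr]))
    linarith

theorem av_const (k : ℕ) (c : ℝ) : av k (fun _ => c) = c := by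
  induction k with
  | zero => rfl
  | succ k ih => unfold av; rw [ih]; ring

theorem av_add (k : ℕ) : ∀ (f g : List Bool → ℝ), av k (fun r => f r + g r) = av k f + av k g := by
  induction k with
  | zero => intro f g; rfl
  | succ k ih =>
    intro f g
    unfold av
    rw [ih, ih]
    ring

theorem av_mul (k : ℕ) (c : ℝ) : ∀ (f : List Bool → ℝ), av k (fun r => c * f r) = c * av k f := by
  induction k with
  | zero => intro f; rfl
  | succ k ih =>
    intro f
    unfold av
    rw [ih, ih]
    ring

theorem av_mul_right (k : ℕ) (c : ℝ) (f : List Bool → ℝ) :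
    av k (fun r => f r * c) = av k f * c := by
  rw [mul_comm, ← av_mul]
  exact av_congr k fun r _ => mul_comm _ _

theorem av_sub (k : ℕ) (f g : List Bool → ℝ) : av k (fun r => f r - g r) = av k f - av k g := by
  have h1 := av_add k f (fun r => (-1) * g r)
  rw [av_mul] at h1
  have h2 : av k (fun r => f r - g r) = av k (fun r => f r + (-1) * g r) :=
    av_congr k fun r _ => by ring
  rw [h2, h1]
  ring

theorem av_sum {ι : Type} (k : ℕ) (s : Finset ι) (f : ι → List Bool → ℝ) :
    av k (fun r => ∑ i ∈ s, f i r) = ∑ i ∈ s, av k (f i) := by
  classical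
  induction s using Finset.induction_on with
  | empty => simpa using av_const k 0
  | insert a s ha ih =>
    rw [Finset.sum_insert ha, ← ih, ← av_add]
    exact av_congr k fun r _ => Finset.sum_insert ha

theorem av_nonneg (k : ℕ) {f : List Bool → ℝ} (h : ∀ r, 0 ≤ f r) : 0 ≤ av k f := by
  have := av_mono k (f := fun _ => 0) (g := f) (fun r _ => h r)
  rwa [av_const] at this

theorem av_append (m n : ℕ) : ∀ (f : List Bool → ℝ),
    av (m + n) f = av m (fun u => av n (fun v => f (u ++ v))) := by
  induction m with
  | zero => intro f; rw [zero_add]; rfl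
  | succ m ih =>
    intro f
    rw [show m + 1 + n = (m + n) + 1 by ring]
    unfold av
    rw [ih, ih]
    rfl

theorem av_val (k : ℕ) : ∀ (g : ℕ → ℝ),
    av k (fun r => g (valB r)) = (∑ R ∈ Finset.range (2 ^ k), g R) / 2 ^ k := by
  induction k with
  | zero => intro g; simp [av]
  | succ k ih =>
    intro g
    unfold av
    have h1 := ih (fun R => g (2 * R))
    have h2 := ih (fun R => g (2 * R + 1))
    have e1 : av k (fun r => g (valB (false :: r))) = av k (fun r => g (2 * valB r)) :=
      av_congr k fun r _ => by simp
    have e2 : av k (fun r => g (valB (true :: r))) = av k (fun r => g (2 * valB r + 1)) :=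
      av_congr k fun r _ => by
        congr 1
        simp
        omega
    rw [e1, e2, h1, h2, pow_succ 2 k, mul_comm (2 ^ k) 2, sum_range_double, Finset.sum_add_distrib,
      pow_succ]
    field_simp

theorem avg_eq_av (j : ℕ) (g : List Bool → ℝ) : ∀ acc : List Bool,
    avg j (fun l => g l.reverse) acc = av j (fun r => g (acc.reverse ++ r)) := by
  induction j with
  | zero => intro acc; simp [avg, av]
  | succ j ih =>
    intro acc
    unfold avg av
    rw [ih, ih]
    congr 2
    · exact av_congr j fun r _ => by simp
    · exact av_congr j fun r _ => by simp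

theorem avg_eq_av' (k : ℕ) (g : List Bool → ℝ) : avg k (fun l => g l.reverse) [] = av k g :=
  avg_eq_av k g []

/-- the probability that the first `s` coins all show `false` -/
theorem av_any (s : ℕ) : av s (fun u => if u.any id = true then (0 : ℝ) else 1) = (1 / 2) ^ s := by
  induction s with
  | zero => simp [av]
  | succ s ih =>
    unfold av
    have e1 : av s (fun r => if (false :: r).any id = true then (0 : ℝ) else 1) = (1 / 2) ^ s := by
      rw [← ih]
      exact av_congr s fun r _ => by simp
    have e2 : av s (fun r => if (true :: r).any id = true then (0 : ℝ) else 1) = 0 :=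
      (av_congr s fun r _ => by simp).trans (av_const s 0)
    rw [e1, e2, pow_succ]
    ring

end Pool.Agent.Q226.SS
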