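import Pool.Agent.Q226.SS.Trickle

set_option autoImplicit false

/-!
# The Poincare inequality for the basis exchange graph of a matroid

(Anari, Liu, Oveis Gharan, Vinzant.)
-/

namespace Pool.Agent.Q226.SS

open Finset Pool.Agent.Helper870.DT

/-- the basis exchange axiom -/
def Exch {α : Type} [DecidableEq α] (F : Finset (Finset α)) : Prop :=
  ∀ A ∈ F, ∀ B ∈ F, ∀ a ∈ A \ B, ∃ b ∈ B \ A, insert b (A.erase a) ∈ F

theorem aug {F : Finset (Finset ℕ)} {l : ℕ} (hl : ∀ A ∈ F, A.card = l) (hex : Exch F)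
    {S A B : Finset ℕ} {x y z : ℕ} (hA : A ∈ F) (hB : B ∈ F) (hSA : S ⊆ A) (hSB : S ⊆ B)
    (hx : x ∈ A) (hz : z ∈ A) (hxz : x ≠ z) (hy : y ∈ B) :
    ∃ C ∈ F, S ⊆ C ∧ y ∈ C ∧ (x ∈ C ∨ z ∈ C) := by
  obtain ⟨C, hC, hmax⟩ := (F.filter (fun C => S ⊆ C ∧ y ∈ C)).exists_max_image
    (fun C => (C ∩ A).card) ⟨B, by rw [mem_filter]; exact ⟨hB, hSB, hy⟩⟩
  rw [mem_filter] at hC
  obtain ⟨hCF, hSC, hyC⟩ := hC
  refine ⟨C, hCF, hSC, hyC, ?_⟩
  by_contra hcon
  push Not at hcon
  have h1 : C \ A ⊆ {y} := by
    intro c hc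
    rw [mem_singleton]
    by_contra hcy
    obtain ⟨b, hb, hbF⟩ := hex C hCF A hA c hc
    rw [mem_sdiff] at hb hc
    have hcS : c ∉ S := fun h => hc.2 (hSA h)
    have hm := hmax (insert b (C.erase c)) (by
      rw [mem_filter]
      refine ⟨hbF, ?_, ?_⟩
      · intro s hs
        rw [mem_insert, mem_erase]
        exact Or.inr ⟨fun h => hcS (h ▸ hs), hSC hs⟩
      · rw [mem_insert, mem_erase]
        exact Or.inr ⟨fun h => hcy h.symm, hyC⟩)
    have h2 : insert b (C ∩ A) ⊆ (insert b (C.erase c)) ∩ A := by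
      intro t ht
      rw [mem_insert] at ht
      rw [mem_inter, mem_insert, mem_erase]
      rcases ht with rfl | ht
      · exact ⟨Or.inl rfl, hb.1⟩
      · rw [mem_inter] at ht
        exact ⟨Or.inr ⟨fun h => hc.2 (h ▸ ht.2), ht.1⟩, ht.2⟩
    have h3 := card_le_card h2
    rw [card_insert_of_notMem (by rw [mem_inter]; exact fun h => hb.2 h.1)] at h3
    omega
  have h2 : ({x, z} : Finset ℕ) ⊆ A \ C := by
    intro t ht
    rw [mem_insert, mem_singleton] at ht
    rw [mem_sdiff]
    rcases ht with rfl | rfl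
    · exact ⟨hx, hcon.1⟩
    · exact ⟨hz, hcon.2⟩
  have h3 := card_le_card h1
  have h4 := card_le_card h2
  rw [card_pair hxz] at h4
  rw [card_singleton] at h3
  have h5 := card_sdiff_add_card_inter A C
  have h6 := card_sdiff_add_card_inter C A
  rw [inter_comm C A] at h6
  rw [hl A hA] at h5
  rw [hl C hCF] at h6
  omega

/-- kernels of equivalence relations are positive semidefinite -/
theorem psd {α β : Type} [DecidableEq β] (U : Finset α) (κ : α → β) (v : α → ℝ) :
    0 ≤ ∑ x ∈ U, ∑ y ∈ U, if κ x = κ y then v x * v y else 0 := by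
  have h1 : ∑ x ∈ U, ∑ y ∈ U, (if κ x = κ y then v x * v y else 0) =
      ∑ x ∈ U, v x * ∑ y ∈ U.filter (fun y => κ y = κ x), v y := by
    apply Finset.sum_congr rfl
    intro x _
    rw [Finset.sum_filter, Finset.mul_sum]
    apply Finset.sum_congr rfl
    intro y _
    by_cases h : κ x = κ y
    · rw [if_pos h, if_pos h.symm]
    · rw [if_neg h, if_neg (Ne.symm h), mul_zero]
  rw [h1, ← Finset.sum_fiberwise_of_maps_to (s := U) (t := U.image κ) (g := κ)
    (fun x hx => Finset.mem_image_of_mem _ hx)]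
  apply Finset.sum_nonneg
  intro c _
  have h2 : ∑ x ∈ U with κ x = c, v x * ∑ y ∈ U.filter (fun y => κ y = κ x), v y =
      (∑ x ∈ U.filter (fun y => κ y = c), v x) ^ 2 := by
    rw [sq, Finset.sum_mul]
    apply Finset.sum_congr rfl
    intro x hx
    rw [Finset.mem_filter] at hx
    rw [hx.2]
  rw [h2]
  positivity

section

variable {F : Finset (Finset ℕ)} {V : Finset ℕ} {l : ℕ}

theorem QQ_mbase (hF : ∀ A ∈ F, A ⊆ V ∧ A.card = l) (hex : Exch F) (S : Finset ℕ)
    (hS : S.card + 2 = l) : QQ F V S := by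
  classical
  have hl : ∀ A ∈ F, A.card = l := fun A hA => (hF A hA).2
  set Nl : ℕ → Prop := fun x => (upS F (insert x S)).Nonempty with hNl
  set E : ℕ → ℕ → Prop := fun x y => Nl x ∧ Nl y ∧
    (x = y ∨ ¬ (upS F (insert x (insert y S))).Nonempty) with hE
  have hEs : ∀ x y, E x y → E y x := by
    rintro x y ⟨h1, h2, h3⟩
    refine ⟨h2, h1, ?_⟩
    rcases h3 with h3 | h3
    · exact Or.inl h3.symm
    · right; rwa [Finset.insert_comm]
  have hEt : ∀ x y z, E x y → E y z → E x z := by
    rintro x y z ⟨h1, h2, h3⟩ ⟨_, h5, h6⟩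
    refine ⟨h1, h5, ?_⟩
    by_cases hxz : x = z
    · exact Or.inl hxz
    right
    rintro ⟨A, hA⟩
    rw [mem_upS] at hA
    obtain ⟨B, hB⟩ := h2
    rw [mem_upS] at hB
    have hxA : x ∈ A := hA.2 (by simp)
    have hzA : z ∈ A := hA.2 (by simp)
    have hyB : y ∈ B := hB.2 (by simp)
    have hSA : S ⊆ A := fun s hs => hA.2 (by simp [hs])
    have hSB : S ⊆ B := fun s hs => hB.2 (by simp [hs])
    obtain ⟨C, hC, hSC, hyC, hxz'⟩ := aug hl hex hA.1 hB.1 hSA hSB hxA hzA hxz hyB
    rcases h3 with h3 | h3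
    · rcases h6 with h6 | h6
      · exact hxz (h3.trans h6)
      · subst h3
        exact h6 ⟨A, mem_upS.2 hA⟩
    · rcases h6 with h6 | h6
      · subst h6
        exact h3 ⟨A, mem_upS.2 hA⟩
      · rcases hxz' with hxC | hzC
        · refine h3 ⟨C, mem_upS.2 ⟨hC, ?_⟩⟩
          exact Finset.insert_subset hxC (Finset.insert_subset hyC hSC)
        · refine h6 ⟨C, mem_upS.2 ⟨hC, ?_⟩⟩
          exact Finset.insert_subset hyC (Finset.insert_subset hzC hSC)
  set cls : ℕ → Finset ℕ := fun x => (V \ S).filter (fun y => E x y) with hcls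
  have hcl : ∀ x ∈ V \ S, ∀ y ∈ V \ S, Nl x → Nl y → (cls x = cls y ↔ E x y) := by
    intro x hx y hy hNx hNy
    constructor
    · intro h
      have h1 : y ∈ cls y := by
        rw [hcls]; simp only [Finset.mem_filter]; exact ⟨hy, hNy, hNy, Or.inl rfl⟩
      rw [← h, hcls] at h1
      exact (Finset.mem_filter.1 h1).2
    · intro h
      ext t
      rw [hcls]
      simp only [Finset.mem_filter]
      exact ⟨fun ht => ⟨ht.1, hEt _ _ _ (hEs _ _ h) ht.2⟩, fun ht => ⟨ht.1, hEt _ _ _ h ht.2⟩⟩
  set a : ℕ → ℝ := fun x => if Nl x then 1 else 0 with ha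
  have hWt : ∀ x ∈ V \ S, ∀ y ∈ V \ S, Wt F S x y =
      a x * a y - (if cls x = cls y then a x * a y else 0) := by
    intro x hx y hy
    have hx' := (Finset.mem_sdiff.1 hx).2
    have hy' := (Finset.mem_sdiff.1 hy).2
    unfold Wt
    by_cases hxy : x = y
    · subst hxy; simp
    · rw [if_neg hxy]
      have hcard : (insert x (insert y S)).card = l := by
        rw [Finset.card_insert_of_notMem (by simp [hxy, hx']), Finset.card_insert_of_notMem hy']
        omega
      have hup : ((upS F (insert x (insert y S))).card : ℝ) =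
          if (upS F (insert x (insert y S))).Nonempty then 1 else 0 := by
        split_ifs with h
        · have h1 : upS F (insert x (insert y S)) ⊆ {insert x (insert y S)} := by
            intro A hA
            rw [mem_upS] at hA
            rw [Finset.mem_singleton]
            exact (Finset.eq_of_subset_of_card_le hA.2 (by rw [hl A hA.1, hcard])).symm
          have h2 := Finset.card_le_card h1
          have h3 := h.card_pos
          rw [Finset.card_singleton] at h2
          have : (upS F (insert x (insert y S))).card = 1 := by omega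
          rw [this]; simp
        · rw [Finset.not_nonempty_iff_eq_empty.1 h]; simp
      rw [hup]
      by_cases hNx : Nl x
      · by_cases hNy : Nl y
        · have h1 := hcl x hx y hy hNx hNy
          simp only [ha, hNx, hNy, if_true, mul_one]
          by_cases h2 : (upS F (insert x (insert y S))).Nonempty
          · rw [if_pos h2, if_neg, sub_zero]
            rw [h1]
            rintro ⟨_, _, h3⟩
            rcases h3 with h3 | h3
            · exact hxy h3
            · exact h3 h2
          · rw [if_neg h2, if_pos (h1.2 ⟨hNx, hNy, Or.inr h2⟩), sub_self]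
        · have h2 : ¬ (upS F (insert x (insert y S))).Nonempty := by
            rintro ⟨A, hA⟩
            rw [mem_upS] at hA
            exact hNy ⟨A, mem_upS.2 ⟨hA.1, (Finset.subset_insert _ _).trans hA.2⟩⟩
          simp [ha, hNy, h2]
      · have h2 : ¬ (upS F (insert x (insert y S))).Nonempty := by
          rintro ⟨A, hA⟩
          rw [mem_upS] at hA
          exact hNx ⟨A, mem_upS.2 ⟨hA.1,
            (Finset.insert_subset_insert _ (Finset.subset_insert _ _)).trans hA.2⟩⟩
        simp [ha, hNx, h2]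
  intro u
  apply revCS _ _ (Wt_nonneg _ _) (Wt_symm _ _) a
  intro u
  have h1 : ∑ x ∈ V \ S, ∑ y ∈ V \ S, Wt F S x y * (u x * u y) =
      (∑ x ∈ V \ S, a x * u x) ^ 2 -
        ∑ x ∈ V \ S, ∑ y ∈ V \ S, if cls x = cls y then (a x * u x) * (a y * u y) else 0 := by
    rw [pow_two, Finset.sum_mul_sum, ← Finset.sum_sub_distrib]
    apply Finset.sum_congr rfl
    intro x hx
    rw [← Finset.sum_sub_distrib]
    apply Finset.sum_congr rfl
    intro y hy
    rw [hWt x hx y hy]
    split_ifs <;> ring
  rw [h1]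
  have h2 := psd (V \ S) cls (fun x => a x * u x)
  linarith

theorem QQ_matroid (hF : ∀ A ∈ F, A ⊆ V ∧ A.card = l) (hex : Exch F) :
    ∀ (r : ℕ) (S : Finset ℕ), S.card + (r + 2) = l → QQ F V S := by
  intro r
  induction r with
  | zero => intro S hS; exact QQ_mbase hF hex S hS
  | succ r ih =>
    intro S hS
    have hl : ∀ A ∈ F, A.card = l := fun A hA => (hF A hA).2
    refine QQ_step2 F V l r hF S (by omega) ?_ ?_
    · intro x hx y hy hxy hNx hNy
      obtain ⟨A, hA⟩ := hNx
      obtain ⟨B, hB⟩ := hNy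
      rw [mem_upS] at hA hB
      by_cases hyA : y ∈ A
      · left
        exact ⟨A, mem_upS.2 ⟨hA.1, Finset.insert_subset (hA.2 (by simp))
          (Finset.insert_subset hyA ((Finset.subset_insert _ _).trans hA.2))⟩⟩
      · have h1 := Finset.card_sdiff_add_card_eq_card hA.2
        rw [hl A hA.1, Finset.card_insert_of_notMem (Finset.mem_sdiff.1 hx).2] at h1
        have h2 : (A \ insert x S).Nonempty := by rw [← Finset.card_pos]; omega
        obtain ⟨z, hz⟩ := h2
        rw [Finset.mem_sdiff, Finset.mem_insert, not_or] at hz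
        obtain ⟨hzA, hzx, hzS⟩ := hz
        have hzy : z ≠ y := fun h => hyA (h ▸ hzA)
        have hSA : S ⊆ A := (Finset.subset_insert _ _).trans hA.2
        have hSB : S ⊆ B := (Finset.subset_insert _ _).trans hB.2
        have hxA : x ∈ A := hA.2 (by simp)
        obtain ⟨C, hC, hSC, hyC, h3⟩ := aug hl hex hA.1 hB.1 hSA hSB hxA hzA (Ne.symm hzx)
          (hB.2 (by simp) : y ∈ B)
        rcases h3 with h3 | h3
        · left
          exact ⟨C, mem_upS.2 ⟨hC, Finset.insert_subset h3 (Finset.insert_subset hyC hSC)⟩⟩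
        · right
          refine ⟨z, Finset.mem_sdiff.2 ⟨(hF A hA.1).1 hzA, hzS⟩, Ne.symm hzx, hzy, ?_, ?_⟩
          · exact ⟨A, mem_upS.2 ⟨hA.1, Finset.insert_subset hxA (Finset.insert_subset hzA hSA)⟩⟩
          · exact ⟨C, mem_upS.2 ⟨hC, Finset.insert_subset h3 (Finset.insert_subset hyC hSC)⟩⟩
    · intro z hz
      exact ih (insert z S) (by
        rw [Finset.card_insert_of_notMem (Finset.mem_sdiff.1 hz).2]; omega)

/-- sum of squares of differences -/
theorem var_id {α : Type} (X : Finset α) (f : α → ℝ) :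
    ∑ A ∈ X, ∑ B ∈ X, (f A - f B) ^ 2 = 2 * (X.card * ∑ A ∈ X, f A ^ 2 - (∑ A ∈ X, f A) ^ 2) := by
  have h1 : ∑ A ∈ X, ∑ B ∈ X, (f A - f B) ^ 2 = ∑ A ∈ X, ∑ B ∈ X, f A ^ 2 +
      ∑ A ∈ X, ∑ B ∈ X, f B ^ 2 - 2 * ∑ A ∈ X, ∑ B ∈ X, f A * f B := by
    simp only [Finset.mul_sum, ← Finset.sum_add_distrib, ← Finset.sum_sub_distrib]
    apply Finset.sum_congr rfl
    intro x _
    apply Finset.sum_congr rfl
    intro y _
    ring
  rw [h1, ← Finset.sum_mul_sum]
  simp only [Finset.sum_const, nsmul_eq_mul, ← Finset.mul_sum]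
  ring

theorem H_phiS_le {α : Type} (X : Finset α) (f : α → ℝ) :
    H phiS X f ≤ (∑ A ∈ X, ∑ B ∈ X, (f A - f B) ^ 2) / 2 := by
  have hnn : 0 ≤ ∑ A ∈ X, ∑ B ∈ X, (f A - f B) ^ 2 :=
    Finset.sum_nonneg fun _ _ => Finset.sum_nonneg fun _ _ => sq_nonneg _
  rcases X.eq_empty_or_nonempty with rfl | hX
  · simp [H]
  have hc : (1 : ℝ) ≤ X.card := by exact_mod_cast hX.card_pos
  have h1 := var_id X f
  have h2 : H phiS X f * X.card = (∑ A ∈ X, ∑ B ∈ X, (f A - f B) ^ 2) / 2 := by
    rw [h1]
    unfold H phiS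
    have : (X.card : ℝ) ≠ 0 := by positivity
    field_simp
  have h3 : 0 ≤ H phiS X f := by
    by_contra h
    push Not at h
    nlinarith
  nlinarith

/-- **Poincare inequality** for the basis exchange graph. -/
theorem poincare (hF : ∀ A ∈ F, A ⊆ V ∧ A.card = l) (hex : Exch F) (f : Finset ℕ → ℝ)
    (hf : ∑ B ∈ F, f B = 0) :
    2 * ∑ B ∈ F, f B ^ 2 ≤ ∑ B ∈ F, ∑ C ∈ F, if (B \ C).card = 1 then (f B - f C) ^ 2 else 0 := by
  classical
  have hl : ∀ A ∈ F, A.card = l := fun A hA => (hF A hA).2
  have hrhs : 0 ≤ ∑ B ∈ F, ∑ C ∈ F, if (B \ C).card = 1 then (f B - f C) ^ 2 else 0 :=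
    Finset.sum_nonneg fun _ _ => Finset.sum_nonneg fun _ _ => by split_ifs <;> positivity
  rcases Nat.eq_zero_or_pos l with hl0 | hlpos
  · have h1 : ∀ B ∈ F, f B = 0 := by
      intro B hB
      have h2 : F = {B} := by
        ext C
        rw [Finset.mem_singleton]
        constructor
        · intro hC
          rw [Finset.card_eq_zero.1 ((hl C hC).trans hl0),
            Finset.card_eq_zero.1 ((hl B hB).trans hl0)]
        · rintro rfl; exact hB
      rw [h2, Finset.sum_singleton] at hf
      exact hf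
    rw [Finset.sum_congr rfl (fun B hB => by rw [h1 B hB])]
    simpa using hrhs
  · set c := ∑ A ∈ F, |f A| with hc
    set g : Finset ℕ → ℝ := fun A => if A ∈ F then f A + c else 0 with hg
    have hg0 : ∀ A, 0 ≤ g A := by
      intro A
      rw [hg]
      simp only
      split_ifs with h
      · have h1 : |f A| ≤ c := Finset.single_le_sum (f := fun A => |f A|)
          (fun _ _ => abs_nonneg _) h
        have h2 := neg_abs_le (f A)
        linarith
      · exact le_rfl
    have h1 := LI phiS_adm F V l hF (QQ_matroid hF hex) g hg0 (l - 1) ∅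
      (Finset.empty_subset _) (by rw [Finset.card_empty]; omega)
    have e1 : upS F ∅ = F := by unfold upS; simp
    have e2 : upS (V.powersetCard (l - 1)) ∅ = V.powersetCard (l - 1) := by unfold upS; simp
    rw [e1, e2] at h1
    -- left side
    have h2 : H phiS F g = ∑ B ∈ F, f B ^ 2 := by
      rcases F.eq_empty_or_nonempty with h0 | hne
      · rw [h0]; simp [H]
      have hcard : (0 : ℝ) < F.card := by exact_mod_cast hne.card_pos
      have h3 : ∑ A ∈ F, g A = F.card * c := by
        have : ∀ A ∈ F, g A = f A + c := fun A hA => by rw [hg]; simp [hA]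
        rw [Finset.sum_congr rfl this, Finset.sum_add_distrib, hf]
        simp
      unfold H phiS
      rw [h3]
      have h4 : ∑ x ∈ F, g x ^ 2 = ∑ B ∈ F, f B ^ 2 + F.card * c ^ 2 := by
        have : ∀ A ∈ F, g A ^ 2 = f A ^ 2 + (2 * c) * f A + c ^ 2 := fun A hA => by
          rw [hg]; simp only [hA, if_true]; ring
        rw [Finset.sum_congr rfl this, Finset.sum_add_distrib, Finset.sum_add_distrib,
          ← Finset.mul_sum, hf]
        simp
      rw [h4]
      field_simp
      ring
    rw [h2] at h1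
    -- right side
    have h3 : ∀ S ∈ V.powersetCard (l - 1), H phiS (upS F S) g ≤
        ∑ A ∈ F, ∑ B ∈ F, (if S ⊆ A ∩ B then (f A - f B) ^ 2 else 0) / 2 := by
      intro S _
      refine (H_phiS_le _ _).trans (le_of_eq ?_)
      rw [Finset.sum_div]
      unfold upS
      rw [Finset.sum_filter]
      apply Finset.sum_congr rfl
      intro A hA
      rw [Finset.sum_filter]
      split_ifs with h4
      · rw [Finset.sum_div]
        apply Finset.sum_congr rfl
        intro B hB
        have e3 : g A - g B = f A - f B := by rw [hg]; simp [hA, hB]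
        by_cases h5 : S ⊆ B
        · rw [if_pos h5, if_pos (Finset.subset_inter h4 h5), e3]
        · rw [if_neg h5, if_neg (fun h => h5 (h.trans Finset.inter_subset_right))]
      · rw [Finset.sum_eq_zero]
        intro B _
        rw [if_neg (fun h => h4 (h.trans Finset.inter_subset_left)), zero_div]
    have h4 := h1.trans (Finset.sum_le_sum h3)
    have h5 : ∑ S ∈ V.powersetCard (l - 1), ∑ A ∈ F, ∑ B ∈ F,
        (if S ⊆ A ∩ B then (f A - f B) ^ 2 else 0) / 2 =
        (∑ B ∈ F, ∑ C ∈ F, if (B \ C).card = 1 then (f B - f C) ^ 2 else 0) / 2 := by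
      rw [Finset.sum_comm, Finset.sum_div]
      apply Finset.sum_congr rfl
      intro A hA
      rw [Finset.sum_comm, Finset.sum_div]
      apply Finset.sum_congr rfl
      intro B hB
      rw [← Finset.sum_div]
      congr 1
      rw [← Finset.sum_filter, Finset.sum_const, nsmul_eq_mul]
      have e4 : (V.powersetCard (l - 1)).filter (fun S => S ⊆ A ∩ B) =
          (A ∩ B).powersetCard (l - 1) := by
        ext S
        simp only [Finset.mem_filter, Finset.mem_powersetCard]
        constructor
        · rintro ⟨⟨_, h⟩, h'⟩; exact ⟨h', h⟩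
        · rintro ⟨h, h'⟩
          exact ⟨⟨h.trans (Finset.inter_subset_left.trans (hF A hA).1), h'⟩, h⟩
      rw [e4, Finset.card_powersetCard]
      have h6 := Finset.card_sdiff_add_card_inter A B
      rw [hl A hA] at h6
      by_cases hAB : (A \ B).card = 1
      · rw [if_pos hAB]
        have : (A ∩ B).card = l - 1 := by omega
        rw [this, Nat.choose_self]
        simp
      · rw [if_neg hAB]
        by_cases h7 : (A \ B).card = 0
        · have h8 : A ⊆ B := Finset.sdiff_eq_empty_iff_subset.1 (Finset.card_eq_zero.1 h7)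
          have h9 : A = B := Finset.eq_of_subset_of_card_le h8 (by rw [hl A hA, hl B hB])
          rw [h9]; simp
        · rw [Nat.choose_eq_zero_of_lt (by omega)]
          simp
    rw [h5] at h4
    linarith

end

end Pool.Agent.Q226.SS
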