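import Mathlib

set_option autoImplicit false

/-!
# Rapid mixing from a Poincare inequality
-/

namespace Pool.Agent.Q226.SS

open Finset

section

variable {α : Type} [DecidableEq α] (Ω : Finset α) (adj : α → α → Prop) [DecidableRel adj]

/-- the Laplacian -/
noncomputable def Lap (f : α → ℝ) (y : α) : ℝ := ∑ x ∈ Ω, if adj y x then f y - f x else 0

/-- twice the Dirichlet form -/
noncomputable def Dir (f : α → ℝ) : ℝ :=
  ∑ x ∈ Ω, ∑ y ∈ Ω, if adj x y then (f x - f y) ^ 2 else 0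

variable {Ω adj}

theorem Lap_sum (hsym : ∀ x ∈ Ω, ∀ y ∈ Ω, adj x y → adj y x) (f : α → ℝ) :
    ∑ y ∈ Ω, Lap Ω adj f y = 0 := by
  have h1 : ∑ y ∈ Ω, Lap Ω adj f y = - ∑ y ∈ Ω, Lap Ω adj f y := by
    conv_lhs => unfold Lap
    rw [Finset.sum_comm, ← Finset.sum_neg_distrib]
    apply Finset.sum_congr rfl
    intro x hx
    unfold Lap
    rw [← Finset.sum_neg_distrib]
    apply Finset.sum_congr rfl
    intro y hy
    by_cases h : adj x y
    · rw [if_pos h, if_pos (hsym x hx y hy h)]; ring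
    · rw [if_neg h, if_neg (fun h' => h (hsym y hy x hx h')), neg_zero]
  linarith

theorem Lap_inner (hsym : ∀ x ∈ Ω, ∀ y ∈ Ω, adj x y → adj y x) (f : α → ℝ) :
    2 * ∑ y ∈ Ω, f y * Lap Ω adj f y = Dir Ω adj f := by
  have h1 : ∑ y ∈ Ω, f y * Lap Ω adj f y = ∑ x ∈ Ω, ∑ y ∈ Ω,
      if adj x y then f x * (f x - f y) else 0 := by
    unfold Lap
    apply Finset.sum_congr rfl
    intro x _
    rw [Finset.mul_sum]
    apply Finset.sum_congr rfl
    intro y _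
    split_ifs <;> ring
  have h2 : ∑ y ∈ Ω, f y * Lap Ω adj f y = ∑ x ∈ Ω, ∑ y ∈ Ω,
      if adj x y then f y * (f y - f x) else 0 := by
    rw [h1, Finset.sum_comm]
    apply Finset.sum_congr rfl
    intro x hx
    apply Finset.sum_congr rfl
    intro y hy
    by_cases h : adj x y
    · rw [if_pos h, if_pos (hsym x hx y hy h)]
    · rw [if_neg h, if_neg (fun h' => h (hsym y hy x hx h'))]
  rw [two_mul]
  conv_lhs => arg 1; rw [h1]
  rw [h2, ← Finset.sum_add_distrib]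
  unfold Dir
  apply Finset.sum_congr rfl
  intro x _
  rw [← Finset.sum_add_distrib]
  apply Finset.sum_congr rfl
  intro y _
  split_ifs <;> ring

theorem Lap_sq (M : ℝ) (hdeg : ∀ x ∈ Ω, 2 * ((Ω.filter (adj x)).card : ℝ) ≤ M) (f : α → ℝ) :
    2 * ∑ y ∈ Ω, Lap Ω adj f y ^ 2 ≤ M * Dir Ω adj f := by
  have h1 : ∀ x ∈ Ω, 2 * Lap Ω adj f x ^ 2 ≤
      M * ∑ y ∈ Ω, if adj x y then (f x - f y) ^ 2 else 0 := by
    intro x hx
    have h2 : Lap Ω adj f x = ∑ y ∈ Ω.filter (adj x), (f x - f y) := by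
      unfold Lap
      rw [Finset.sum_filter]
    have h3 := sq_sum_le_card_mul_sum_sq (s := Ω.filter (adj x)) (f := fun y => f x - f y)
    rw [← h2, Finset.sum_filter] at h3
    have h4 : 0 ≤ ∑ y ∈ Ω, if adj x y then (f x - f y) ^ 2 else 0 :=
      Finset.sum_nonneg fun _ _ => by split_ifs <;> positivity
    have h5 := hdeg x hx
    calc 2 * Lap Ω adj f x ^ 2 ≤ 2 * ((Ω.filter (adj x)).card *
          ∑ y ∈ Ω, if adj x y then (f x - f y) ^ 2 else 0) := by linarith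
      _ = (2 * ((Ω.filter (adj x)).card : ℝ)) * ∑ y ∈ Ω, (if adj x y then (f x - f y) ^ 2 else 0) :=
          by ring
      _ ≤ _ := mul_le_mul_of_nonneg_right h5 h4
  rw [Finset.mul_sum]
  refine (Finset.sum_le_sum h1).trans (le_of_eq ?_)
  rw [← Finset.mul_sum]
  rfl

theorem step_le (hsym : ∀ x ∈ Ω, ∀ y ∈ Ω, adj x y → adj y x) {M : ℝ} (hM : 0 < M)
    (hdeg : ∀ x ∈ Ω, 2 * ((Ω.filter (adj x)).card : ℝ) ≤ M)
    (hP : ∀ f : α → ℝ, ∑ x ∈ Ω, f x = 0 → 2 * ∑ x ∈ Ω, f x ^ 2 ≤ Dir Ω adj f)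
    (f : α → ℝ) (hf : ∑ x ∈ Ω, f x = 0) :
    ∑ x ∈ Ω, (f x - Lap Ω adj f x / M) ^ 2 ≤ (1 - 1 / M) * ∑ x ∈ Ω, f x ^ 2 := by
  have h1 := Lap_inner hsym f
  have h2 := Lap_sq M hdeg f
  have h3 := hP f hf
  have h4 : ∑ x ∈ Ω, (f x - Lap Ω adj f x / M) ^ 2 = ∑ x ∈ Ω, f x ^ 2 -
      (2 * ∑ y ∈ Ω, f y * Lap Ω adj f y) / M + (∑ y ∈ Ω, Lap Ω adj f y ^ 2) / M ^ 2 := by
    rw [Finset.mul_sum, Finset.sum_div, Finset.sum_div, ← Finset.sum_sub_distrib,
      ← Finset.sum_add_distrib]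
    apply Finset.sum_congr rfl
    intro x _
    field_simp
    ring
  rw [h4, h1]
  have h5 : (∑ y ∈ Ω, Lap Ω adj f y ^ 2) / M ^ 2 ≤ (Dir Ω adj f / 2) / M := by
    rw [div_le_div_iff₀ (by positivity) hM]
    nlinarith
  have h6 : (∑ x ∈ Ω, f x ^ 2) / M ≤ (Dir Ω adj f / 2) / M := by
    apply div_le_div_of_nonneg_right _ hM.le
    linarith
  have h7 : (1 - 1 / M) * ∑ x ∈ Ω, f x ^ 2 = ∑ x ∈ Ω, f x ^ 2 - (∑ x ∈ Ω, f x ^ 2) / M := by
    ring
  have h8 : Dir Ω adj f / M = (Dir Ω adj f / 2) / M + (Dir Ω adj f / 2) / M := by ring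
  rw [h7, h8]
  linarith

theorem mix (hsym : ∀ x ∈ Ω, ∀ y ∈ Ω, adj x y → adj y x) (hirr : ∀ x ∈ Ω, ¬ adj x x) {M : ℝ}
    (hM : 1 ≤ M) (hdeg : ∀ x ∈ Ω, 2 * ((Ω.filter (adj x)).card : ℝ) ≤ M)
    (hP : ∀ f : α → ℝ, ∑ x ∈ Ω, f x = 0 → 2 * ∑ x ∈ Ω, f x ^ 2 ≤ Dir Ω adj f)
    (K : α → α → ℝ) (hK : ∀ x ∈ Ω, ∀ y ∈ Ω, x ≠ y → K x y = if adj x y then 1 / M else 0)
    (hK1 : ∀ x ∈ Ω, ∑ y ∈ Ω, K x y = 1) (u : ℕ → α → ℝ) (x0 : α) (hx0 : x0 ∈ Ω)
    (h0 : ∀ y ∈ Ω, u 0 y = if y = x0 then 1 else 0)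
    (hu : ∀ t, ∀ y ∈ Ω, u (t + 1) y = ∑ x ∈ Ω, u t x * K x y) (t : ℕ) :
    ∀ y ∈ Ω, (u t y - 1 / Ω.card) ^ 2 ≤ (1 - 1 / M) ^ t := by
  have hM0 : 0 < M := by linarith
  have hM1 : 0 ≤ 1 - 1 / M := by
    rw [sub_nonneg, div_le_one hM0]; exact hM
  have hT : (1 : ℝ) ≤ Ω.card := by
    have : 0 < Ω.card := Finset.card_pos.2 ⟨x0, hx0⟩
    exact_mod_cast this
  have hT0 : (Ω.card : ℝ) ≠ 0 := by positivity
  -- the diagonal entries
  have hKd : ∀ y ∈ Ω, K y y = 1 - ∑ x ∈ Ω, if adj y x then 1 / M else 0 := by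
    intro y hy
    have h1 := hK1 y hy
    have h2 : ∀ x ∈ Ω, K y x = (if y = x then K y y else 0) + if adj y x then 1 / M else 0 := by
      intro x hx
      by_cases h : y = x
      · subst h
        rw [if_pos rfl, if_neg (hirr y hy), add_zero]
      · rw [if_neg h, zero_add, hK y hy x hx h]
    rw [Finset.sum_congr rfl h2, Finset.sum_add_distrib, Finset.sum_ite_eq, if_pos hy] at h1
    linarith
  -- one step
  have hstep : ∀ (f : α → ℝ), ∀ y ∈ Ω, ∑ x ∈ Ω, f x * K x y = f y - Lap Ω adj f y / M := by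
    intro f y hy
    have h2 : ∀ x ∈ Ω, f x * K x y = (if y = x then f y * K y y else 0) +
        if adj y x then f x / M else 0 := by
      intro x hx
      by_cases h : y = x
      · subst h
        rw [if_pos rfl, if_neg (hirr y hy), add_zero]
      · rw [if_neg h, zero_add, hK x hx y hy (Ne.symm h)]
        by_cases h' : adj x y
        · rw [if_pos h', if_pos (hsym x hx y hy h')]; ring
        · rw [if_neg h', if_neg (fun h'' => h' (hsym y hy x hx h'')), mul_zero]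
    rw [Finset.sum_congr rfl h2, Finset.sum_add_distrib, Finset.sum_ite_eq, if_pos hy, hKd y hy]
    unfold Lap
    rw [Finset.sum_div, mul_sub, mul_one, Finset.mul_sum, sub_add_eq_add_sub, add_sub_assoc,
      ← Finset.sum_sub_distrib, sub_eq_add_neg, ← Finset.sum_neg_distrib]
    congr 1
    apply Finset.sum_congr rfl
    intro x _
    split_ifs
    · ring
    · simp
  set g : ℕ → α → ℝ := fun t y => u t y - 1 / Ω.card with hg
  have hLg : ∀ t, ∀ y ∈ Ω, Lap Ω adj (g t) y = Lap Ω adj (u t) y := by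
    intro t y _
    unfold Lap
    apply Finset.sum_congr rfl
    intro x _
    rw [hg]
    simp only
    split_ifs
    · ring
    · rfl
  have hgs : ∀ t, ∀ y ∈ Ω, g (t + 1) y = g t y - Lap Ω adj (g t) y / M := by
    intro t y hy
    rw [hLg t y hy]
    change u (t + 1) y - 1 / Ω.card = u t y - 1 / Ω.card - Lap Ω adj (u t) y / M
    rw [hu t y hy, hstep (u t) y hy]
    ring
  have hgsum : ∀ t, ∑ y ∈ Ω, g t y = 0 := by
    intro t
    induction t with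
    | zero =>
      change ∑ y ∈ Ω, (u 0 y - 1 / Ω.card) = 0
      rw [Finset.sum_sub_distrib, Finset.sum_congr rfl h0, Finset.sum_ite_eq', if_pos hx0,
        Finset.sum_const, nsmul_eq_mul]
      field_simp
      ring
    | succ t ih =>
      rw [Finset.sum_congr rfl (hgs t), Finset.sum_sub_distrib, ih, ← Finset.sum_div,
        Lap_sum hsym]
      ring
  have hmain : ∀ t, ∑ y ∈ Ω, g t y ^ 2 ≤ (1 - 1 / M) ^ t := by
    intro t
    induction t with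
    | zero =>
      have h1 : ∀ y ∈ Ω, g 0 y ^ 2 = (if y = x0 then 1 - 2 / (Ω.card : ℝ) else 0) +
          (1 / (Ω.card : ℝ)) ^ 2 := by
        intro y hy
        change (u 0 y - 1 / Ω.card) ^ 2 = _
        rw [h0 y hy]
        split_ifs <;> ring
      rw [Finset.sum_congr rfl h1, Finset.sum_add_distrib, Finset.sum_ite_eq', if_pos hx0,
        Finset.sum_const, nsmul_eq_mul, pow_zero]
      have h2 : (Ω.card : ℝ) * (1 / (Ω.card : ℝ)) ^ 2 = 1 / (Ω.card : ℝ) := by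
        field_simp
      have h3 : 0 < 1 / (Ω.card : ℝ) := by positivity
      rw [h2]
      have h4 : 2 / (Ω.card : ℝ) = 2 * (1 / (Ω.card : ℝ)) := by ring
      rw [h4]
      linarith
    | succ t ih =>
      have h1 : ∑ y ∈ Ω, g (t + 1) y ^ 2 = ∑ x ∈ Ω, (g t x - Lap Ω adj (g t) x / M) ^ 2 :=
        Finset.sum_congr rfl fun y hy => by rw [hgs t y hy]
      rw [h1, pow_succ, mul_comm]
      exact (step_le hsym hM0 hdeg hP (g t) (hgsum t)).trans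
        (mul_le_mul_of_nonneg_left ih hM1)
  intro y hy
  exact (Finset.single_le_sum (f := fun y => g t y ^ 2) (fun _ _ => sq_nonneg _) hy).trans
    (hmain t)

theorem pow_half {M : ℕ} (hM : 1 ≤ M) (m : ℕ) :
    (1 - 1 / (M : ℝ)) ^ (M * m) ≤ (1 / 2) ^ m := by
  have hM0 : (0 : ℝ) < M := by exact_mod_cast hM
  have hM1 : (0 : ℝ) ≤ 1 - 1 / (M : ℝ) := by
    rw [sub_nonneg, div_le_one hM0]; exact_mod_cast hM
  have h1 : 1 - 1 / (M : ℝ) ≤ Real.exp (-(1 / M)) := by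
    have := Real.add_one_le_exp (-(1 / (M : ℝ)))
    linarith
  rw [pow_mul]
  apply pow_le_pow_left₀ (by positivity)
  calc (1 - 1 / (M : ℝ)) ^ M ≤ Real.exp (-(1 / M)) ^ M := pow_le_pow_left₀ hM1 h1 _
    _ = Real.exp (-1) := by
      rw [← Real.exp_nat_mul]
      congr 1
      field_simp
    _ ≤ 1 / 2 := by
      rw [Real.exp_neg, one_div]
      apply inv_anti₀ (by norm_num)
      have := Real.add_one_le_exp (1 : ℝ)
      linarith

/-- the form that is used: after `2 M (N + s)` steps no state has too large a probability -/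
theorem mix_upper (hsym : ∀ x ∈ Ω, ∀ y ∈ Ω, adj x y → adj y x) (hirr : ∀ x ∈ Ω, ¬ adj x x) {M : ℕ}
    (hM : 1 ≤ M) (hdeg : ∀ x ∈ Ω, 2 * (Ω.filter (adj x)).card ≤ M)
    (hP : ∀ f : α → ℝ, ∑ x ∈ Ω, f x = 0 → 2 * ∑ x ∈ Ω, f x ^ 2 ≤ Dir Ω adj f)
    (K : α → α → ℝ) (hK : ∀ x ∈ Ω, ∀ y ∈ Ω, x ≠ y → K x y = if adj x y then 1 / (M : ℝ) else 0)
    (hK1 : ∀ x ∈ Ω, ∑ y ∈ Ω, K x y = 1) (u : ℕ → α → ℝ) (x0 : α) (hx0 : x0 ∈ Ω)
    (h0 : ∀ y ∈ Ω, u 0 y = if y = x0 then 1 else 0)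
    (hu : ∀ t, ∀ y ∈ Ω, u (t + 1) y = ∑ x ∈ Ω, u t x * K x y) {N s : ℕ}
    (hN : Ω.card ≤ 2 ^ N) :
    ∀ y ∈ Ω, 2 ^ s * ((Ω.card : ℝ) * u (M * (2 * (N + s))) y) ≤ 2 ^ s + 1 := by
  intro y hy
  have h1 := mix hsym hirr (by exact_mod_cast hM) (fun x hx => by exact_mod_cast hdeg x hx) hP K hK
    hK1 u x0 hx0 h0 hu (M * (2 * (N + s))) y hy
  have h2 := h1.trans (pow_half hM (2 * (N + s)))
  rw [pow_mul', ← sq_abs] at h2
  have h3 : |u (M * (2 * (N + s))) y - 1 / Ω.card| ≤ (1 / 2) ^ (N + s) :=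
    (pow_le_pow_iff_left₀ (abs_nonneg _) (by positivity) (two_ne_zero)).1 h2
  have h4 := (abs_le.1 h3).2
  have hT : (0 : ℝ) < Ω.card := by exact_mod_cast Finset.card_pos.2 ⟨x0, hx0⟩
  have hN' : (Ω.card : ℝ) ≤ 2 ^ N := by exact_mod_cast hN
  have h5 : (Ω.card : ℝ) * u (M * (2 * (N + s))) y ≤ 1 + Ω.card * (1 / 2) ^ (N + s) := by
    have : (Ω.card : ℝ) * (u (M * (2 * (N + s))) y - 1 / Ω.card) ≤ Ω.card * (1 / 2) ^ (N + s) :=
      mul_le_mul_of_nonneg_left h4 hT.le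
    rw [mul_sub, mul_one_div_cancel hT.ne'] at this
    linarith
  have h6 : (Ω.card : ℝ) * (1 / 2) ^ (N + s) ≤ (1 / 2) ^ s := by
    calc (Ω.card : ℝ) * (1 / 2) ^ (N + s) ≤ 2 ^ N * (1 / 2) ^ (N + s) :=
          mul_le_mul_of_nonneg_right hN' (by positivity)
      _ = (2 * (1 / 2)) ^ N * (1 / 2) ^ s := by rw [pow_add, mul_pow]; ring
      _ = (1 / 2) ^ s := by norm_num
  have h7 : (2 : ℝ) ^ s * (1 / 2) ^ s = 1 := by rw [← mul_pow]; norm_num
  calc 2 ^ s * ((Ω.card : ℝ) * u (M * (2 * (N + s))) y) ≤ 2 ^ s * (1 + (1 / 2) ^ s) :=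
        mul_le_mul_of_nonneg_left (h5.trans (by linarith)) (by positivity)
    _ = 2 ^ s + 1 := by rw [mul_add, h7, mul_one]

end

end Pool.Agent.Q226.SS
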