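import Pool.Agent.Q226.SS.Av
import Pool.Agent.Q226.SS.Mix
import Pool.Agent.Q226.SS.Matroid

set_option autoImplicit false

/-!
# The exchange chain on bit masks
-/

namespace Pool.Agent.Q226.SS

open NPC Pool.Agent.H591R2

/-! ### masks -/

/-- mask number `R` -/
def msk (n R : ℕ) : List Bool := (List.range n).map (fun i => decide (R / 2 ^ i % 2 = 1))

theorem length_msk (n R : ℕ) : (msk n R).length = n := by simp [msk]

theorem msk_succ (n R : ℕ) : msk (n + 1) R = decide (R % 2 = 1) :: msk n (R / 2) := by
  unfold msk
  rw [List.range_succ_eq_map, List.map_cons, List.map_map]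
  congr 1
  · simp
  · apply List.map_congr_left
    intro i _
    simp only [Function.comp]
    rw [Nat.pow_succ', Nat.div_div_eq_div_mul]

theorem valB_msk (n : ℕ) : ∀ R, valB (msk n R) = R % 2 ^ n := by
  induction n with
  | zero => intro R; simp [msk, Nat.mod_one]
  | succ n ih =>
    intro R
    rw [msk_succ, valB_cons, ih, Nat.pow_succ', Nat.mod_mul]
    congr 1
    by_cases h : R % 2 = 1
    · simp [h]
    · have : R % 2 = 0 := by omega
      simp [this]

theorem valB_inj : ∀ (B C : List Bool), B.length = C.length → valB B = valB C → B = C := by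
  intro B
  induction B with
  | nil => intro C h _; exact (List.length_eq_zero_iff.1 h.symm).symm
  | cons b B ih =>
    intro C h h2
    cases C with
    | nil => simp at h
    | cons c C =>
      rw [valB_cons, valB_cons] at h2
      have h3 : B.length = C.length := by simpa using h
      have h4 : (if b then 1 else 0) = (if c then 1 else 0) ∧ valB B = valB C := by
        cases b <;> cases c <;> simp at h2 ⊢ <;> omega
      rw [ih C h3 h4.2]
      congr 1
      have := h4.1
      cases b <;> cases c <;> simp at this ⊢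

/-- all masks of length `n` -/
def mall (n : ℕ) : List (List Bool) := (List.range (2 ^ n)).map (msk n)

theorem nodup_mall (n : ℕ) : (mall n).Nodup := by
  unfold mall
  apply List.Nodup.map_on _ List.nodup_range
  intro R hR R' hR' h
  rw [List.mem_range] at hR hR'
  have := congrArg valB h
  rw [valB_msk, valB_msk, Nat.mod_eq_of_lt hR, Nat.mod_eq_of_lt hR'] at this
  exact this

theorem mem_mall {n : ℕ} {B : List Bool} : B ∈ mall n ↔ B.length = n := by
  unfold mall
  rw [List.mem_map]
  constructor
  · rintro ⟨R, _, rfl⟩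
    exact length_msk n R
  · rintro rfl
    refine ⟨valB B, List.mem_range.2 (valB_lt B), ?_⟩
    apply valB_inj
    · rw [length_msk]
    · rw [valB_msk, Nat.mod_eq_of_lt (valB_lt B)]

/-- the set of marked positions -/
def supp (n : ℕ) (B : List Bool) : Finset ℕ := (Finset.range n).filter (fun t => B.getD t false = true)

theorem mem_supp {n t : ℕ} {B : List Bool} : t ∈ supp n B ↔ t < n ∧ B.getD t false = true := by
  unfold supp
  rw [Finset.mem_filter, Finset.mem_range]

theorem supp_inj {n : ℕ} {B C : List Bool} (hB : B.length = n) (hC : C.length = n)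
    (h : supp n B = supp n C) : B = C := by
  apply List.ext_getElem (by omega)
  intro t h1 h2
  have h3 : t ∈ supp n B ↔ t ∈ supp n C := by rw [h]
  rw [mem_supp, mem_supp, List.getD_eq_getElem _ _ h1, List.getD_eq_getElem _ _ h2] at h3
  have ht : t < n := by omega
  simp only [ht, true_and] at h3
  exact Bool.eq_iff_iff.2 h3

/-- the mask with `i` removed and `j` added -/
def mvB (n : ℕ) (B : List Bool) (i j : ℕ) : List Bool :=
  (List.range n).map (fun t => if t = i then false else if t = j then true else B.getD t false)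

theorem length_mv (n : ℕ) (B : List Bool) (i j : ℕ) : (mvB n B i j).length = n := by simp [mvB]

theorem getD_mv {n : ℕ} {B : List Bool} {i j t : ℕ} (ht : t < n) : (mvB n B i j).getD t false =
    if t = i then false else if t = j then true else B.getD t false := by
  rw [List.getD_eq_getElem _ _ (by rw [length_mv]; exact ht)]
  simp [mvB]

theorem supp_mv {n : ℕ} {B : List Bool} {i j : ℕ} (hj : j < n) (hij : i ≠ j) :
    supp n (mvB n B i j) = insert j ((supp n B).erase i) := by
  ext t
  rw [mem_supp, Finset.mem_insert, Finset.mem_erase, mem_supp]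
  constructor
  · rintro ⟨h1, h2⟩
    rw [getD_mv h1] at h2
    split_ifs at h2 with h3 h4
    · exact Or.inl h4
    · exact Or.inr ⟨h3, h1, h2⟩
  · rintro (rfl | ⟨h1, h2, h3⟩)
    · refine ⟨hj, ?_⟩
      rw [getD_mv hj, if_neg (Ne.symm hij), if_pos rfl]
    · refine ⟨h2, ?_⟩
      rw [getD_mv h2, if_neg h1]
      split_ifs
      · rfl
      · exact h3

/-! ### one step -/

/-- one step of the exchange chain; the number `u` codes the pair of positions -/
def stp (n e : ℕ) (isb : List Bool → Bool) (B : List Bool) (u : ℕ) : List Bool :=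
  if u % 2 ^ e < n ∧ u / 2 ^ e < n ∧ B.getD (u % 2 ^ e) false = true ∧
    B.getD (u / 2 ^ e) false = false ∧ isb (mvB n B (u % 2 ^ e) (u / 2 ^ e)) = true
  then mvB n B (u % 2 ^ e) (u / 2 ^ e) else B

/-- the list of states -/
def Ms (n : ℕ) (isb : List Bool → Bool) : List (List Bool) := (mall n).filter isb

/-- the set of states -/
def Om (n : ℕ) (isb : List Bool → Bool) : Finset (List Bool) := (Ms n isb).toFinset

theorem nodup_Ms (n : ℕ) (isb : List Bool → Bool) : (Ms n isb).Nodup := (nodup_mall n).filter _

theorem mem_Ms {n : ℕ} {isb : List Bool → Bool} {B : List Bool} :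
    B ∈ Ms n isb ↔ B.length = n ∧ isb B = true := by
  unfold Ms
  rw [List.mem_filter, mem_mall]

theorem mem_Om {n : ℕ} {isb : List Bool → Bool} {B : List Bool} :
    B ∈ Om n isb ↔ B.length = n ∧ isb B = true := by
  unfold Om
  rw [List.mem_toFinset, mem_Ms]

theorem card_Om (n : ℕ) (isb : List Bool → Bool) : (Om n isb).card = (Ms n isb).length := by
  unfold Om
  exact List.toFinset_card_of_nodup (nodup_Ms n isb)

theorem card_Om_le (n : ℕ) (isb : List Bool → Bool) : (Om n isb).card ≤ 2 ^ n := by
  rw [card_Om]
  unfold Ms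
  refine (List.length_filter_le _ _).trans ?_
  simp [mall]

section

variable {n e : ℕ} {isb : List Bool → Bool}

theorem stp_mem {B : List Bool} (hB : B ∈ Om n isb) (u : ℕ) : stp n e isb B u ∈ Om n isb := by
  unfold stp
  split_ifs with h
  · rw [mem_Om]
    exact ⟨length_mv _ _ _ _, h.2.2.2.2⟩
  · exact hB

/-- adjacency of masks -/
def adj (n : ℕ) (B C : List Bool) : Prop := (supp n B \ supp n C).card = 1

instance (n : ℕ) : DecidableRel (adj n) := fun B C => by unfold adj; infer_instance

/-- the structure of a matroid on the states -/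
structure IsMat (n : ℕ) (isb : List Bool → Bool) (l : ℕ) : Prop where
  card : ∀ B ∈ Om n isb, (supp n B).card = l
  exch : Exch ((Om n isb).image (supp n))

variable {l : ℕ}

theorem card_sdiff_comm (h : IsMat n isb l) {B C : List Bool} (hB : B ∈ Om n isb)
    (hC : C ∈ Om n isb) : (supp n C \ supp n B).card = (supp n B \ supp n C).card := by
  have h1 := Finset.card_sdiff_add_card_inter (supp n B) (supp n C)
  have h2 := Finset.card_sdiff_add_card_inter (supp n C) (supp n B)
  rw [Finset.inter_comm (supp n C)] at h2
  rw [h.card B hB] at h1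
  rw [h.card C hC] at h2
  omega

theorem adj_symm (h : IsMat n isb l) : ∀ B ∈ Om n isb, ∀ C ∈ Om n isb, adj n B C → adj n C B := by
  intro B hB C hC hadj
  unfold adj
  rw [card_sdiff_comm h hB hC]
  exact hadj

theorem adj_irr (n : ℕ) (B : List Bool) : ¬ adj n B B := by
  unfold adj
  simp

theorem stp_adj {B : List Bool} {u : ℕ} (h : stp n e isb B u ≠ B) :
    supp n B \ supp n (stp n e isb B u) = {u % 2 ^ e} ∧
    supp n (stp n e isb B u) \ supp n B = {u / 2 ^ e} := by
  unfold stp at h ⊢
  split_ifs at h ⊢ with hc
  · obtain ⟨h1, h2, h3, h4, h5⟩ := hc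
    have hij : u % 2 ^ e ≠ u / 2 ^ e := by
      intro h6
      rw [h6, h4] at h3
      simp at h3
    rw [supp_mv h2 hij]
    constructor
    · ext t
      rw [Finset.mem_sdiff, Finset.mem_insert, Finset.mem_erase, Finset.mem_singleton, mem_supp]
      constructor
      · rintro ⟨h6, h7⟩
        by_contra h8
        exact h7 (Or.inr ⟨h8, h6⟩)
      · rintro rfl
        refine ⟨⟨h1, h3⟩, ?_⟩
        rintro (h6 | h6)
        · exact hij h6
        · exact h6.1 rfl
    · ext t
      rw [Finset.mem_sdiff, Finset.mem_insert, Finset.mem_erase, Finset.mem_singleton]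
      constructor
      · rintro ⟨h6 | h6, h7⟩
        · exact h6
        · exact absurd h6.2 h7
      · rintro rfl
        refine ⟨Or.inl rfl, ?_⟩
        rw [mem_supp, h4]
        simp
  · exact absurd rfl h

theorem stp_count (h : IsMat n isb l) (hn : n ≤ 2 ^ e) {B C : List Bool} (hB : B ∈ Om n isb)
    (hC : C ∈ Om n isb) (hBC : B ≠ C) :
    ((Finset.range (2 ^ (2 * e))).filter (fun u => stp n e isb B u = C)).card =
      if adj n B C then 1 else 0 := by
  have hBl := (mem_Om.1 hB).1
  have hCl := (mem_Om.1 hC).1
  split_ifs with hadj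
  · have hadj' : (supp n C \ supp n B).card = 1 := adj_symm h B hB C hC hadj
    unfold adj at hadj
    obtain ⟨i, hi⟩ := Finset.card_eq_one.1 hadj
    obtain ⟨j, hj⟩ := Finset.card_eq_one.1 hadj'
    have hi1 : i ∈ supp n B \ supp n C := by rw [hi]; simp
    have hj1 : j ∈ supp n C \ supp n B := by rw [hj]; simp
    rw [Finset.mem_sdiff, mem_supp] at hi1 hj1
    have hin : i < n := hi1.1.1
    have hjn : j < n := hj1.1.1
    have hij : i ≠ j := by
      rintro rfl
      exact hi1.2 (mem_supp.2 hj1.1)
    have hBj : B.getD j false = false := by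
      have := hj1.2
      rw [mem_supp] at this
      simpa [hjn] using this
    have hC' : mvB n B i j = C := by
      apply supp_inj (length_mv _ _ _ _) hCl
      rw [supp_mv hjn hij]
      ext t
      rw [Finset.mem_insert, Finset.mem_erase]
      constructor
      · rintro (rfl | ⟨h1, h2⟩)
        · exact mem_supp.2 hj1.1
        · by_contra h3
          have : t ∈ supp n B \ supp n C := Finset.mem_sdiff.2 ⟨h2, h3⟩
          rw [hi, Finset.mem_singleton] at this
          exact h1 this
      · intro h1
        by_cases h2 : t = j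
        · exact Or.inl h2
        · right
          refine ⟨?_, ?_⟩
          · rintro rfl
            exact hi1.2 h1
          · by_contra h3
            have : t ∈ supp n C \ supp n B := Finset.mem_sdiff.2 ⟨h1, h3⟩
            rw [hj, Finset.mem_singleton] at this
            exact h2 this
    have h2e : 0 < 2 ^ e := by positivity
    have hi2 : i < 2 ^ e := by omega
    have hj2 : j < 2 ^ e := by omega
    have hmod : (i + 2 ^ e * j) % 2 ^ e = i := by
      rw [Nat.add_mul_mod_self_left, Nat.mod_eq_of_lt hi2]
    have hdiv : (i + 2 ^ e * j) / 2 ^ e = j := by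
      rw [Nat.add_mul_div_left _ _ h2e, Nat.div_eq_of_lt hi2, zero_add]
    rw [Finset.card_eq_one]
    refine ⟨i + 2 ^ e * j, ?_⟩
    ext u
    rw [Finset.mem_filter, Finset.mem_range, Finset.mem_singleton]
    constructor
    · rintro ⟨_, h1⟩
      have h2 := stp_adj (n := n) (e := e) (isb := isb) (B := B) (u := u) (by
        rw [h1]; exact Ne.symm hBC)
      rw [h1, hi, hj] at h2
      have h3 := Finset.singleton_injective h2.1
      have h4 := Finset.singleton_injective h2.2
      have h5 := Nat.mod_add_div u (2 ^ e)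
      rw [← h3, ← h4] at h5
      exact h5.symm
    · rintro rfl
      constructor
      · rw [two_mul, pow_add]
        calc i + 2 ^ e * j < 2 ^ e + 2 ^ e * j := by omega
          _ = 2 ^ e * (j + 1) := by ring
          _ ≤ 2 ^ e * 2 ^ e := Nat.mul_le_mul_left _ (by omega)
      · unfold stp
        rw [hmod, hdiv, hC', if_pos]
        exact ⟨hin, hjn, hi1.1.2, hBj, (mem_Om.1 hC).2⟩
  · rw [Finset.card_eq_zero, Finset.filter_eq_empty_iff]
    intro u _ h1
    apply hadj
    have h2 := stp_adj (n := n) (e := e) (isb := isb) (B := B) (u := u) (by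
      rw [h1]; exact Ne.symm hBC)
    rw [h1] at h2
    unfold adj
    rw [h2.1, Finset.card_singleton]

theorem deg_le (h : IsMat n isb l) {B : List Bool} (hB : B ∈ Om n isb) :
    ((Om n isb).filter (adj n B)).card ≤ n * n := by
  have hsub : (Om n isb).filter (adj n B) ⊆
      (Finset.range n ×ˢ Finset.range n).image (fun p => mvB n B p.1 p.2) := by
    intro C hC
    rw [Finset.mem_filter] at hC
    obtain ⟨hC, hadj⟩ := hC
    have hBC : B ≠ C := by
      rintro rfl
      exact adj_irr n B hadj
    have h1 := stp_count (e := n) h Nat.lt_two_pow_self.le hB hC hBC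
    rw [if_pos hadj] at h1
    obtain ⟨u, hu⟩ := Finset.card_pos.1 (by omega : 0 <
      ((Finset.range (2 ^ (2 * n))).filter (fun u => stp n n isb B u = C)).card)
    rw [Finset.mem_filter] at hu
    have h2 := hu.2
    unfold stp at h2
    split_ifs at h2 with hc
    · rw [Finset.mem_image]
      exact ⟨(u % 2 ^ n, u / 2 ^ n), Finset.mem_product.2
        ⟨Finset.mem_range.2 hc.1, Finset.mem_range.2 hc.2.1⟩, h2⟩
    · exact absurd h2 hBC
  refine (Finset.card_le_card hsub).trans (Finset.card_image_le.trans ?_)
  rw [Finset.card_product, Finset.card_range]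

theorem poincare_mask (h : IsMat n isb l) (f : List Bool → ℝ) (hf : ∑ B ∈ Om n isb, f B = 0) :
    2 * ∑ B ∈ Om n isb, f B ^ 2 ≤ Dir (Om n isb) (adj n) f := by
  classical
  have hinj : Set.InjOn (supp n) (Om n isb : Set (List Bool)) := by
    intro B hB C hC h1
    exact supp_inj (mem_Om.1 hB).1 (mem_Om.1 hC).1 h1
  set g : Finset ℕ → ℝ := fun S => f ((msk n) (∑ t ∈ S, 2 ^ t)) with hg
  -- inverse of the support
  obtain ⟨inv, hinv⟩ : ∃ inv : Finset ℕ → List Bool, ∀ B ∈ Om n isb, inv (supp n B) = B :=
    ⟨Function.invFunOn (supp n) (Om n isb : Set (List Bool)), fun B hB =>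
      hinj.leftInvOn_invFunOn hB⟩
  have h1 := poincare (F := (Om n isb).image (supp n)) (V := Finset.range n) (l := l) (by
    intro A hA
    rw [Finset.mem_image] at hA
    obtain ⟨B, hB, rfl⟩ := hA
    exact ⟨Finset.filter_subset _ _, h.card B hB⟩) h.exch (fun S => f (inv S)) (by
      rw [Finset.sum_image hinj, ← hf]
      exact Finset.sum_congr rfl fun B hB => by rw [hinv B hB])
  rw [Finset.sum_image hinj, Finset.sum_image hinj] at h1
  have h2 : ∑ B ∈ Om n isb, f (inv (supp n B)) ^ 2 = ∑ B ∈ Om n isb, f B ^ 2 :=
    Finset.sum_congr rfl fun B hB => by rw [hinv B hB]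
  rw [h2] at h1
  refine h1.trans (le_of_eq ?_)
  unfold Dir
  apply Finset.sum_congr rfl
  intro B hB
  rw [Finset.sum_image hinj]
  apply Finset.sum_congr rfl
  intro C hC
  rw [hinv B hB, hinv C hC]
  rfl

end

end Pool.Agent.Q226.SS
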