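import Pool.Agent.Q226.SS.Prob
import Pool.Agent.H591R2.Assemble

set_option autoImplicit false

/-!
# The algorithm runs in polynomial time
-/

namespace Pool.Agent.NPC.Q226SS

open Pool.Agent.NPC.R591 Pool.Agent.H591R2 Pool.Agent.Q226.SS

section Basic

variable {α β : Type} [TEnc α] [TEnc β]

theorem take_eq : ∀ (l : List β) (k n : ℕ),
    ((l.zipIdx k).filter (fun p => decide (p.2 < k + n))).map Prod.fst = l.take n := by
  intro l
  induction l with
  | nil => intro k n; simp
  | cons b l ih =>
    intro k n
    cases n with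
    | zero =>
      rw [List.take_zero, List.map_eq_nil_iff, List.filter_eq_nil_iff]
      rintro ⟨c, j⟩ hc
      have := List.le_snd_of_mem_zipIdx hc
      simp at this ⊢
      omega
    | succ n =>
      have h1 := ih (k + 1) n
      simp only [List.zipIdx_cons, List.take_succ_cons]
      rw [List.filter_cons_of_pos (by simp), List.map_cons]
      congr 1
      rw [← h1]
      congr 2
      funext p
      congr 1
      apply propext
      omega

theorem drop_eq : ∀ (l : List β) (k n : ℕ),
    ((l.zipIdx k).filter (fun p => decide (k + n ≤ p.2))).map Prod.fst = l.drop n := by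
  intro l
  induction l with
  | nil => intro k n; simp
  | cons b l ih =>
    intro k n
    cases n with
    | zero =>
      rw [List.drop_zero]
      have : ((b :: l).zipIdx k).filter (fun p => decide (k + 0 ≤ p.2)) = (b :: l).zipIdx k := by
        rw [List.filter_eq_self]
        rintro ⟨c, j⟩ hc
        have := List.le_snd_of_mem_zipIdx hc
        simp at this ⊢
        omega
      rw [this, List.zipIdx_map_fst]
    | succ n =>
      have h1 := ih (k + 1) n
      simp only [List.zipIdx_cons, List.drop_succ_cons]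
      rw [List.filter_cons_of_neg (by simp)]
      rw [← h1]
      congr 2
      funext p
      congr 1
      apply propext
      omega

theorem poly_take {l : α → List β} {n : α → ℕ} (hl : Poly l) (hn : Poly n) :
    Poly (fun a => (l a).take (n a)) := by
  have h : Poly (fun a => (((l a).zipIdx).filter (fun p => decide (p.2 < n a))).map Prod.fst) := by
    fun_prop
  exact h.congr fun a => by simpa using take_eq (l a) 0 (n a)

theorem poly_drop {l : α → List β} {n : α → ℕ} (hl : Poly l) (hn : Poly n) :
    Poly (fun a => (l a).drop (n a)) := by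
  have h : Poly (fun a => (((l a).zipIdx).filter (fun p => decide (n a ≤ p.2))).map Prod.fst) := by
    fun_prop
  exact h.congr fun a => by simpa using drop_eq (l a) 0 (n a)

theorem UPoly.bd {m : α → ℕ} (hm : UPoly m) : ∃ r : Polynomial ℕ, ∀ a, m a ≤ r.eval (sz a) := by
  obtain ⟨r, hr⟩ := Poly.sz_le (f := fun a => List.replicate (m a) ()) hm
  refine ⟨r, fun a => ?_⟩
  have h1 := length_lt_sz (List.replicate (m a) ())
  rw [List.length_replicate] at h1
  exact h1.le.trans (hr a)

theorem sz_le_of_length {B : List Bool} {n : ℕ} (h : B.length = n) : sz B ≤ 4 * n + 1 := by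
  have := sz_listBool_le B
  omega

theorem poly_bits : Poly (fun a : α => (bits a : List Bool)) := by
  have h1 : PC (bits : α → List Bool) (fun x : List Bool => x) (fun a => (bits a : List Bool)) :=
    PC.id (ea := (bits : α → List Bool))
  exact PC.comp (g := fun x : List Bool => x) PC.rawIn h1

end Basic

section

variable {α : Type} [TEnc α]

theorem pow_min_poly {n i : α → ℕ} (hn : UPoly n) (hi : Poly i) :
    Poly (fun a => 2 ^ (min (i a) (n a))) :=
  Poly.npow (Poly.const 2) (UPoly.of_le (Poly.min hi hn.toPoly) hn fun _ => min_le_right _ _)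

theorem msk_poly {n R : α → ℕ} (hn : UPoly n) (hR : Poly R) :
    Poly (fun a => msk (n a) (R a)) := by
  have h1 : Poly (fun a => (List.range (n a)).map
      (fun i => decide (R a / 2 ^ (min i (n a)) % 2 = 1))) := by
    refine Poly.map (F := fun a i => decide (R a / 2 ^ (min i (n a)) % 2 = 1)) hn.range ?_
    have h2 : Poly (fun p : α × ℕ => 2 ^ (min p.2 (n p.1))) :=
      pow_min_poly (hn.comp (Poly.fst Poly.id)) (Poly.snd Poly.id)
    fun_prop
  refine h1.congr fun a => ?_
  unfold msk
  apply List.map_congr_left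
  intro i hi
  rw [List.mem_range] at hi
  rw [min_eq_left hi.le]

theorem mvB_poly {n i j : α → ℕ} {B : α → List Bool} (hn : UPoly n) (hB : Poly B) (hi : Poly i)
    (hj : Poly j) : Poly (fun a => mvB (n a) (B a) (i a) (j a)) := by
  unfold mvB
  refine Poly.map (F := fun a t => if t = i a then false else if t = j a then true
    else (B a).getD t false) hn.range ?_
  fun_prop

variable {n e s : α → ℕ} {isb : α → List Bool → Bool}

theorem stp_poly (hn : UPoly n) (he : UPoly e) (hisb : Poly (fun p : α × List Bool => isb p.1 p.2))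
    {B : α → List Bool} {u : α → ℕ} (hB : Poly B) (hu : Poly u) :
    Poly (fun a => stp (n a) (e a) (isb a) (B a) (u a)) := by
  have h2 : Poly (fun a => 2 ^ e a) := Poly.npow (Poly.const 2) he
  have hi : Poly (fun a => u a % 2 ^ e a) := Poly.mod hu h2
  have hj : Poly (fun a => u a / 2 ^ e a) := Poly.div hu h2
  have hm := mvB_poly hn hB hi hj
  have hn' := hn.toPoly
  have hb : Poly (fun a => isb a (mvB (n a) (B a) (u a % 2 ^ e a) (u a / 2 ^ e a))) :=
    hisb.comp (Poly.pair Poly.id hm)
  unfold stp
  refine Poly.ite ?_ hm hB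
  exact Poly.decide_and (Poly.decide_lt hi hn') (Poly.decide_and (Poly.decide_lt hj hn')
    (Poly.decide_and (Poly.decide_eq (Poly.getD hB hi (Poly.const false)) (Poly.const true))
      (Poly.decide_and (Poly.decide_eq (Poly.getD hB hj (Poly.const false)) (Poly.const false))
        (Poly.decide_bool hb))))

theorem wstp_poly (hn : UPoly n) (he : UPoly e)
    (hisb : Poly (fun p : α × List Bool => isb p.1 p.2)) :
    Poly (fun p : α × (List Bool × List Bool) => wstp (n p.1) (e p.1) (isb p.1) p.2) := by
  have hf : Poly (fun p : α × (List Bool × List Bool) => p.1) := Poly.fst Poly.id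
  have hw : Poly (fun p : α × (List Bool × List Bool) => p.2.2) := Poly.snd (Poly.snd Poly.id)
  have hn2 : UPoly (fun p : α × (List Bool × List Bool) => n p.1) := hn.comp hf
  have he2 : UPoly (fun p : α × (List Bool × List Bool) => e p.1) := he.comp hf
  have he3 : UPoly (fun p : α × (List Bool × List Bool) => 2 * e p.1) := (UPoly.const 2).mul he2
  have htake : Poly (fun p : α × (List Bool × List Bool) => p.2.2.take (2 * e p.1)) :=
    poly_take hw he3.toPoly
  have hdrop : Poly (fun p : α × (List Bool × List Bool) => p.2.2.drop (2 * e p.1)) :=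
    poly_drop hw he3.toPoly
  have hisb2 : Poly (fun q : (α × (List Bool × List Bool)) × List Bool => isb q.1.1 q.2) :=
    hisb.comp (Poly.pair (Poly.fst (Poly.fst Poly.id)) (Poly.snd Poly.id))
  unfold wstp
  refine Poly.pair ?_ hdrop
  exact stp_poly (isb := fun p : α × (List Bool × List Bool) => isb p.1) hn2 he2 hisb2
    (Poly.fst (Poly.snd Poly.id)) (Poly.valBits htake)

theorem stp_or (n e : ℕ) (isb : List Bool → Bool) (B : List Bool) (u : ℕ) :
    stp n e isb B u = B ∨ (stp n e isb B u).length = n := by
  unfold stp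
  split_ifs
  · exact Or.inr (length_mv _ _ _ _)
  · exact Or.inl rfl

theorem wstp_size (n e : ℕ) (isb : List Bool → Bool) (B w : List Bool) (k : ℕ) :
    sz ((wstp n e isb)^[k] (B, w)) ≤ sz B + (4 * n + 1) + sz w + 1 := by
  have key : (((wstp n e isb)^[k] (B, w)).1 = B ∨ (((wstp n e isb)^[k] (B, w)).1).length = n) ∧
      sz ((wstp n e isb)^[k] (B, w)).2 ≤ sz w := by
    induction k with
    | zero => exact ⟨Or.inl rfl, le_rfl⟩
    | succ k ih =>
      rw [Function.iterate_succ_apply']
      generalize (wstp n e isb)^[k] (B, w) = p at ih ⊢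
      obtain ⟨h1, h2⟩ := ih
      unfold wstp
      simp only
      constructor
      · rcases stp_or n e isb p.1 (valB (p.2.take (2 * e))) with h3 | h3
        · rw [h3]; exact h1
        · exact Or.inr h3
      · exact (Poly.sz_drop_le _ _).trans h2
  have h3 : sz ((wstp n e isb)^[k] (B, w)) = sz ((wstp n e isb)^[k] (B, w)).1 +
      sz ((wstp n e isb)^[k] (B, w)).2 + 1 := sz_pair _ _
  rw [h3]
  have h4 : sz ((wstp n e isb)^[k] (B, w)).1 ≤ sz B + (4 * n + 1) := by
    rcases key.1 with h5 | h5
    · rw [h5]; omega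
    · have := sz_le_of_length h5
      omega
  have := key.2
  omega

theorem walk_poly (hn : UPoly n) (he : UPoly e) (hisb : Poly (fun p : α × List Bool => isb p.1 p.2))
    {t : α → ℕ} (ht : UPoly t) {B w : α → List Bool} (hB : Poly B) (hw : Poly w) :
    Poly (fun a => walk (n a) (e a) (isb a) (t a) (B a) (w a)) := by
  obtain ⟨rB, hrB⟩ := hB.sz_le
  obtain ⟨rw', hrw⟩ := hw.sz_le
  obtain ⟨rn, hrn⟩ := UPoly.bd hn
  have h1 : Poly (fun a => (wstp (n a) (e a) (isb a))^[(List.replicate (t a) ()).length]
      (B a, w a)) := by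
    refine Poly.iterLen (F := fun a p => wstp (n a) (e a) (isb a) p) ht (Poly.pair hB hw)
      (wstp_poly hn he hisb) (rB + (Polynomial.C 4 * rn + 1) + rw' + 1) ?_
    intro a k _
    refine (wstp_size _ _ _ _ _ _).trans ?_
    have h1 := hrB a
    have h2 := hrw a
    have h3 := hrn a
    simp only [Polynomial.eval_add, Polynomial.eval_mul, Polynomial.eval_C, Polynomial.eval_one]
    omega
  have h2 := Poly.fst h1
  refine h2.congr fun a => ?_
  rw [List.length_replicate]
  rfl

/-! ### the dynamic program -/

theorem cnt_poly (hn : UPoly n) (he : UPoly e) (h4 : UPoly (fun a => 4 ^ e a))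
    (hisb : Poly (fun p : α × List Bool => isb p.1 p.2)) {B C : α → List Bool} (hB : Poly B)
    (hC : Poly C) : Poly (fun a => cnt (n a) (e a) (isb a) (B a) (C a)) := by
  unfold cnt
  refine Poly.length (Poly.filter (p := fun a u => decide (stp (n a) (e a) (isb a) (B a) u = C a))
    h4.range ?_)
  have hf : Poly (fun p : α × ℕ => p.1) := Poly.fst Poly.id
  refine Poly.decide_eq ?_ (hC.comp hf)
  refine stp_poly (isb := fun p : α × ℕ => isb p.1) (hn.comp hf) (he.comp hf) ?_ (hB.comp hf)
    (Poly.snd Poly.id)
  exact hisb.comp (Poly.pair (Poly.fst (Poly.fst Poly.id)) (Poly.snd Poly.id))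

theorem dpc_poly (hn : UPoly n) (he : UPoly e) (h4 : UPoly (fun a => 4 ^ e a))
    (hisb : Poly (fun p : α × List Bool => isb p.1 p.2)) {L : α → List (List Bool)} (hL : Poly L)
    {v : α → List ℕ} (hv : Poly v) {C : α → List Bool} (hC : Poly C) :
    Poly (fun a => (((L a).zip (v a)).map
      (fun p => cnt (n a) (e a) (isb a) p.1 (C a) * p.2)).sum) := by
  refine Poly.sum ?_
  refine Poly.map (l := fun a => (L a).zip (v a))
    (F := fun (a : α) (p : List Bool × ℕ) => cnt (n a) (e a) (isb a) p.1 (C a) * p.2)
    (Poly.zip hL hv) ?_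
  have hf : Poly (fun p : α × List Bool × ℕ => p.1) := Poly.fst Poly.id
  refine Poly.mul ?_ (Poly.snd (Poly.snd Poly.id))
  refine cnt_poly (isb := fun p : α × List Bool × ℕ => isb p.1) (hn.comp hf)
    (he.comp hf) (h4.comp hf) ?_ (Poly.fst (Poly.snd Poly.id)) (hC.comp hf)
  exact hisb.comp (Poly.pair (Poly.fst (Poly.fst Poly.id)) (Poly.snd Poly.id))

theorem dpF_poly (hn : UPoly n) (he : UPoly e) (h4 : UPoly (fun a => 4 ^ e a))
    (hisb : Poly (fun p : α × List Bool => isb p.1 p.2)) {L : α → List (List Bool)} (hL : Poly L)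
    {v : α → List ℕ} (hv : Poly v) : Poly (fun a => dpF (n a) (e a) (isb a) (L a) (v a)) := by
  have hf : Poly (fun p : α × List Bool => p.1) := Poly.fst Poly.id
  have hn' : UPoly (fun p : α × List Bool => n p.1) := UPoly.comp hn hf
  have he' : UPoly (fun p : α × List Bool => e p.1) := UPoly.comp he hf
  have h4' : UPoly (fun p : α × List Bool => 4 ^ e p.1) :=
    UPoly.comp (n := fun a => 4 ^ e a) (f := fun p : α × List Bool => p.1) h4 hf
  have hi' : Poly (fun p : (α × List Bool) × List Bool => isb p.1.1 p.2) :=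
    hisb.comp (Poly.pair (Poly.fst (Poly.fst Poly.id)) (Poly.snd Poly.id))
  have hL' : Poly (fun p : α × List Bool => L p.1) := hL.comp hf
  have hv' : Poly (fun p : α × List Bool => v p.1) := hv.comp hf
  have hs' : Poly (fun p : α × List Bool => p.2) := Poly.snd Poly.id
  have h1 := dpc_poly (isb := fun p : α × List Bool => isb p.1) hn' he' h4' hi' hL' hv' hs'
  have h2 : Poly (fun a => (L a).map ((fun (a : α) (C : List Bool) => (((L a).zip (v a)).map
    (fun q => cnt (n a) (e a) (isb a) q.1 C * q.2)).sum) a)) := Poly.map hL h1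
  exact h2.congr fun a => rfl

theorem cnt_le (n e : ℕ) (isb : List Bool → Bool) (B C : List Bool) :
    cnt n e isb B C ≤ 4 ^ e := by
  unfold cnt
  refine (List.length_filter_le _ _).trans ?_
  rw [List.length_range]

theorem dp_le (n e : ℕ) (isb : List Bool → Bool) (L : List (List Bool)) (B₀ : List Bool) (k : ℕ) :
    ∀ x ∈ (dpF n e isb L)^[k] (dp0 L B₀), x ≤ (L.length * 4 ^ e) ^ k := by
  induction k with
  | zero =>
    intro x hx
    rw [Function.iterate_zero, id_eq] at hx
    unfold dp0 at hx
    obtain ⟨C, _, rfl⟩ := List.mem_map.1 hx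
    rw [pow_zero]
    split_ifs <;> omega
  | succ k ih =>
    intro x hx
    rw [Function.iterate_succ_apply'] at hx
    generalize (dpF n e isb L)^[k] (dp0 L B₀) = v at ih hx
    unfold dpF at hx
    obtain ⟨C, _, rfl⟩ := List.mem_map.1 hx
    refine (List.sum_le_card_nsmul _ (4 ^ e * (L.length * 4 ^ e) ^ k) ?_).trans ?_
    · intro y hy
      obtain ⟨p, hp, rfl⟩ := List.mem_map.1 hy
      have h1 := List.of_mem_zip (show (p.1, p.2) ∈ L.zip v from hp)
      exact Nat.mul_le_mul (cnt_le _ _ _ _ _) (ih _ h1.2)
    · rw [smul_eq_mul, List.length_map, List.length_zip, pow_succ]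
      calc min L.length v.length * (4 ^ e * (L.length * 4 ^ e) ^ k) ≤
            L.length * (4 ^ e * (L.length * 4 ^ e) ^ k) :=
            Nat.mul_le_mul_right _ (min_le_left _ _)
        _ = _ := by ring

theorem dp_length (n e : ℕ) (isb : List Bool → Bool) (L : List (List Bool)) (B₀ : List Bool)
    (k : ℕ) : ((dpF n e isb L)^[k] (dp0 L B₀)).length = L.length := by
  cases k with
  | zero => simp [dp0]
  | succ k => rw [Function.iterate_succ_apply']; simp [dpF]

theorem dp_size (n e : ℕ) (isb : List Bool → Bool) (L : List (List Bool)) (B₀ : List Bool)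
    (k : ℕ) : sz ((dpF n e isb L)^[k] (dp0 L B₀)) ≤
      L.length * (4 * ((L.length + 2 * e) * k + 1) + 2) + 1 := by
  have h1 := sz_le_length_mul ((dpF n e isb L)^[k] (dp0 L B₀))
    (4 * ((L.length + 2 * e) * k + 1) + 1) (by
      intro x hx
      have h2 := dp_le n e isb L B₀ k x hx
      have h3 : x < 2 ^ ((L.length + 2 * e) * k + 1) := by
        have h4 : L.length * 4 ^ e ≤ 2 ^ (L.length + 2 * e) := by
          rw [pow_add, pow_mul 2 2 e]
          exact Nat.mul_le_mul Nat.lt_two_pow_self.le (by norm_num)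
        calc x ≤ (L.length * 4 ^ e) ^ k := h2
          _ ≤ (2 ^ (L.length + 2 * e)) ^ k := Nat.pow_le_pow_left h4 _
          _ = 2 ^ ((L.length + 2 * e) * k) := by rw [← pow_mul]
          _ < _ := Nat.pow_lt_pow_right (by norm_num) (by omega)
      have h5 := Nat.size_le.2 h3
      have h6 := sz_nat_le x
      omega)
  rw [dp_length] at h1
  exact h1

theorem dp_poly (hn : UPoly n) (he : UPoly e) (h4 : UPoly (fun a => 4 ^ e a))
    (hisb : Poly (fun p : α × List Bool => isb p.1 p.2)) {L : α → List (List Bool)} (hL : Poly L)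
    {B : α → List Bool} (hB : Poly B) {t : α → ℕ} (ht : UPoly t) :
    Poly (fun a => (dpF (n a) (e a) (isb a) (L a))^[t a] (dp0 (L a) (B a))) := by
  obtain ⟨rL, hrL⟩ := UPoly.bd (UPoly.length hL)
  obtain ⟨re, hre⟩ := UPoly.bd he
  obtain ⟨rt, hrt⟩ := UPoly.bd ht
  have h0 : Poly (fun a => dp0 (L a) (B a)) := by
    unfold dp0
    refine Poly.map (F := fun a C => if C = B a then 1 else 0) hL ?_
    fun_prop
  have h1 : Poly (fun a => (dpF (n a) (e a) (isb a) (L a))^[(List.replicate (t a) ()).length]
      (dp0 (L a) (B a))) := by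
    refine Poly.iterLen (F := fun a v => dpF (n a) (e a) (isb a) (L a) v) ht h0 ?_
      (rL * (Polynomial.C 4 * ((rL + Polynomial.C 2 * re) * rt + 1) + Polynomial.C 2) + 1) ?_
    · have hf : Poly (fun p : α × List ℕ => p.1) := Poly.fst Poly.id
      refine dpF_poly (isb := fun p : α × List ℕ => isb p.1) (hn.comp hf) (he.comp hf) (h4.comp hf)
        ?_ (hL.comp hf) (Poly.snd Poly.id)
      exact hisb.comp (Poly.pair (Poly.fst (Poly.fst Poly.id)) (Poly.snd Poly.id))
    · intro a k hk
      rw [List.length_replicate] at hk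
      refine (dp_size _ _ _ _ _ _).trans ?_
      have h1 := hrL a
      have h2 := hre a
      have h3 := hk.trans (hrt a)
      simp only [Polynomial.eval_add, Polynomial.eval_mul, Polynomial.eval_C, Polynomial.eval_one]
      gcongr
  exact h1.congr fun a => by rw [List.length_replicate]

/-! ### the weighted choice -/

/-- one step of the choice -/
def pkF (st : Option (List Bool) × ℕ) (p : List Bool × ℕ) : Option (List Bool) × ℕ :=
  if st.1.isSome = true then st else if st.2 < p.2 then (some p.1, st.2) else (none, st.2 - p.2)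

theorem pkF_some (l : List (List Bool × ℕ)) (C : List Bool) (z : ℕ) :
    l.foldl pkF (some C, z) = (some C, z) := by
  induction l with
  | nil => rfl
  | cons a l ih => rw [List.foldl_cons]; simp only [pkF, Option.isSome_some, if_true]; exact ih

theorem pick_eq (l : List (List Bool × ℕ)) : ∀ z : ℕ, pick l z = (l.foldl pkF (none, z)).1 := by
  induction l with
  | nil => intro z; rfl
  | cons a l ih =>
    intro z
    rw [pick, List.foldl_cons]
    simp only [pkF, Option.isSome_none, Bool.false_eq_true, if_false]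
    split_ifs with h
    · rw [pkF_some]
    · exact ih _

theorem pkF_size (l : List (List Bool × ℕ)) : ∀ (z : ℕ) (k : ℕ),
    sz ((l.take k).foldl pkF (none, z)) ≤ sz l + 2 * sz z + 10 := by
  have key : ∀ (l : List (List Bool × ℕ)) (z : ℕ),
      (((l.foldl pkF (none, z)).1 = none ∨ ∃ C w, (l.foldl pkF (none, z)).1 = some C ∧
        (C, w) ∈ l)) ∧ (l.foldl pkF (none, z)).2 ≤ z := by
    intro l
    induction l with
    | nil => intro z; exact ⟨Or.inl rfl, le_rfl⟩
    | cons a l ih =>
      intro z
      rw [List.foldl_cons]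
      simp only [pkF, Option.isSome_none, Bool.false_eq_true, if_false]
      split_ifs with h
      · rw [pkF_some]
        exact ⟨Or.inr ⟨a.1, a.2, rfl, List.mem_cons_self⟩, le_rfl⟩
      · obtain ⟨h1, h2⟩ := ih (z - a.2)
        refine ⟨?_, h2.trans (Nat.sub_le _ _)⟩
        rcases h1 with h1 | ⟨C, w, h1, h3⟩
        · exact Or.inl h1
        · exact Or.inr ⟨C, w, h1, List.mem_cons_of_mem _ h3⟩
  intro z k
  obtain ⟨h1, h2⟩ := key (l.take k) z
  have h3 : sz ((l.take k).foldl pkF (none, z)) = sz ((l.take k).foldl pkF (none, z)).1 +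
      sz ((l.take k).foldl pkF (none, z)).2 + 1 := sz_pair _ _
  rw [h3]
  have h4 := sz_nat_mono_le h2
  rcases h1 with h1 | ⟨C, w, h1, h5⟩
  · rw [h1, sz_none]
    omega
  · rw [h1, sz_some]
    have h6 := sz_le_of_mem (List.mem_of_mem_take h5)
    rw [sz_pair] at h6
    omega

theorem pkF_poly : Poly (fun q : (Option (List Bool) × ℕ) × (List Bool × ℕ) => pkF q.1 q.2) := by
  have h1 : Poly (fun q : (Option (List Bool) × ℕ) × (List Bool × ℕ) => q.1) := Poly.fst Poly.id
  have h2 : Poly (fun q : (Option (List Bool) × ℕ) × (List Bool × ℕ) => q.2) := Poly.snd Poly.id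
  unfold pkF
  refine Poly.ite (Poly.decide_bool (Poly.isSome (Poly.fst h1))) h1 ?_
  refine Poly.ite (Poly.decide_lt (Poly.snd h1) (Poly.snd h2))
    (Poly.pair (Poly.some (Poly.fst h2)) (Poly.snd h1)) ?_
  exact Poly.pair (Poly.const none) (Poly.sub (Poly.snd h1) (Poly.snd h2))

theorem pick_poly {l : α → List (List Bool × ℕ)} {z : α → ℕ} (hl : Poly l) (hz : Poly z) :
    Poly (fun a => pick (l a) (z a)) := by
  obtain ⟨rl, hrl⟩ := hl.sz_le
  obtain ⟨rz, hrz⟩ := hz.sz_le
  have h1 : Poly (fun a => (l a).foldl pkF (none, z a)) := by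
    refine Poly.foldl (F := fun _ st p => pkF st p) hl (Poly.pair (Poly.const none) hz)
      (pkF_poly.comp (Poly.snd Poly.id)) (rl + Polynomial.C 2 * rz + Polynomial.C 10) ?_
    intro a k _
    refine (pkF_size _ _ _).trans ?_
    have h1 := hrl a
    have h2 := hrz a
    simp only [Polynomial.eval_add, Polynomial.eval_mul, Polynomial.eval_C]
    omega
  exact (Poly.fst h1).congr fun a => (pick_eq _ _).symm

/-! ### the two stages -/

theorem TT_poly (hn : UPoly n) (hs : UPoly s) (h4 : UPoly (fun a => 4 ^ e a)) :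
    UPoly (fun a => TT (n a) (e a) (s a)) := by
  unfold TT
  exact h4.mul ((UPoly.const 2).mul (hn.add hs))

theorem Lk_poly (hn : UPoly n) (hisb : Poly (fun p : α × List Bool => isb p.1 p.2)) {k : α → ℕ}
    (hk : UPoly k) : Poly (fun a => Lk (n a) (isb a) (k a)) := by
  unfold Lk
  have h2 : Poly (fun a => 2 ^ n a) := Poly.npow (Poly.const 2) hn
  refine Poly.filter (p := fun a B => isb a B) ?_ hisb
  refine Poly.map (F := fun a R => msk (n a) R) ?_
    (msk_poly (hn.comp (Poly.fst Poly.id)) (Poly.snd Poly.id))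
  exact Poly.filter (p := fun a R => decide (R < 2 ^ n a)) hk.range
    (Poly.decide_lt (Poly.snd Poly.id) (h2.comp (Poly.fst Poly.id)))

theorem stA_poly (hn : UPoly n) (he : UPoly e) (hs : UPoly s) (h4 : UPoly (fun a => 4 ^ e a))
    (hisb : Poly (fun p : α × List Bool => isb p.1 p.2)) {B r : α → List Bool} (hB : Poly B)
    (hr : Poly r) {out : α → List Bool → List Bool}
    (hout : Poly (fun p : α × List Bool => out p.1 p.2)) :
    Poly (fun a => stA (n a) (e a) (s a) (isb a) (B a) (out a) (r a)) := by
  unfold stA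
  refine Poly.ite (Poly.decide_bool ?_) (Poly.some (hout.comp (Poly.pair Poly.id ?_)))
    (Poly.const none)
  · exact Poly.any (p := fun _ b => b) (poly_take hr hs.toPoly) (Poly.snd Poly.id)
  · exact walk_poly hn he hisb (TT_poly hn hs h4) hB (poly_drop hr hs.toPoly)

theorem stB_poly (hn : UPoly n) (he : UPoly e) (hs : UPoly s) (h4 : UPoly (fun a => 4 ^ e a))
    (hisb : Poly (fun p : α × List Bool => isb p.1 p.2)) {B r : α → List Bool} (hB : Poly B)
    (hr : Poly r) {L : α → List (List Bool)} (hL : Poly L) {out : α → List Bool → List Bool}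
    (hout : Poly (fun p : α × List Bool => out p.1 p.2)) :
    Poly (fun a => stB (n a) (e a) (s a) (isb a) (B a) (out a) (L a) (r a)) := by
  have hT := TT_poly hn hs h4
  have hMt : Poly (fun a => (4 ^ e a) ^ TT (n a) (e a) (s a)) := Poly.npow h4.toPoly hT
  have hS : Poly (fun a => (L a).length * (4 ^ e a) ^ TT (n a) (e a) (s a)) :=
    Poly.mul (Poly.length hL) hMt
  have hpr : Poly (fun a => 2 ^ (r a).length) := Poly.npow (Poly.const 2) (UPoly.length hr)
  have h2s : Poly (fun a => 2 ^ s a) := Poly.npow (Poly.const 2) hs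
  have hv := Poly.valBits hr
  have hdp := dp_poly hn he h4 hisb hL hB hT
  have hw : Poly (fun a => ((dpF (n a) (e a) (isb a) (L a))^[TT (n a) (e a) (s a)]
      (dp0 (L a) (B a))).map (wgt (s a) (L a).length ((4 ^ e a) ^ TT (n a) (e a) (s a)))) := by
    refine Poly.map (F := fun a v => wgt (s a) (L a).length ((4 ^ e a) ^ TT (n a) (e a) (s a)) v)
      hdp ?_
    have hf : Poly (fun p : α × ℕ => p.1) := Poly.fst Poly.id
    have a1 := h2s.comp hf
    have a2 := hMt.comp hf
    have a3 := (Poly.length hL).comp hf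
    have a4 : Poly (fun p : α × ℕ => p.2) := Poly.snd Poly.id
    unfold wgt
    exact Poly.sub (Poly.mul a1 a2) (Poly.mul (Poly.sub a1 (Poly.const 1)) (Poly.mul a4 a3))
  unfold stB
  refine Poly.ite (Poly.decide_lt hv (Poly.mul (Poly.div hpr hS) hS)) ?_ (Poly.const none)
  exact Poly.optMap (pick_poly (Poly.zip hL hw) (Poly.mod hv hS)) hout

/-- the string of a round -/
def roundS (n e s : ℕ) (isb : List Bool → Bool) (B₀ : List Bool) (out : List Bool → List Bool)
    (x' r : List Bool) : List Bool :=
  if r.length = s + 2 * e * TT n e s then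
    (stA n e s isb B₀ out r).elim (false :: head (2 * (s + 2 * e * TT n e s)) x')
      (fun y => true :: y)
  else if r.length < 2 ^ n then false :: head (2 * r.length) x'
  else (stB n e s isb B₀ out (Lk n isb r.length) r).elim (false :: head r.length x')
    (fun y => true :: y)

theorem roundS_eq (n e s : ℕ) (isb : List Bool → Bool) (B₀ : List Bool)
    (out : List Bool → List Bool) (x' r : List Bool) :
    roundS n e s isb B₀ out x' r = resS x' (rnd (s + 2 * e * TT n e s) (2 ^ n)
      (stA n e s isb B₀ out) (fun r => stB n e s isb B₀ out (Lk n isb r.length) r) r) := by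
  unfold roundS rnd
  split_ifs with h1 h2
  · cases stA n e s isb B₀ out r <;> rfl
  · rfl
  · simp only
    cases stB n e s isb B₀ out (Lk n isb r.length) r <;> rfl

theorem roundS_poly (hn : UPoly n) (he : UPoly e) (hs : UPoly s) (h4 : UPoly (fun a => 4 ^ e a))
    (hisb : Poly (fun p : α × List Bool => isb p.1 p.2)) {B x' r : α → List Bool} (hB : Poly B)
    (hx : Poly x') (hr : Poly r) {out : α → List Bool → List Bool}
    (hout : Poly (fun p : α × List Bool => out p.1 p.2)) :
    Poly (fun a => roundS (n a) (e a) (s a) (isb a) (B a) (out a) (x' a) (r a)) := by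
  have hT := TT_poly hn hs h4
  have hk : UPoly (fun a => s a + 2 * e a * TT (n a) (e a) (s a)) :=
    hs.add (((UPoly.const 2).mul he).mul hT)
  have hrl : UPoly (fun a => (r a).length) := UPoly.length hr
  have h2 : Poly (fun a => 2 ^ n a) := Poly.npow (Poly.const 2) hn
  unfold roundS
  refine Poly.ite (Poly.decide_eq hrl.toPoly hk.toPoly) ?_ (Poly.ite (Poly.decide_lt hrl.toPoly h2)
    ?_ ?_)
  · exact Poly.optElim (h := fun _ y => true :: y) (stA_poly hn he hs h4 hisb hB hr hout)
      (Poly.cons (Poly.const false) (head_poly ((UPoly.const 2).mul hk) hx))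
      (Poly.cons (Poly.const true) (Poly.snd Poly.id))
  · exact Poly.cons (Poly.const false) (head_poly ((UPoly.const 2).mul hrl) hx)
  · exact Poly.optElim (h := fun _ y => true :: y)
      (stB_poly hn he hs h4 hisb hB hr (Lk_poly hn hisb hrl) hout)
      (Poly.cons (Poly.const false) (head_poly hrl hx))
      (Poly.cons (Poly.const true) (Poly.snd Poly.id))

end

end Pool.Agent.NPC.Q226SS
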