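import Pool.Agent.NPC.Defs
import Pool.Agent.H591R2.Defs

set_option autoImplicit false

/-!
# Definitions: simplicial complexes, their spanning trees, output probabilities
-/

namespace Pool.Agent.Q226.SS

open Pool.Agent.H591R2 Pool.Agent.NPC

/-- The probability that the coin-tossing machine `M`, on the input `x`, halts with output `y`: the
sum over all `i` of the probability (over `i` fair coin tosses) that the machine halts after
exactly `i` steps with output `y`. -/
noncomputable def outProb (M : CoinMachine) (x y : List Bool) : ENNReal :=
  ∑' i : ℕ, ({w : List Bool | w.length = i ∧ M.HaltsWith x w y}.ncard : ENNReal) / 2 ^ i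

/-- `F` is the list (without repetitions) of all nonempty faces of a finite simplicial complex; a
face is the increasing list of its vertices, and vertices are natural numbers. -/
structure IsComplex (F : List (List ℕ)) : Prop where
  nodup : F.Nodup
  incr : ∀ s ∈ F, s.Pairwise (· < ·)
  ne_nil : ∀ s ∈ F, s ≠ []
  down : ∀ s ∈ F, ∀ t : List ℕ, t.Sublist s → t ≠ [] → t ∈ F

/-- The complex has dimension `d`. -/
structure HasDim (F : List (List ℕ)) (d : ℕ) : Prop where
  le : ∀ s ∈ F, s.length ≤ d + 1
  ex : ∃ s ∈ F, s.length = d + 1

/-- The coefficient of the face `t` in the boundary of the face `s`: the boundary of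
`[v_0, ..., v_d]` is the sum of `(-1)^i [v_0, ..., v_{i-1}, v_{i+1}, ..., v_d]`. -/
def bdry (s t : List ℕ) : ℤ :=
  ∑ i ∈ Finset.range s.length, if s.eraseIdx i = t then (-1) ^ i else 0

/-- The column of the boundary map `∂_d` that belongs to the face `s`, as a vector with one
coordinate for every face of dimension `d - 1`. -/
def col (F : List (List ℕ)) (d : ℕ) (s : List ℕ) : {t // t ∈ F ∧ t.length = d} → ℚ :=
  fun t => (bdry s t.1 : ℚ)

/-- `Y` (a sublist of the list `F` of faces, that is a set of faces listed in the order of `F`) is
a `d`-dimensional spanning tree of the complex `F`: it contains all faces of dimension less than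
`d`, and the columns of `∂_d` that belong to its `d`-faces are a basis of the column space. -/
structure IsTree (F : List (List ℕ)) (d : ℕ) (Y : List (List ℕ)) : Prop where
  sub : Y.Sublist F
  skel : ∀ s ∈ F, s.length ≤ d → s ∈ Y
  indep : LinearIndepOn ℚ (col F d) {s | s ∈ Y ∧ s.length = d + 1}
  span : Submodule.span ℚ (col F d '' {s | s ∈ Y ∧ s.length = d + 1}) =
    Submodule.span ℚ (col F d '' {s | s ∈ F ∧ s.length = d + 1})

end Pool.Agent.Q226.SS
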