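import Pool.Agent.Q226.SS.Chain

set_option autoImplicit false

/-!
# The matroid of a finite family of vectors
-/

namespace Pool.Agent.Q226.SS

open Finset Module Submodule

section

variable {V : Type} [AddCommGroup V] [Module ℚ V] (v : ℕ → V) (n : ℕ)

/-- `S` indexes a maximal linearly independent subfamily of `v 0, ..., v (n - 1)` -/
def MaxInd (S : Finset ℕ) : Prop :=
  S ⊆ range n ∧ LinearIndepOn ℚ v (S : Set ℕ) ∧
    ∀ j < n, j ∉ S → ¬ LinearIndepOn ℚ v (insert j (S : Set ℕ))

/-- the span of all vectors -/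
def SW : Submodule ℚ V := span ℚ (v '' (range n : Finset ℕ))

variable {v n}

theorem SW_fin : FiniteDimensional ℚ (SW v n) :=
  FiniteDimensional.span_of_finite ℚ ((range n).finite_toSet.image v)

theorem MaxInd.span_eq {S : Finset ℕ} (h : MaxInd v n S) :
    span ℚ (v '' (S : Set ℕ)) = SW v n := by
  apply le_antisymm
  · exact span_mono (Set.image_mono (by exact_mod_cast h.1))
  · unfold SW
    rw [span_le]
    rintro _ ⟨j, hj, rfl⟩
    have hj' : j < n := by simpa using hj
    by_cases hjS : j ∈ S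
    · exact subset_span ⟨j, hjS, rfl⟩
    · have h1 := h.2.2 j hj' hjS
      rw [linearIndepOn_insert (by exact_mod_cast hjS)] at h1
      by_contra h2
      exact h1 ⟨h.2.1, h2⟩

theorem finrank_span_indep {S : Finset ℕ} (h : LinearIndepOn ℚ v (S : Set ℕ)) :
    finrank ℚ (span ℚ (v '' (S : Set ℕ))) = S.card := by
  have h1 := finrank_span_eq_card (R := ℚ) (b := fun i : (S : Set ℕ) => v i) h
  have h2 : Set.range (fun i : (S : Set ℕ) => v i) = v '' (S : Set ℕ) := by
    ext x
    simp
  rw [h2] at h1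
  rw [h1]
  simp

theorem MaxInd.card {S : Finset ℕ} (h : MaxInd v n S) : S.card = finrank ℚ (SW v n) := by
  rw [← h.span_eq, finrank_span_indep h.2.1]

theorem maxInd_of_card {S : Finset ℕ} (hS : S ⊆ range n) (h : LinearIndepOn ℚ v (S : Set ℕ))
    (hc : S.card = finrank ℚ (SW v n)) : MaxInd v n S := by
  refine ⟨hS, h, fun j hj hjS h2 => ?_⟩
  have h3 : LinearIndepOn ℚ v ((insert j S : Finset ℕ) : Set ℕ) := by
    rw [Finset.coe_insert]; exact h2
  have h4 := finrank_span_indep h3
  rw [card_insert_of_notMem hjS, hc] at h4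
  have hle : span ℚ (v '' ((insert j S : Finset ℕ) : Set ℕ)) ≤ SW v n := by
    apply span_mono
    apply Set.image_mono
    exact_mod_cast insert_subset (mem_range.2 hj) hS
  haveI := SW_fin (v := v) (n := n)
  have h5 := finrank_mono hle
  omega

theorem MaxInd.exch {A B : Finset ℕ} (hA : MaxInd v n A) (hB : MaxInd v n B) {a : ℕ}
    (ha : a ∈ A \ B) : ∃ b ∈ B \ A, MaxInd v n (insert b (A.erase a)) := by
  rw [mem_sdiff] at ha
  have hAe : LinearIndepOn ℚ v ((A.erase a : Finset ℕ) : Set ℕ) :=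
    hA.2.1.mono (by exact_mod_cast erase_subset _ _)
  haveI := SW_fin (v := v) (n := n)
  have hle : span ℚ (v '' ((A.erase a : Finset ℕ) : Set ℕ)) ≤ SW v n := by
    apply span_mono
    apply Set.image_mono
    exact_mod_cast (erase_subset _ _).trans hA.1
  obtain ⟨b, hbB, hb⟩ : ∃ b ∈ B, v b ∉ span ℚ (v '' ((A.erase a : Finset ℕ) : Set ℕ)) := by
    by_contra hcon
    push Not at hcon
    have h1 : SW v n ≤ span ℚ (v '' ((A.erase a : Finset ℕ) : Set ℕ)) := by
      rw [← hB.span_eq, span_le]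
      rintro _ ⟨b, hb, rfl⟩
      exact hcon b hb
    have h2 := le_antisymm hle h1
    have h3 := finrank_span_indep hAe
    rw [h2, ← hA.card, card_erase_of_mem ha.1] at h3
    have := card_pos.2 ⟨a, ha.1⟩
    omega
  have hbA : b ∉ A := by
    intro h1
    apply hb
    apply subset_span
    refine ⟨b, ?_, rfl⟩
    have : b ≠ a := fun h2 => ha.2 (h2 ▸ hbB)
    exact_mod_cast mem_erase.2 ⟨this, h1⟩
  refine ⟨b, mem_sdiff.2 ⟨hbB, hbA⟩, ?_⟩
  have hbe : b ∉ A.erase a := fun h => hbA (mem_of_mem_erase h)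
  apply maxInd_of_card
  · exact insert_subset (hB.1 hbB) ((erase_subset _ _).trans hA.1)
  · rw [Finset.coe_insert, linearIndepOn_insert (by exact_mod_cast hbe)]
    exact ⟨hAe, hb⟩
  · rw [card_insert_of_notMem hbe, card_erase_of_mem ha.1, ← hA.card]
    have := card_pos.2 ⟨a, ha.1⟩
    omega

theorem isMat_of {isb : List Bool → Bool}
    (h : ∀ B : List Bool, B.length = n → (isb B = true ↔ MaxInd v n (supp n B))) :
    IsMat n isb (finrank ℚ (SW v n)) where
  card := by
    intro B hB
    rw [mem_Om] at hB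
    exact ((h B hB.1).1 hB.2).card
  exch := by
    intro A hA B hB a ha
    rw [mem_image] at hA hB
    obtain ⟨A', hA', rfl⟩ := hA
    obtain ⟨B', hB', rfl⟩ := hB
    rw [mem_Om] at hA' hB'
    have h1 := (h A' hA'.1).1 hA'.2
    have h2 := (h B' hB'.1).1 hB'.2
    obtain ⟨b, hb, h3⟩ := h1.exch h2 ha
    refine ⟨b, hb, ?_⟩
    rw [mem_image]
    rw [mem_sdiff] at ha hb
    have hbn : b < n := mem_range.1 (h2.1 hb.1)
    have hab : a ≠ b := by
      rintro rfl
      exact hb.2 ha.1
    refine ⟨mvB n A' a b, ?_, supp_mv hbn hab⟩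
    rw [mem_Om]
    refine ⟨length_mv _ _ _ _, ?_⟩
    rw [h _ (length_mv _ _ _ _), supp_mv hbn hab]
    exact h3

end

end Pool.Agent.Q226.SS
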