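import Pool.Agent.Q226.SS.Ind
import Pool.Agent.Q226.SS.Lin
import Pool.Agent.Q226.SS.Defs
import Pool.Agent.H442R3.MPar.Ker
import Pool.Agent.H442R3.SP.Alg

set_option autoImplicit false

/-!
# The algorithm for simplicial complexes: definitions and correctness
-/

namespace Pool.Agent.Q226.SS

open Finset Module Submodule Pool.Agent.H442R3.MPar Pool.Agent.H442R3.SP

/-! ### the lists -/

/-- the faces of maximal dimension -/
def tops (F : List (List ℕ)) : List (List ℕ) :=
  F.filter (fun s => F.all (fun t => decide (t.length ≤ s.length)))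

/-- the faces of dimension one less -/
def rws (F : List (List ℕ)) : List (List ℕ) :=
  F.filter (fun t => (tops F).any (fun s => decide (s.length = t.length + 1)))

/-- number of faces of maximal dimension -/
def nF (F : List (List ℕ)) : ℕ := (tops F).length

/-- coefficients, positive part -/
def cE (s t : List ℕ) : ℕ :=
  ((List.range s.length).filter
    (fun i => decide (i % 2 = 0) && decide (s.take i ++ s.drop (i + 1) = t))).length

/-- coefficients, negative part -/
def cO (s t : List ℕ) : ℕ :=
  ((List.range s.length).filter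
    (fun i => decide (i % 2 = 1) && decide (s.take i ++ s.drop (i + 1) = t))).length

theorem card_filter_range (n : ℕ) (P : ℕ → Prop) [DecidablePred P] :
    ((List.range n).filter (fun i => decide (P i))).length = ∑ i ∈ range n, if P i then 1 else 0 := by
  rw [← Finset.card_filter]
  have h1 := List.toFinset_card_of_nodup ((List.nodup_range (n := n)).filter (fun i => decide (P i)))
  rw [← h1, List.toFinset_filter]
  congr 1
  ext i
  simp

theorem bdry_eq (s t : List ℕ) : bdry s t = (cE s t : ℤ) - cO s t := by
  have h1 : cE s t = ∑ i ∈ range s.length, if (i % 2 = 0 ∧ s.eraseIdx i = t) then 1 else 0 := by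
    rw [← card_filter_range, cE]
    congr 2
    funext i
    rw [Bool.decide_and, List.eraseIdx_eq_take_drop_succ]
  have h2 : cO s t = ∑ i ∈ range s.length, if (i % 2 = 1 ∧ s.eraseIdx i = t) then 1 else 0 := by
    rw [← card_filter_range, cO]
    congr 2
    funext i
    rw [Bool.decide_and, List.eraseIdx_eq_take_drop_succ]
  rw [h1, h2, bdry]
  push_cast
  rw [← Finset.sum_sub_distrib]
  apply Finset.sum_congr rfl
  intro i _
  by_cases h : s.eraseIdx i = t
  · rcases Nat.mod_two_eq_zero_or_one i with h3 | h3
    · have : Even i := Nat.even_iff.2 h3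
      simp [h, h3, this.neg_one_pow]
    · have : Odd i := Nat.odd_iff.2 h3
      simp [h, h3, this.neg_one_pow]
  · simp [h]

theorem eraseIdx_inj {s : List ℕ} (hs : s.Nodup) {i j : ℕ} (hi : i < s.length)
    (h : s.eraseIdx i = s.eraseIdx j) : i = j := by
  by_contra hne
  have h1 : s[i] ∉ s.eraseIdx i := by
    intro hm
    rw [List.mem_eraseIdx_iff_getElem] at hm
    obtain ⟨k, hk, hki, he⟩ := hm
    exact hki ((List.Nodup.getElem_inj_iff hs).1 he)
  have h2 : s[i] ∈ s.eraseIdx j := by
    rw [List.mem_eraseIdx_iff_getElem]
    exact ⟨i, hi, hne, rfl⟩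
  rw [h] at h1
  exact h1 h2

theorem bdry_abs {s : List ℕ} (hs : s.Nodup) (t : List ℕ) : |bdry s t| ≤ 1 := by
  unfold bdry
  refine (Finset.abs_sum_le_sum_abs _ _).trans ?_
  have h1 : ∀ i ∈ range s.length, |if s.eraseIdx i = t then (-1 : ℤ) ^ i else 0| =
      if s.eraseIdx i = t then 1 else 0 := by
    intro i _
    split_ifs
    · rw [abs_pow, abs_neg, abs_one, one_pow]
    · exact abs_zero
  rw [Finset.sum_congr rfl h1, ← Finset.sum_filter, Finset.sum_const]
  have h2 : ((range s.length).filter (fun i => s.eraseIdx i = t)).card ≤ 1 := by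
    rw [Finset.card_le_one]
    intro i hi j hj
    rw [mem_filter, mem_range] at hi hj
    exact eraseIdx_inj hs hi.1 (hi.2.trans hj.2.symm)
  simp only [mul_one, nsmul_eq_mul]
  exact_mod_cast h2

/-- entries modulo `p` -/
def bmod (p : ℕ) (s t : List ℕ) : ℕ := cE s t + (p - cO s t % p)

theorem bmod_cast {p : ℕ} [hp : Fact p.Prime] (s t : List ℕ) :
    ((bmod p s t : ℕ) : ZMod p) = ((bdry s t : ℤ) : ZMod p) := by
  have h1 : cO s t % p ≤ p := (Nat.mod_lt _ hp.out.pos).le
  rw [bmod, bdry_eq, Nat.cast_add, Nat.cast_sub h1, ZMod.natCast_mod, ZMod.natCast_self]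
  push_cast
  ring

/-- rows of the system -/
def rowsP (p : ℕ) (F : List (List ℕ)) (B : List Bool) : List (List ℕ) :=
  (rws F).map (fun t => (tops F).map (fun s => bmod p s t)) ++
    (List.range (nF F)).map (fun k => (List.range (nF F)).map
      (fun j => if k = j ∧ B.getD j false = false then 1 else 0))

/-- independence modulo `p` -/
def indp (p : ℕ) (F : List (List ℕ)) (B : List Bool) : Bool :=
  isP p && decide ((kerL p (List.range (nF F)) (rowsP p F B)).length = 0)

/-- independence -/
def ind (F : List (List ℕ)) (B : List Bool) : Bool :=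
  (List.range (tq F.length + 1)).any (fun p0 => indp (min p0 (tq F.length) + 1) F B)

/-- add an element -/
def setT (n : ℕ) (B : List Bool) (j : ℕ) : List Bool :=
  (List.range n).map (fun i => decide (i = j) || B.getD i false)

/-- test for bases -/
def isB (F : List (List ℕ)) (B : List Bool) : Bool :=
  ind F B && (List.range (nF F)).all (fun j => B.getD j false || !(ind F (setT (nF F) B j)))

/-- greedy basis -/
def iniB (F : List (List ℕ)) : List Bool :=
  (List.range (nF F)).foldl (fun B j => bif ind F (setT (nF F) B j) then setT (nF F) B j else B)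
    (List.replicate (nF F) false)

/-- the spanning tree of a mask -/
def treeOf (F : List (List ℕ)) (B : List Bool) : List (List ℕ) :=
  F.filter (fun s => !((tops F).any (fun t => decide (t = s))) ||
    ((tops F).zip B).any (fun q => decide (q.1 = s) && q.2))

/-! ### kernels -/

/-- the kernel is trivial -/
def KTriv (K : Type) [Field K] (F : List (List ℕ)) (B : List Bool) : Prop :=
  ∀ y : Fin (nF F) → K, (∀ t ∈ rws F, ∑ j : Fin (nF F), (bdry ((tops F).getD j []) t : K) * y j = 0) →
    (∀ k : Fin (nF F), B.getD k false = false → y k = 0) → y = 0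

/-- the integer matrix -/
def matF (F : List (List ℕ)) (B : List Bool) :
    Matrix (Fin ((rws F).length + nF F)) (Fin (nF F)) ℤ :=
  Fin.append (fun i j => bdry ((tops F).getD j []) ((rws F).getD i []))
    (fun k j => if k = j ∧ B.getD j false = false then 1 else 0)

theorem forall_fin_add {m n : ℕ} (P : Fin (m + n) → Prop) :
    (∀ i, P i) ↔ (∀ i, P (Fin.castAdd n i)) ∧ (∀ i, P (Fin.natAdd m i)) :=
  ⟨fun h => ⟨fun _ => h _, fun _ => h _⟩, fun h i => Fin.addCases h.1 h.2 i⟩

theorem TK_iff (K : Type) [Field K] (F : List (List ℕ)) (B : List Bool) :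
    TK K (matF F B) ↔ KTriv K F B := by
  unfold TK KTriv
  apply forall_congr'
  intro y
  rw [← and_imp]
  apply imp_congr _ Iff.rfl
  rw [forall_fin_add]
  apply and_congr
  · constructor
    · intro h t ht
      obtain ⟨i, hi, rfl⟩ := List.getElem_of_mem ht
      have := h ⟨i, hi⟩
      rw [matF] at this
      simp only [Fin.append_left] at this
      rw [List.getD_eq_getElem _ _ hi] at this
      exact this
    · intro h i
      simp only [matF, Fin.append_left]
      apply h
      rw [List.getD_eq_getElem _ _ i.2]
      exact List.getElem_mem _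
  · constructor
    · intro h k hk
      have := h k
      simp only [matF, Fin.append_right] at this
      rw [Finset.sum_eq_single k] at this
      · rw [if_pos ⟨rfl, hk⟩] at this
        simpa using this
      · intro j _ hj
        rw [if_neg (fun h => hj h.1.symm)]
        simp
      · intro h2
        exact absurd (mem_univ _) h2
    · intro h k
      simp only [matF, Fin.append_right]
      apply Finset.sum_eq_zero
      intro j _
      split_ifs with h2
      · rw [← h2.1, h k (by rw [h2.1]; exact h2.2)]
        simp
      · simp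

theorem getD_map_tops {β : Type} (F : List (List ℕ)) (f : List ℕ → β) (b : β) (j : Fin (nF F)) :
    ((tops F).map f).getD j b = f ((tops F).getD j []) := by
  have h1 : (j : ℕ) < (tops F).length := j.2
  rw [List.getD_eq_getElem _ _ (by simpa using h1), List.getD_eq_getElem _ _ h1, List.getElem_map]

theorem rows_iff (p : ℕ) [hp : Fact p.Prime] (F : List (List ℕ)) (B : List Bool)
    (y : Fin (nF F) → ZMod p) : (∀ f ∈ rowsP p F B, DL p (nF F) f y = 0) ↔
      ((∀ t ∈ rws F, ∑ j : Fin (nF F), (bdry ((tops F).getD j []) t : ZMod p) * y j = 0) ∧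
        (∀ k : Fin (nF F), B.getD k false = false → y k = 0)) := by
  rw [rowsP, List.forall_mem_append]
  apply and_congr
  · rw [List.forall_mem_map]
    apply forall₂_congr
    intro t _
    rw [DL_apply]
    have : ∀ j : Fin (nF F), vec p (nF F) ((tops F).map (fun s => bmod p s t)) j =
        ((bdry ((tops F).getD j []) t : ℤ) : ZMod p) := by
      intro j
      rw [vec, getD_map_tops, bmod_cast]
    rw [Finset.sum_congr rfl fun j _ => by rw [this j]]
  · rw [List.forall_mem_map]
    constructor
    · intro h k hk
      have h1 := h k (List.mem_range.2 k.2)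
      rw [DL_apply, Finset.sum_eq_single k] at h1
      · rw [vec, getD_map_range, if_pos ⟨rfl, hk⟩] at h1
        simpa using h1
      · intro j _ hj
        rw [vec, getD_map_range, if_neg (fun h => hj (Fin.ext h.1.symm))]
        simp
      · intro h2
        exact absurd (mem_univ _) h2
    · intro h k hk
      rw [DL_apply]
      apply Finset.sum_eq_zero
      intro j _
      rw [vec, getD_map_range]
      split_ifs with h2
      · rw [h j h2.2]
        simp
      · simp

theorem indp_iff (p : ℕ) (F : List (List ℕ)) (B : List Bool) :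
    indp p F B = true ↔ ∃ hp : p.Prime, @KTriv (ZMod p) (@ZMod.instField p ⟨hp⟩) F B := by
  rw [indp, Bool.and_eq_true, isP_iff, decide_eq_true_iff]
  rw [← exists_prop]
  apply exists_congr
  intro hp
  haveI : Fact p.Prime := ⟨hp⟩
  let U : Submodule (ZMod p) (Fin (nF F) → ZMod p) :=
    { carrier := {y | ∀ f ∈ rowsP p F B, DL p (nF F) f y = 0}
      add_mem' := by
        intro a b ha hb f hf
        rw [map_add, ha f hf, hb f hf, add_zero]
      zero_mem' := by
        intro f _
        rw [map_zero]
      smul_mem' := by
        intro c a ha f hf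
        rw [map_smul, ha f hf, smul_zero] }
  rw [kerL_length p (nF F) (rowsP p F B) U (fun y => Iff.rfl), Submodule.finrank_eq_zero]
  constructor
  · intro h y h1 h2
    have : y ∈ U := (rows_iff p F B y).2 ⟨h1, h2⟩
    rw [h] at this
    exact (Submodule.mem_bot _).1 this
  · intro h
    rw [Submodule.eq_bot_iff]
    intro y hy
    obtain ⟨h1, h2⟩ := (rows_iff p F B y).1 hy
    exact h y h1 h2

theorem ind_iff {F : List (List ℕ)} (hF : ∀ s ∈ F, s.Nodup) (B : List Bool) :
    ind F B = true ↔ KTriv ℚ F B := by
  rw [ind, List.any_eq_true]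
  constructor
  · rintro ⟨p0, _, h⟩
    obtain ⟨hp, h2⟩ := (indp_iff _ F B).1 h
    haveI : Fact (min p0 (tq F.length) + 1).Prime := ⟨hp⟩
    rw [← TK_iff]
    apply TK_of_prime (p := min p0 (tq F.length) + 1)
    rw [TK_iff]
    exact h2
  · intro h
    rw [← TK_iff] at h
    have hn : nF F ≤ F.length := List.length_filter_le _ _
    have hr : (rws F).length ≤ F.length := List.length_filter_le _ _
    have hA : ∀ i j, |matF F B i j| ≤ 1 := by
      rw [forall_fin_add]
      constructor
      · intro i j
        simp only [matF, Fin.append_left]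
        apply bdry_abs
        have hj : (j : ℕ) < (tops F).length := j.2
        rw [List.getD_eq_getElem _ _ hj]
        exact hF _ (List.mem_of_mem_filter (List.getElem_mem hj))
      · intro i j
        simp only [matF, Fin.append_right]
        split_ifs <;> simp
    obtain ⟨p, hp, hle, h2⟩ := exists_prime_TK (matF F B) hA hn (by omega) h
    have h1 := hp.one_lt
    refine ⟨p - 1, List.mem_range.2 (by omega), ?_⟩
    have h3 : min (p - 1) (tq F.length) + 1 = p := by omega
    rw [h3, indp_iff]
    refine ⟨hp, ?_⟩
    haveI : Fact p.Prime := ⟨hp⟩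
    rw [← TK_iff]
    exact h2 _

end Pool.Agent.Q226.SS
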