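import Pool.Agent.Q226.SS.Code

set_option autoImplicit false

/-!
# Exact uniform sampling of the bases of a matroid in expected polynomial time
-/

namespace Pool.Agent.NPC.Q226SS

open Pool.Agent.NPC.R591 Pool.Agent.H591R2 Pool.Agent.Q226.SS

theorem two_pow_size_le (m : ℕ) : 2 ^ m.size ≤ 2 * m + 1 := by
  rcases Nat.eq_zero_or_pos m with rfl | hm
  · simp
  · obtain ⟨k, hk⟩ : ∃ k, m.size = k + 1 := ⟨m.size - 1, by
      have := Nat.size_pos.2 hm
      omega⟩
    have h1 : 2 ^ k ≤ m := Nat.lt_size.1 (by omega)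
    rw [hk, pow_succ]
    omega

theorem four_le (m : ℕ) : 4 ^ (m.size + 1) ≤ (4 * m + 2) * (4 * m + 2) := by
  have h1 := two_pow_size_le m
  have h2 : 4 ^ (m.size + 1) = (2 * 2 ^ m.size) * (2 * 2 ^ m.size) := by
    have : (4 : ℕ) = 2 * 2 := rfl
    rw [this, Nat.mul_pow, pow_succ]
    ring
  rw [h2]
  exact Nat.mul_le_mul (by omega) (by omega)

theorem two_n_le (m : ℕ) : 2 * m ≤ 2 ^ (m.size + 1) := by
  have := Nat.lt_size_self m
  rw [pow_succ]
  omega

theorem poly_growth (Q : Polynomial ℕ) : ∃ c D : ℕ, ∀ Z, 1 ≤ Z → Q.eval Z ≤ c * Z ^ D := by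
  induction Q using Polynomial.induction_on' with
  | add p q hp hq =>
    obtain ⟨c, D, h1⟩ := hp
    obtain ⟨c', D', h2⟩ := hq
    refine ⟨c + c', D + D', fun Z hZ => ?_⟩
    rw [Polynomial.eval_add, add_mul]
    have e1 : Z ^ D ≤ Z ^ (D + D') := Nat.pow_le_pow_right hZ (by omega)
    have e2 : Z ^ D' ≤ Z ^ (D + D') := Nat.pow_le_pow_right hZ (by omega)
    exact add_le_add ((h1 Z hZ).trans (Nat.mul_le_mul_left _ e1))
      ((h2 Z hZ).trans (Nat.mul_le_mul_left _ e2))
  | monomial k a =>
    refine ⟨a, k, fun Z _ => ?_⟩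
    rw [Polynomial.eval_monomial]

section

variable {α : Type} [TEnc α] [TDec α]

/-- number of bits of a position -/
def eN (n : α → ℕ) (a : α) : ℕ := (n a).size + 1

theorem eN_poly {n : α → ℕ} (hn : UPoly n) : UPoly (eN n) :=
  (uSize hn.toPoly).add (UPoly.const 1)

theorem four_poly {n : α → ℕ} (hn : UPoly n) : UPoly (fun a => 4 ^ eN n a) := by
  have h1 : Poly (fun a => 4 ^ eN n a) := Poly.npow (Poly.const 4) (eN_poly hn)
  have h2 : UPoly (fun a => 4 * n a + 2) := ((UPoly.const 4).mul hn).add (UPoly.const 2)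
  exact UPoly.of_le h1 (h2.mul h2) fun a => four_le (n a)

/-- the body of the main loop, as a function of strings -/
def fC (n : α → ℕ) (isb : α → List Bool → Bool) (B₀ : α → List Bool)
    (out : α → List Bool → List Bool) (y : List Bool) : List Bool :=
  (unbits (α × List Unit) (unpair y).2).elim [] (fun p => roundS (n p.1) (eN n p.1) p.2.length
    (isb p.1) (B₀ p.1) (out p.1) (unpair y).2 (unpair y).1)

theorem fC_poly {n : α → ℕ} (hn : UPoly n) {isb : α → List Bool → Bool}
    (hisb : Poly (fun p : α × List Bool => isb p.1 p.2)) {B₀ : α → List Bool} (hB : Poly B₀)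
    {out : α → List Bool → List Bool} (hout : Poly (fun p : α × List Bool => out p.1 p.2)) :
    Poly (fC n isb B₀ out) := by
  have h0 : Poly (fun y : List Bool => unpair y) := poly_unpair
  have h1 : Poly (fun y : List Bool => (unpair y).1) := Poly.fst h0
  have h2 : Poly (fun y : List Bool => (unpair y).2) := Poly.snd h0
  have h3 : Poly (fun y : List Bool => unbits (α × List Unit) (unpair y).2) :=
    poly_unbits.comp h2
  unfold fC
  refine Poly.optElim (h := fun y p => roundS (n p.1) (eN n p.1) p.2.length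
    (isb p.1) (B₀ p.1) (out p.1) (unpair y).2 (unpair y).1) h3 (Poly.const []) ?_
  have hf : Poly (fun p : List Bool × (α × List Unit) => p.2.1) := Poly.fst (Poly.snd Poly.id)
  have hy : Poly (fun p : List Bool × (α × List Unit) => p.1) := Poly.fst Poly.id
  have hn' : UPoly (fun p : List Bool × (α × List Unit) => n p.2.1) := UPoly.comp hn hf
  have he' : UPoly (fun p : List Bool × (α × List Unit) => eN n p.2.1) :=
    UPoly.comp (eN_poly hn) hf
  have hs' : UPoly (fun p : List Bool × (α × List Unit) => p.2.2.length) :=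
    UPoly.length (Poly.snd (Poly.snd Poly.id))
  have h4' : UPoly (fun p : List Bool × (α × List Unit) => 4 ^ eN n p.2.1) :=
    UPoly.comp (n := fun a => 4 ^ eN n a) (f := fun p : List Bool × (α × List Unit) => p.2.1)
      (four_poly hn) hf
  have hi' : Poly (fun p : (List Bool × (α × List Unit)) × List Bool => isb p.1.2.1 p.2) :=
    hisb.comp (Poly.pair (Poly.fst (Poly.snd (Poly.fst Poly.id))) (Poly.snd Poly.id))
  have ho' : Poly (fun p : (List Bool × (α × List Unit)) × List Bool => out p.1.2.1 p.2) :=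
    hout.comp (Poly.pair (Poly.fst (Poly.snd (Poly.fst Poly.id))) (Poly.snd Poly.id))
  exact roundS_poly (isb := fun p : List Bool × (α × List Unit) => isb p.2.1)
    (out := fun p : List Bool × (α × List Unit) => out p.2.1) hn' he' hs' h4' hi'
    (hB.comp hf) (h2.comp hy) (h1.comp hy) ho'

/-- number of coins of the first stage -/
def kA (n s : α → ℕ) (a : α) : ℕ := s a + 2 * eN n a * TT (n a) (eN n a) (s a)

theorem kA_poly {n s : α → ℕ} (hn : UPoly n) (hs : UPoly s) : UPoly (kA n s) :=
  hs.add (((UPoly.const 2).mul (eN_poly hn)).mul (TT_poly hn hs (four_poly hn)))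

/-- the extended input -/
def xx (s : α → ℕ) (a : α) : α × List Unit := (a, List.replicate (s a) ())

theorem xx_poly {s : α → ℕ} (hs : UPoly s) : Poly (xx s) := Poly.pair Poly.id hs

/-- preparation, as a function of strings -/
def fA (n s : α → ℕ) (x : List Bool) : List Bool :=
  (unbits α x).elim [] (fun a => head (kA n s a) (bits (xx s a)))

theorem fA_poly {n s : α → ℕ} (hn : UPoly n) (hs : UPoly s) : Poly (fA n s) := by
  unfold fA
  refine Poly.optElim (h := fun _ a => head (kA n s a) (bits (xx s a))) poly_unbits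
    (Poly.const []) ?_
  have hf : Poly (fun p : List Bool × α => p.2) := Poly.snd Poly.id
  exact head_poly (UPoly.comp (kA_poly hn hs) hf) (poly_bits.comp ((xx_poly hs).comp hf))

/-- **Exact uniform sampling of bases.**  For every class of matroids given in polynomial time (by
a test of bases on bit masks and by one basis) there is a coin-tossing machine that outputs every
basis with probability exactly one over the number of bases, in expected polynomial time. -/
theorem sampler {n : α → ℕ} (hn : UPoly n) {isb : α → List Bool → Bool}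
    (hisb : Poly (fun p : α × List Bool => isb p.1 p.2)) {B₀ : α → List Bool} (hB : Poly B₀)
    {out : α → List Bool → List Bool} (hout : Poly (fun p : α × List Bool => out p.1 p.2))
    (valid : α → Prop) (l : α → ℕ)
    (hmat : ∀ a, valid a → IsMat (n a) (isb a) (l a))
    (hini : ∀ a, valid a → B₀ a ∈ Om (n a) (isb a))
    (hinj : ∀ a, valid a → ∀ B ∈ Om (n a) (isb a), ∀ C ∈ Om (n a) (isb a),
      out a B = out a C → B = C) :
    ∃ (M : CoinMachine) (p : Polynomial ℕ), ∀ a, valid a →
      (∀ B ∈ Om (n a) (isb a), outProb M (bits a) (out a B) =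
        ((Om (n a) (isb a)).card : ENNReal)⁻¹) ∧
      M.expectedTime (bits a) ≤ (p.eval (bits a).length : ℕ) := by
  classical
  obtain ⟨cmC, pC, hC⟩ := raw (fC_poly hn hisb hB hout)
  set Q : Polynomial ℕ := Polynomial.C 2 * Polynomial.X + Polynomial.C 3 +
    pC.comp (Polynomial.C 2 * Polynomial.X + 1) with hQ
  obtain ⟨c, D, hcD⟩ := poly_growth Q
  clear_value Q
  set s : α → ℕ := fun a => D * n a + n a + 1 with hs
  have hsU : UPoly s := (((UPoly.const D).mul hn).add hn).add (UPoly.const 1)
  obtain ⟨cmA, pA, hA⟩ := raw (fA_poly hn hsU)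
  obtain ⟨rk, hrk⟩ := UPoly.bd (kA_poly hn hsU)
  obtain ⟨rx, hrx⟩ := (xx_poly hsU).sz_le
  obtain ⟨rn, hrn⟩ := UPoly.bd hn
  set N₀ := max cmA.bd cmC.bd with hN₀
  set cA : Cmd (Fin (N₀ + 2)) := cmA.map (Fin.ofNat (N₀ + 1 + 1)) with hcA
  set cC : Cmd (Fin (N₀ + 2)) := cmC.map (Fin.ofNat (N₀ + 1 + 1)) with hcC
  have hinp : ∀ x : List Bool, (fun i : Fin (N₀ + 1 + 1) => (inp x : ℕ → List Bool) i) =
      (inp x : Fin (N₀ + 2) → List Bool) := by
    intro x
    funext i
    by_cases hi : i = 0
    · subst hi; simp [inp]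
    · have : (i : ℕ) ≠ 0 := fun h => hi (Fin.ext h)
      simp [inp, hi, this]
  refine ⟨lvMachine cA cC, pA + 1 + Q.comp (rk + rx) +
    (rn + 2) * (Polynomial.C c * (2 + 2 * rk + rx) ^ D), fun a ha => ?_⟩
  -- the specification
  set k := kA n s a with hk
  set x' : List Bool := bits (xx s a) with hx'
  set τ : ℕ → ℕ := fun j => pC.eval (2 * j + 1 + x'.length) with hτ
  set fa : List Bool → Option (List Bool) := stA (n a) (eN n a) (s a) (isb a) (B₀ a) (out a)
    with hfa
  set fb : List Bool → Option (List Bool) := fun r => stB (n a) (eN n a) (s a) (isb a) (B₀ a)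
    (out a) (Lk (n a) (isb a) r.length) r with hfb
  obtain ⟨tA, htA, hrunA⟩ := hA (bits a)
  have hspec : Spec2 cA cC (bits a) x' k tA τ (rnd k (2 ^ n a) fa fb) := by
    refine ⟨?_, ?_⟩
    · have h1 := hrunA.restrict (n := N₀ + 1) (by omega)
      rw [hinp, hinp] at h1
      have h2 : fA n s (bits a) = head k x' := by
        unfold fA
        rw [unbits_bits]
        rfl
      rw [← h2]
      exact h1
    · intro r
      obtain ⟨t, ht, hrunC⟩ := hC (pairBits r x')
      have h1 := hrunC.restrict (n := N₀ + 1) (by omega)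
      rw [hinp, hinp] at h1
      have hlenp : (pairBits r x').length = 2 * r.length + 1 + x'.length := by
        unfold pairBits
        simp only [List.length_append, List.length_flatMap, List.length_cons]
        simp only [List.length_nil, List.map_const', List.sum_replicate, smul_eq_mul]
        ring
      rw [hlenp] at ht
      refine ⟨t, ht, ?_⟩
      have h2 : fC n isb B₀ out (pairBits r x') = resS x' (rnd k (2 ^ n a) fa fb r) := by
        unfold fC
        rw [unpair_pairBits]
        simp only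
        rw [hx', unbits_bits, Option.elim_some, roundS_eq]
        simp only [xx, List.length_replicate]
        rfl
      rw [h2] at h1
      exact h1
  -- facts about the stages
  have hmat' := hmat a ha
  have hini' := hini a ha
  have hinj' := hinj a ha
  have he : 2 * n a ≤ 2 ^ eN n a := two_n_le (n a)
  have hkA1 : 1 ≤ k := by
    rw [hk]; unfold kA; rw [hs]; simp only; omega
  have hkn : n a + 2 * eN n a * TT (n a) (eN n a) (s a) ≤ k := by
    rw [hk]; unfold kA
    have : n a ≤ s a := by rw [hs]; simp only; omega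
    omega
  have hS : ∀ j, k < j → (Ms (n a) (isb a)).length * (4 ^ eN n a) ^ TT (n a) (eN n a) (s a) ≤
      2 ^ j := by
    intro j hj
    have h1 : (Ms (n a) (isb a)).length ≤ 2 ^ n a := by
      rw [← card_Om]; exact card_Om_le _ _
    have h2 : (4 ^ eN n a) ^ TT (n a) (eN n a) (s a) =
        2 ^ (2 * eN n a * TT (n a) (eN n a) (s a)) := by
      rw [pow_mul, pow_mul]
      norm_num
    rw [h2]
    calc (Ms (n a) (isb a)).length * 2 ^ (2 * eN n a * TT (n a) (eN n a) (s a)) ≤
          2 ^ n a * 2 ^ (2 * eN n a * TT (n a) (eN n a) (s a)) := Nat.mul_le_mul_right _ h1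
      _ = 2 ^ (n a + 2 * eN n a * TT (n a) (eN n a) (s a)) := by rw [pow_add]
      _ ≤ 2 ^ j := Nat.pow_le_pow_right (by norm_num) (by omega)
  have hfbk : ∀ j, 2 ^ n a ≤ j → ∀ r : List Bool, r.length = j →
      fb r = stB (n a) (eN n a) (s a) (isb a) (B₀ a) (out a) (Ms (n a) (isb a)) r := by
    intro j hj r hr
    rw [hfb]
    simp only
    rw [Lk_eq _ _ (by omega)]
  have hqn : ∀ j, k < j → 2 ^ n a ≤ j → av j (fun r => nonO (fb r)) =
      av j (fun r => nonO (stB (n a) (eN n a) (s a) (isb a) (B₀ a) (out a) (Ms (n a) (isb a)) r)) :=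
    fun j _ hj2 => av_congr j fun r hr => by rw [hfbk j hj2 r hr]
  have hq : ∀ j, k < j → 2 ^ n a ≤ j → av j (fun r => nonO (fb r)) ≤ 1 / 2 := by
    intro j hj hj2
    rw [hqn j hj hj2]
    exact (stB_spec hmat' he hini' hinj' (hS j hj)).1
  have hnonA : av k (fun r => nonO (fa r)) = (1 / 2) ^ s a := stA_non
  refine ⟨fun B hBm => ?_, ?_⟩
  · -- probabilities
    rw [start_prob hspec (out a B), two_prob hspec hkA1 (out a B)
      (β := (WW (n a) (eN n a) (s a) (isb a) (B₀ a) B : ℝ) /
        ((Om (n a) (isb a)).card * ((4 : ℝ) ^ eN n a) ^ TT (n a) (eN n a) (s a))) hq ?_, hnonA]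
    · have h1 : av k (fun r => indO (out a B) (fa r)) = (1 - (1 / 2) ^ s a) *
          uu (n a) (eN n a) (isb a) (B₀ a) (TT (n a) (eN n a) (s a)) B :=
        stA_ind hini' hinj' hBm
      rw [h1, exact_id hmat' he hini' hBm, one_div, ENNReal.ofReal_inv_of_pos,
        ENNReal.ofReal_natCast]
      exact_mod_cast Finset.card_pos.2 ⟨B, hBm⟩
    · intro j hj hj2
      rw [hqn j hj hj2]
      rw [← (stB_spec hmat' he hini' hinj' (hS j hj)).2 B hBm]
      exact av_congr j fun r hr => by rw [hfbk j hj2 r hr]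
  · -- expected time
    apply CoinMachine.expectedTime_le
    intro N
    have hτm : Monotone τ := fun i j hij => eval_mono pC (by omega)
    have h1 := two_time hspec hkA1 hτm hq (n := n a) le_rfl N
    refine h1.trans ?_
    rw [hnonA]
    have e1 : tA ≤ pA.eval (bits a).length := htA
    have e2 : 2 * k + 3 + τ k ≤ Q.eval (k + x'.length) := by
      rw [hQ, hτ]
      simp only [Polynomial.eval_add, Polynomial.eval_mul, Polynomial.eval_C, Polynomial.eval_X,
        Polynomial.eval_comp, Polynomial.eval_one]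
      have := eval_mono pC (show 2 * k + 1 + x'.length ≤ 2 * (k + x'.length) + 1 by omega)
      omega
    set K := 2 * 2 ^ n a + 2 * k with hK
    set Y := 2 + 2 * k + x'.length with hY
    have h2n : 1 ≤ 2 ^ n a := Nat.one_le_two_pow
    have e3 : K + x'.length ≤ 2 ^ n a * Y := by
      rw [hK, hY]
      nlinarith
    have e4 : 2 * K + 3 + τ K ≤ c * (2 ^ n a * Y) ^ D := by
      have h2 : 2 * K + 3 + τ K ≤ Q.eval (K + x'.length) := by
        rw [hQ, hτ]
        simp only [Polynomial.eval_add, Polynomial.eval_mul, Polynomial.eval_C, Polynomial.eval_X,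
          Polynomial.eval_comp, Polynomial.eval_one]
        have := eval_mono pC (show 2 * K + 1 + x'.length ≤ 2 * (K + x'.length) + 1 by omega)
        omega
      exact h2.trans ((eval_mono Q e3).trans (hcD _ (by
        have : 1 ≤ Y := by omega
        nlinarith)))
    have e5 : (1 / 2 : ℝ) ^ s a * (((n a : ℝ) + 2) * ((2 * K + 3 + τ K : ℕ) : ℝ)) ≤
        (((n a + 2) * (c * Y ^ D) : ℕ) : ℝ) := by
      have h2 : ((2 * K + 3 + τ K : ℕ) : ℝ) ≤ (c : ℝ) * ((2 ^ n a) ^ D * (Y : ℝ) ^ D) := by
        have : ((2 * K + 3 + τ K : ℕ) : ℝ) ≤ ((c * (2 ^ n a * Y) ^ D : ℕ) : ℝ) := by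
          exact_mod_cast e4
        refine this.trans (le_of_eq ?_)
        push_cast
        rw [mul_pow]
      have h3 : (1 / 2 : ℝ) ^ s a * (2 ^ n a) ^ D ≤ 1 := by
        have h4 : (2 : ℝ) ^ (n a * D) ≤ 2 ^ s a := by
          apply pow_le_pow_right₀ (by norm_num)
          rw [hs]
          simp only
          rw [mul_comm]
          omega
        calc (1 / 2 : ℝ) ^ s a * (2 ^ n a) ^ D = (1 / 2 : ℝ) ^ s a * 2 ^ (n a * D) := by
              rw [← pow_mul]
          _ ≤ (1 / 2 : ℝ) ^ s a * 2 ^ s a := mul_le_mul_of_nonneg_left h4 (by positivity)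
          _ = 1 := by rw [← mul_pow]; norm_num
      have h5 : (0 : ℝ) ≤ ((n a : ℝ) + 2) * (c * (Y : ℝ) ^ D) := by positivity
      calc (1 / 2 : ℝ) ^ s a * (((n a : ℝ) + 2) * ((2 * K + 3 + τ K : ℕ) : ℝ)) ≤
            (1 / 2 : ℝ) ^ s a * (((n a : ℝ) + 2) * ((c : ℝ) * ((2 ^ n a) ^ D * (Y : ℝ) ^ D))) := by
            gcongr
        _ = ((1 / 2 : ℝ) ^ s a * (2 ^ n a) ^ D) * (((n a : ℝ) + 2) * (c * (Y : ℝ) ^ D)) := by ring
        _ ≤ 1 * (((n a : ℝ) + 2) * (c * (Y : ℝ) ^ D)) := mul_le_mul_of_nonneg_right h3 h5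
        _ = _ := by push_cast; ring
    have e6 : Q.eval (k + x'.length) ≤ (Q.comp (rk + rx)).eval (bits a).length := by
      rw [Polynomial.eval_comp, Polynomial.eval_add]
      exact eval_mono Q (add_le_add (hrk a) (hrx a))
    have e7 : (n a + 2) * (c * Y ^ D) ≤
        ((rn + 2) * (Polynomial.C c * (2 + 2 * rk + rx) ^ D)).eval (bits a).length := by
      simp only [Polynomial.eval_mul, Polynomial.eval_add, Polynomial.eval_C, Polynomial.eval_pow,
        Polynomial.eval_ofNat]
      have a1 : n a ≤ rn.eval (bits a).length := hrn a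
      have a2 : Y ≤ 2 + 2 * rk.eval (bits a).length + rx.eval (bits a).length := by
        have b1 : k ≤ rk.eval (bits a).length := hrk a
        have b2 : x'.length ≤ rx.eval (bits a).length := hrx a
        omega
      gcongr
    have e8 : (tA : ℝ) + 1 + ((2 * k + 3 + τ k : ℕ) : ℝ) + (((n a + 2) * (c * Y ^ D) : ℕ) : ℝ) ≤
        ((pA + 1 + Q.comp (rk + rx) + (rn + 2) * (Polynomial.C c * (2 + 2 * rk + rx) ^ D)).eval
          (bits a).length : ℕ) := by
      rw [Polynomial.eval_add, Polynomial.eval_add, Polynomial.eval_add, Polynomial.eval_one]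
      exact_mod_cast (by omega : tA + 1 + (2 * k + 3 + τ k) + (n a + 2) * (c * Y ^ D) ≤
        pA.eval (bits a).length + 1 + (Q.comp (rk + rx)).eval (bits a).length +
        ((rn + 2) * (Polynomial.C c * (2 + 2 * rk + rx) ^ D)).eval (bits a).length)
    linarith

end

end Pool.Agent.NPC.Q226SS
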