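import Pool.Agent.Q226.SS.Trees
import Pool.Agent.Q226.SS.Sampler

set_option autoImplicit false

/-!
# The algorithm for simplicial complexes: polynomial time
-/

namespace Pool.Agent.NPC.Q226SS

open Pool.Agent.NPC.R591 Pool.Agent.H591R2 Pool.Agent.Q226.SS Pool.Agent.H442R3.MPar
  Pool.Agent.H442R3.SP

variable {α : Type} [TEnc α]

theorem poly_tops {F : α → List (List ℕ)} (hF : Poly F) : Poly (fun a => tops (F a)) := by
  unfold tops
  fun_prop

attribute [fun_prop] poly_tops

theorem poly_rws {F : α → List (List ℕ)} (hF : Poly F) : Poly (fun a => rws (F a)) := by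
  unfold rws
  fun_prop

attribute [fun_prop] poly_rws

theorem upoly_nF {F : α → List (List ℕ)} (hF : Poly F) : UPoly (fun a => nF (F a)) :=
  UPoly.length (poly_tops hF)

theorem poly_erase {s : α → List ℕ} {i : α → ℕ} (hs : Poly s) (hi : Poly i) :
    Poly (fun a => (s a).take (i a) ++ (s a).drop (i a + 1)) := by
  have h1 := poly_take hs hi
  have h2 : Poly (fun a => (s a).drop (i a + 1)) := poly_drop hs (by fun_prop)
  fun_prop

theorem poly_cE {s t : α → List ℕ} (hs : Poly s) (ht : Poly t) :
    Poly (fun a => cE (s a) (t a)) := by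
  unfold cE
  refine NPC.Poly.length (NPC.Poly.filter (p := fun a i => decide (i % 2 = 0) &&
    decide ((s a).take i ++ (s a).drop (i + 1) = t a)) (UPoly.length hs).range ?_)
  have h := poly_erase (α := α × ℕ) (s := fun p => s p.1) (i := fun p => p.2) (by fun_prop)
    (by fun_prop)
  refine NPC.Poly.and (by fun_prop) (NPC.Poly.decide_eq h (by fun_prop))

attribute [fun_prop] poly_cE

theorem poly_cO {s t : α → List ℕ} (hs : Poly s) (ht : Poly t) :
    Poly (fun a => cO (s a) (t a)) := by
  unfold cO
  refine NPC.Poly.length (NPC.Poly.filter (p := fun a i => decide (i % 2 = 1) &&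
    decide ((s a).take i ++ (s a).drop (i + 1) = t a)) (UPoly.length hs).range ?_)
  have h := poly_erase (α := α × ℕ) (s := fun p => s p.1) (i := fun p => p.2) (by fun_prop)
    (by fun_prop)
  refine NPC.Poly.and (by fun_prop) (NPC.Poly.decide_eq h (by fun_prop))

attribute [fun_prop] poly_cO

theorem poly_bmod {p : α → ℕ} {s t : α → List ℕ} (hp : Poly p) (hs : Poly s) (ht : Poly t) :
    Poly (fun a => bmod (p a) (s a) (t a)) := by
  unfold bmod
  fun_prop

attribute [fun_prop] poly_bmod

theorem poly_rowsP {p : α → ℕ} {F : α → List (List ℕ)} {B : α → List Bool} (hp : Poly p)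
    (hF : Poly F) (hB : Poly B) : Poly (fun a => rowsP (p a) (F a) (B a)) := by
  have hR : Poly (fun a => List.range (nF (F a))) := (upoly_nF hF).range
  unfold rowsP
  refine NPC.Poly.append (by fun_prop) ?_
  refine NPC.Poly.map (F := fun a k => (List.range (nF (F a))).map
      (fun j => if k = j ∧ (B a).getD j false = false then 1 else 0)) hR ?_
  refine NPC.Poly.map (α := α × ℕ) (F := fun p j => if p.2 = j ∧ (B p.1).getD j false = false
    then 1 else 0) (l := fun p => List.range (nF (F p.1))) ?_ ?_
  · exact hR.comp (Poly.fst Poly.id)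
  · refine NPC.Poly.ite (NPC.Poly.decide_and ?_ ?_) (by fun_prop) (by fun_prop)
    · exact NPC.Poly.decide_eq (by fun_prop) (by fun_prop)
    · exact NPC.Poly.decide_eq (by fun_prop) (by fun_prop)

theorem poly_indp {p : α → ℕ} {F : α → List (List ℕ)} {B : α → List Bool} (hp : UPoly p)
    (hp0 : ∀ a, 0 < p a) (hF : Poly F) (hB : Poly B) :
    Poly (fun a => indp (p a) (F a) (B a)) := by
  have hR : Poly (fun a => List.range (nF (F a))) := (upoly_nF hF).range
  unfold indp
  exact NPC.Poly.and (poly_isP hp) (NPC.Poly.decide_eq (NPC.Poly.length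
    (poly_kerL hp.toPoly hR (poly_rowsP hp.toPoly hF hB) hp0)) (Poly.const 0))

theorem upoly_bb {L : α → ℕ} (hL : UPoly L) : UPoly (fun a => bb (L a)) := by
  unfold bb
  exact (((UPoly.const 3).mul hL).mul hL).add (UPoly.const 1)

theorem upoly_tq {L : α → ℕ} (hL : UPoly L) : UPoly (fun a => tq (L a)) := by
  unfold tq
  exact ((upoly_bb hL).add (UPoly.const 4)).mul ((upoly_bb hL).add (UPoly.const 4))

theorem poly_ind {F : α → List (List ℕ)} {B : α → List Bool} (hF : Poly F) (hB : Poly B) :
    Poly (fun a => ind (F a) (B a)) := by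
  have hT : UPoly (fun a => tq (F a).length) := upoly_tq (UPoly.length hF)
  unfold ind
  refine NPC.Poly.any (l := fun a => List.range (tq (F a).length + 1))
    (p := fun a p0 => indp (min p0 (tq (F a).length) + 1) (F a) (B a))
    (hT.add (UPoly.const 1)).range ?_
  have hf : Poly (fun p : α × ℕ => p.1) := Poly.fst Poly.id
  have hT2 : UPoly (fun p : α × ℕ => tq (F p.1).length) := hT.comp hf
  have hm : UPoly (fun p : α × ℕ => min p.2 (tq (F p.1).length)) :=
    UPoly.of_le (Poly.min (Poly.snd Poly.id) hT2.toPoly) hT2 fun _ => min_le_right _ _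
  exact poly_indp (α := α × ℕ) (p := fun p => min p.2 (tq (F p.1).length) + 1)
    (F := fun p => F p.1) (B := fun p => B p.1) (hm.add (UPoly.const 1))
    (fun _ => Nat.succ_pos _) (hF.comp hf) (hB.comp hf)

theorem poly_setT {n j : α → ℕ} {B : α → List Bool} (hn : UPoly n) (hB : Poly B) (hj : Poly j) :
    Poly (fun a => setT (n a) (B a) (j a)) := by
  have hR := hn.range
  unfold setT
  fun_prop

theorem poly_isB {F : α → List (List ℕ)} {B : α → List Bool} (hF : Poly F) (hB : Poly B) :
    Poly (fun a => isB (F a) (B a)) := by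
  unfold isB
  refine NPC.Poly.and (poly_ind hF hB) ?_
  have hf : Poly (fun p : α × ℕ => p.1) := Poly.fst Poly.id
  refine NPC.Poly.all (l := fun a => List.range (nF (F a)))
    (p := fun a j => (B a).getD j false || !(ind (F a) (setT (nF (F a)) (B a) j)))
    (upoly_nF hF).range ?_
  have h1 : Poly (fun p : α × ℕ => ind (F p.1) (setT (nF (F p.1)) (B p.1) p.2)) :=
    poly_ind (hF.comp hf) (poly_setT ((upoly_nF hF).comp hf) (hB.comp hf) (Poly.snd Poly.id))
  fun_prop

theorem ini_length (F : List (List ℕ)) (k : ℕ) (l : List ℕ) (B : List Bool) (hB : B.length = nF F) :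
    ((l.take k).foldl (fun B j => bif ind F (setT (nF F) B j) then setT (nF F) B j else B)
      B).length = nF F := by
  induction k generalizing l B with
  | zero => simpa using hB
  | succ k ih =>
    cases l with
    | nil => simpa using hB
    | cons j l =>
      rw [List.take_succ_cons, List.foldl_cons]
      apply ih
      cases ind F (setT (nF F) B j)
      · exact hB
      · exact length_setT _ _ _

theorem poly_iniB {F : α → List (List ℕ)} (hF : Poly F) : Poly (fun a => iniB (F a)) := by
  have hn := upoly_nF hF
  obtain ⟨r, hr⟩ := UPoly.bd hn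
  unfold iniB
  have h0 : Poly (fun a => List.replicate (nF (F a)) false) := by
    have h1 : Poly (fun a => (List.range (nF (F a))).map (fun _ => false)) :=
      NPC.Poly.map (F := fun _ _ => false) hn.range (Poly.const false)
    refine h1.congr fun a => ?_
    rw [List.map_const', List.length_range]
  refine NPC.Poly.foldl (l := fun a => List.range (nF (F a)))
    (s := fun a => List.replicate (nF (F a)) false)
    (F := fun a B j => bif ind (F a) (setT (nF (F a)) B j) then setT (nF (F a)) B j else B)
    hn.range h0 ?_ (Polynomial.C 4 * r + 1) ?_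
  · have hf : Poly (fun p : α × (List Bool × ℕ) => p.1) := Poly.fst Poly.id
    have hs : Poly (fun p : α × (List Bool × ℕ) => setT (nF (F p.1)) p.2.1 p.2.2) :=
      poly_setT (hn.comp hf) (Poly.fst (Poly.snd Poly.id)) (Poly.snd (Poly.snd Poly.id))
    have h1 := poly_ind (hF.comp hf) hs
    exact NPC.Poly.cond h1 hs (Poly.fst (Poly.snd Poly.id))
  · intro a k _
    have h1 := ini_length (F a) k (List.range (nF (F a))) (List.replicate (nF (F a)) false)
      List.length_replicate
    have h2 := sz_le_of_length h1
    have h3 := hr a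
    simp only [Polynomial.eval_add, Polynomial.eval_mul, Polynomial.eval_C, Polynomial.eval_one]
    omega

theorem poly_treeOf {F : α → List (List ℕ)} {B : α → List Bool} (hF : Poly F) (hB : Poly B) :
    Poly (fun a => treeOf (F a) (B a)) := by
  unfold treeOf
  fun_prop

end Pool.Agent.NPC.Q226SS
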