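import Pool.Agent.Q226.SS.CplxPoly

set_option autoImplicit false

/-!
# Exact uniform sampling of simplicial spanning trees
-/

namespace Pool.Agent.Q226.SS

open Pool.Agent.H591R2 Pool.Agent.NPC Pool.Agent.NPC.Q226SS

theorem size_vertex (v : ℕ) : sz v ≤ 4 * v + 1 := by
  have h1 := sz_nat_le v
  have h2 : v.size ≤ v := Nat.size_le.2 Nat.lt_two_pow_self
  omega

theorem length_face {F : List (List ℕ)} (hF : IsComplex F) {s : List ℕ} (hs : s ∈ F) :
    s.length ≤ F.length := by
  have h1 : (s.map (fun v => [v])).Nodup := by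
    refine List.Nodup.map ?_ (hF.incr s hs).nodup
    intro a b h
    simpa using h
  have h2 : s.map (fun v => [v]) ⊆ F := by
    intro t ht
    rw [List.mem_map] at ht
    obtain ⟨v, hv, rfl⟩ := ht
    exact hF.down s hs [v] (List.singleton_sublist.2 hv) (by simp)
  have h3 := (List.subperm_of_subset h1 h2).length_le
  rwa [List.length_map] at h3

theorem size_complex {F : List (List ℕ)} (hF : IsComplex F)
    (hlab : ∀ s ∈ F, ∀ v ∈ s, v < F.length) :
    (bits F).length ≤ F.length * (F.length * (4 * F.length + 2) + 2) + 1 := by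
  rw [bits_length]
  refine (sz_le_length_mul F (F.length * (4 * F.length + 2) + 1) ?_).trans (by
    apply Nat.add_le_add_right
    apply Nat.mul_le_mul_left
    omega)
  intro s hs
  refine (sz_le_length_mul s (4 * F.length + 1) ?_).trans ?_
  · intro v hv
    have h1 := size_vertex v
    have h2 := hlab s hs v hv
    omega
  · have := length_face hF hs
    apply Nat.add_le_add_right
    exact Nat.mul_le_mul this le_rfl

theorem final : ∃ (M : CoinMachine) (p q : Polynomial ℕ), ∀ (F : List (List ℕ)) (d : ℕ),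
    IsComplex F → HasDim F d →
      {Y | IsTree F d Y}.Finite ∧ {Y | IsTree F d Y}.Nonempty ∧
      (∀ Y, IsTree F d Y → outProb M (bits F) (bits Y) = ({Y | IsTree F d Y}.ncard : ENNReal)⁻¹) ∧
      M.expectedTime (bits F) ≤ (p.eval (bits F).length : ℕ) ∧
      ((∀ s ∈ F, ∀ v ∈ s, v < F.length) → M.expectedTime (bits F) ≤ (q.eval F.length : ℕ)) := by
  have hF1 : Poly (fun F : List (List ℕ) => F) := Poly.id
  have hP1 : Poly (fun p : List (List ℕ) × List Bool => p.1) := Poly.fst Poly.id
  have hP2 : Poly (fun p : List (List ℕ) × List Bool => p.2) := Poly.snd Poly.id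
  have hout : Poly (fun p : List (List ℕ) × List Bool => (bits (treeOf p.1 p.2) : List Bool)) :=
    poly_bits.comp (poly_treeOf hP1 hP2)
  obtain ⟨M, p, h⟩ := sampler (α := List (List ℕ)) (n := nF) (upoly_nF hF1)
    (isb := isB) (poly_isB hP1 hP2) (B₀ := iniB) (poly_iniB hF1)
    (out := fun F B => bits (treeOf F B)) hout
    (fun F => IsComplex F ∧ ∃ d, HasDim F d)
    (fun F => open Classical in if h : ∃ d, HasDim F d then
      Module.finrank ℚ (SW (vF F h.choose) (nF F)) else 0)
    (by
      rintro F ⟨hF, hd⟩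
      simp only [dif_pos hd]
      exact isMatF hF hd.choose_spec)
    (by
      rintro F ⟨hF, d, hd⟩
      exact iniB_mem hF hd)
    (by
      rintro F ⟨hF, d, hd⟩ B hB C hC he
      have he2 : treeOf F B = treeOf F C := TEnc.inj (T.enc_injective he)
      exact treeOf_injOn hF hd (Finset.mem_coe.2 hB) (Finset.mem_coe.2 hC) he2)
  refine ⟨M, p, p.comp (Polynomial.X * (Polynomial.X * (Polynomial.C 4 * Polynomial.X +
    Polynomial.C 2) + Polynomial.C 2) + 1), ?_⟩
  intro F d hF hd
  obtain ⟨h1, h2⟩ := h F ⟨hF, d, hd⟩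
  refine ⟨finite_trees hF hd, nonempty_trees hF hd, ?_, h2, ?_⟩
  · intro Y hY
    have hY2 : Y ∈ treeOf F '' (Om (nF F) (isB F) : Set (List Bool)) := by
      rw [← trees_eq hF hd]
      exact hY
    obtain ⟨B, hB, rfl⟩ := hY2
    rw [ncard_trees hF hd]
    exact h1 B (Finset.mem_coe.1 hB)
  · intro hlab
    refine h2.trans ?_
    rw [Nat.cast_le]
    have e : (p.comp (Polynomial.X * (Polynomial.X * (Polynomial.C 4 * Polynomial.X +
      Polynomial.C 2) + Polynomial.C 2) + 1)).eval F.length =
      p.eval (F.length * (F.length * (4 * F.length + 2) + 2) + 1) := by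
      simp only [Polynomial.eval_comp, Polynomial.eval_add, Polynomial.eval_mul,
        Polynomial.eval_X, Polynomial.eval_C, Polynomial.eval_one]
    rw [e]
    exact eval_mono p (size_complex hF hlab)

end Pool.Agent.Q226.SS
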