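import Pool.Agent.H591R2.CoinRun
import Pool.Agent.Q226.SS.Defs

set_option autoImplicit false

/-!
# The probability that a coin-tossing machine halts with a given output
-/

namespace Pool.Agent.Q226.SS

open Turing Function NPC Pool.Agent.H591R2 CoinMachine

variable {M : CoinMachine}

/-- coin sequences leading from `c` to a configuration in `G` -/
def hitS (G : M.Conf → Prop) (c : M.Conf) (i : ℕ) : Set (List Bool) :=
  {w : List Bool | w.length = i ∧ ∃ c', M.run c w = some c' ∧ G c'}

/-- hitting probability -/
noncomputable def hitE (G : M.Conf → Prop) (c : M.Conf) : ENNReal :=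
  ∑' i : ℕ, ((hitS G c i).ncard : ENNReal) / 2 ^ i

theorem hitS_finite (G : M.Conf → Prop) (c : M.Conf) (i : ℕ) : (hitS G c i).Finite :=
  finite_len i _

theorem hitS_zero (G : M.Conf → Prop) (c : M.Conf) : hitS G c 0 = {w | w = [] ∧ G c} := by
  ext w
  simp only [hitS, Set.mem_ofPred_eq]
  constructor
  · rintro ⟨hw, c', h1, h2⟩
    rw [List.length_eq_zero_iff] at hw
    subst hw
    rw [run_nil, Option.some.injEq] at h1
    exact ⟨rfl, h1 ▸ h2⟩
  · rintro ⟨rfl, h⟩
    exact ⟨rfl, c, rfl, h⟩

theorem hitS_succ (G : M.Conf → Prop) {c : M.Conf} {d : Bool → M.Conf}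
    (h : ∀ b, M.step b c = some (d b)) (i : ℕ) :
    (hitS G c (i + 1)).ncard = (hitS G (d false) i).ncard + (hitS G (d true) i).ncard := by
  have e : hitS G c (i + 1) = (fun w => false :: w) '' hitS G (d false) i ∪
      (fun w => true :: w) '' hitS G (d true) i := by
    ext w
    simp only [hitS, Set.mem_union, Set.mem_image, Set.mem_ofPred_eq]
    constructor
    · rintro ⟨h1, c', h2, h3⟩
      cases w with
      | nil => simp at h1
      | cons b w =>
        have h4 : w.length = i := by simpa using h1
        rw [run_cons, h] at h2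
        cases b
        · left; exact ⟨w, ⟨h4, c', h2, h3⟩, rfl⟩
        · right; exact ⟨w, ⟨h4, c', h2, h3⟩, rfl⟩
    · rintro (⟨w', ⟨h1, c', h2, h3⟩, rfl⟩ | ⟨w', ⟨h1, c', h2, h3⟩, rfl⟩)
      · exact ⟨by simp [h1], c', by rw [run_cons, h]; exact h2, h3⟩
      · exact ⟨by simp [h1], c', by rw [run_cons, h]; exact h2, h3⟩
  have hdis : Disjoint ((fun w => false :: w) '' hitS G (d false) i)
      ((fun w => true :: w) '' hitS G (d true) i) := by
    rw [Set.disjoint_left]
    rintro w ⟨w1, _, rfl⟩ ⟨w2, _, h⟩
    simp at h
  rw [e, Set.ncard_union_eq hdis ((hitS_finite G _ i).image _) ((hitS_finite G _ i).image _),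
    Set.ncard_image_of_injective _ (fun a b h => by simpa using h),
    Set.ncard_image_of_injective _ (fun a b h => by simpa using h)]

/-- a coin toss, in the extended reals -/
theorem hitE_coin {G : M.Conf → Prop} {c : M.Conf} {d : Bool → M.Conf}
    (hG : ¬ G c) (h : ∀ b, M.step b c = some (d b)) :
    hitE G c = (hitE G (d false) + hitE G (d true)) / 2 := by
  unfold hitE
  rw [tsum_eq_zero_add' (f := fun i => ((hitS G c i).ncard : ENNReal) / 2 ^ i) ENNReal.summable]
  have h0 : ((hitS G c 0).ncard : ENNReal) / 2 ^ 0 = 0 := by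
    rw [hitS_zero]
    have : {w : List Bool | w = [] ∧ G c} = ∅ := by
      ext w; simp [hG]
    rw [this]
    simp
  rw [h0, zero_add, ← ENNReal.tsum_add, div_eq_mul_inv, ← ENNReal.tsum_mul_right]
  congr 1
  funext i
  rw [hitS_succ G h, Nat.cast_add, pow_succ, ENNReal.div_eq_inv_mul, ENNReal.div_eq_inv_mul,
    ENNReal.div_eq_inv_mul, ENNReal.mul_inv (Or.inl (by simp)) (Or.inl (by simp)), ← mul_add]
  ring

theorem hitE_halt {G : M.Conf → Prop} {c : M.Conf} (hl : c.l = none) (h : G c) :
    hitE G c = 1 := by
  unfold hitE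
  rw [tsum_eq_zero_add' (f := fun i => ((hitS G c i).ncard : ENNReal) / 2 ^ i) ENNReal.summable]
  have h1 : ∀ i, hitS G c (i + 1) = ∅ := by
    intro i
    ext w
    simp only [hitS, Set.mem_ofPred_eq, Set.mem_empty_iff_false, iff_false]
    rintro ⟨h1, c', h2, h3⟩
    cases w with
    | nil => simp at h1
    | cons b w =>
      rw [run_cons, step_none b hl] at h2
      simp at h2
  have h0 : {w : List Bool | w = [] ∧ G c} = {[]} := by
    ext w; simp [h]
  simp [hitS_zero, h1, h0]

theorem hitE_halt' {G : M.Conf → Prop} {c : M.Conf} (hl : c.l = none) (h : ¬ G c) :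
    hitE G c = 0 := by
  unfold hitE
  have h1 : ∀ i, hitS G c i = ∅ := by
    intro i
    ext w
    simp only [hitS, Set.mem_ofPred_eq, Set.mem_empty_iff_false, iff_false]
    rintro ⟨h1, c', h2, h3⟩
    cases w with
    | nil =>
      rw [run_nil, Option.some.injEq] at h2
      exact h (h2 ▸ h3)
    | cons b w =>
      rw [run_cons, step_none b hl] at h2
      simp at h2
  simp [h1]

theorem hit_partial (G : M.Conf → Prop) (hG : ∀ c, G c → c.l = none) (N : ℕ) : ∀ c : M.Conf,
    ∑ i ∈ Finset.range N, ((hitS G c i).ncard : ENNReal) / 2 ^ i ≤ 1 := by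
  induction N with
  | zero => intro c; simp
  | succ N ih =>
    intro c
    rw [Finset.sum_range_succ']
    by_cases hc : c.l = none
    · have h1 : ∀ i, hitS G c (i + 1) = ∅ := by
        intro i
        ext w
        simp only [hitS, Set.mem_ofPred_eq, Set.mem_empty_iff_false, iff_false]
        rintro ⟨h1, c', h2, h3⟩
        cases w with
        | nil => simp at h1
        | cons b w =>
          rw [run_cons, step_none b hc] at h2
          simp at h2
      simp only [h1, Set.ncard_empty, Nat.cast_zero, ENNReal.zero_div, Finset.sum_const_zero,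
        zero_add, pow_zero, div_one]
      rw [hitS_zero]
      have : {w : List Bool | w = [] ∧ G c}.ncard ≤ 1 := by
        have h2 := Set.ncard_le_ncard (s := {w : List Bool | w = [] ∧ G c}) (t := {[]})
          (fun w hw => hw.1) (Set.finite_singleton _)
        rwa [Set.ncard_singleton] at h2
      exact_mod_cast this
    · obtain ⟨c0, h0⟩ := step_some (M := M) false hc
      obtain ⟨c1, h1⟩ := step_some (M := M) true hc
      have h : ∀ b, M.step b c = some ((fun b => if b then c1 else c0) b) := by
        intro b; cases b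
        · simpa using h0
        · simpa using h1
      have hz : ((hitS G c 0).ncard : ENNReal) / 2 ^ 0 = 0 := by
        rw [hitS_zero]
        have : {w : List Bool | w = [] ∧ G c} = ∅ := by
          ext w
          simp only [Set.mem_ofPred_eq, Set.mem_empty_iff_false, iff_false, not_and]
          intro _ hg
          exact hc (hG c hg)
        rw [this]
        simp
      rw [hz, add_zero]
      have e : ∀ i ∈ Finset.range N, ((hitS G c (i + 1)).ncard : ENNReal) / 2 ^ (i + 1) =
          (((hitS G c0 i).ncard : ENNReal) / 2 ^ i) * 2⁻¹ +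
          (((hitS G c1 i).ncard : ENNReal) / 2 ^ i) * 2⁻¹ := by
        intro i _
        rw [hitS_succ G h, Nat.cast_add, pow_succ, ENNReal.div_eq_inv_mul, ENNReal.div_eq_inv_mul,
          ENNReal.div_eq_inv_mul, ENNReal.mul_inv (Or.inl (by simp)) (Or.inl (by simp))]
        simp only [Bool.false_eq_true, if_false, if_true]
        ring
      rw [Finset.sum_congr rfl e, Finset.sum_add_distrib, ← Finset.sum_mul, ← Finset.sum_mul]
      calc _ ≤ 1 * 2⁻¹ + 1 * (2⁻¹ : ENNReal) := add_le_add
            (mul_le_mul_left (ih c0) _) (mul_le_mul_left (ih c1) _)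
        _ = 1 := by rw [one_mul]; exact ENNReal.inv_two_add_inv_two

theorem hitE_le_one {G : M.Conf → Prop} (hG : ∀ c, G c → c.l = none) (c : M.Conf) :
    hitE G c ≤ 1 :=
  ENNReal.tsum_le_of_sum_range_le fun N => hit_partial G hG N c

/-- hitting probability, as a real number -/
noncomputable def hit (G : M.Conf → Prop) (c : M.Conf) : ℝ := (hitE G c).toReal

theorem hitE_eq {G : M.Conf → Prop} (hG : ∀ c, G c → c.l = none) (c : M.Conf) :
    hitE G c = ENNReal.ofReal (hit G c) :=
  (ENNReal.ofReal_toReal (ne_top_of_le_ne_top ENNReal.one_ne_top (hitE_le_one hG c))).symm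

theorem hit_coin {G : M.Conf → Prop} (hG : ∀ c, G c → c.l = none) {c : M.Conf} {d : Bool → M.Conf}
    (h : ∀ b, M.step b c = some (d b)) : hit G c = (hit G (d false) + hit G (d true)) / 2 := by
  have hc : ¬ G c := by
    intro hg
    have := h false
    rw [step_none _ (hG c hg)] at this
    simp at this
  have ht : ∀ c, hitE G c ≠ ⊤ := fun c => ne_top_of_le_ne_top ENNReal.one_ne_top (hitE_le_one hG c)
  unfold hit
  rw [hitE_coin hc h, ENNReal.toReal_div, ENNReal.toReal_add (ht _) (ht _)]
  simp

theorem hit_step {G : M.Conf → Prop} (hG : ∀ c, G c → c.l = none) {c d : M.Conf}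
    (h : ∀ b, M.step b c = some d) : hit G c = hit G d := by
  rw [hit_coin hG (d := fun _ => d) h]
  ring

theorem hit_seg {G : M.Conf → Prop} (hG : ∀ c, G c → c.l = none) (t : ℕ) : ∀ {c d : M.Conf},
    (∀ w : List Bool, w.length = t → M.run c w = some d) → hit G c = hit G d := by
  induction t with
  | zero =>
    intro c d h
    have := h [] rfl
    rw [run_nil, Option.some.injEq] at this
    rw [this]
  | succ t ih =>
    intro c d h
    have hc : c.l ≠ none := by
      intro hc
      have := h (List.replicate (t + 1) false) (by simp)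
      rw [List.replicate_succ, run_cons, step_none _ hc] at this
      simp at this
    obtain ⟨c0, h0⟩ := step_some (M := M) false hc
    obtain ⟨c1, h1⟩ := step_some (M := M) true hc
    have i0 : hit G c0 = hit G d := ih fun w hw => by
      have := h (false :: w) (by simp [hw])
      rw [run_cons, h0] at this
      exact this
    have i1 : hit G c1 = hit G d := ih fun w hw => by
      have := h (true :: w) (by simp [hw])
      rw [run_cons, h1] at this
      exact this
    rw [hit_coin hG (c := c) (d := fun b => if b then c1 else c0) (by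
      intro b; cases b
      · simpa using h0
      · simpa using h1)]
    simp only [Bool.false_eq_true, if_false, if_true]
    rw [i0, i1]
    ring

theorem hit_halt {G : M.Conf → Prop} {c : M.Conf} (hl : c.l = none) (h : G c) : hit G c = 1 := by
  unfold hit
  rw [hitE_halt hl h]
  rfl

theorem hit_halt' {G : M.Conf → Prop} {c : M.Conf} (hl : c.l = none) (h : ¬ G c) :
    hit G c = 0 := by
  unfold hit
  rw [hitE_halt' hl h]
  rfl

end Pool.Agent.Q226.SS
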