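import Pool.Agent.H442R3.SD.Prm
import Mathlib

set_option autoImplicit false

/-!
# Independence over the rationals is witnessed by a small prime
-/

namespace Pool.Agent.Q226.SS

open Matrix Finset

/-- the kernel is trivial over the field `K` -/
def TK (K : Type) [Field K] {m n : ℕ} (A : Matrix (Fin m) (Fin n) ℤ) : Prop :=
  ∀ y : Fin n → K, (∀ i, ∑ j, (A i j : K) * y j = 0) → y = 0

theorem TK_of_prime {m n : ℕ} (A : Matrix (Fin m) (Fin n) ℤ) (p : ℕ) [Fact p.Prime]
    (h : TK (ZMod p) A) : TK ℚ A := by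
  intro y hy
  by_contra hne
  obtain ⟨j0, hj0⟩ : ∃ j, y j ≠ 0 := by
    by_contra hcon
    push Not at hcon
    exact hne (funext hcon)
  obtain ⟨b, hb⟩ := IsLocalization.exist_integer_multiples_of_finite (nonZeroDivisors ℤ) y
  choose z hz using hb
  have hb0 : (b : ℤ) ≠ 0 := nonZeroDivisors.coe_ne_zero b
  have hz' : ∀ j, (z j : ℚ) = (b : ℤ) * y j := by
    intro j
    have := hz j
    rw [zsmul_eq_mul] at this
    exact this
  have hAz : ∀ i, ∑ j, A i j * z j = 0 := by
    intro i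
    have h1 : ((∑ j, A i j * z j : ℤ) : ℚ) = 0 := by
      push_cast
      have : ∑ j, (A i j : ℚ) * (z j : ℚ) = (b : ℤ) * ∑ j, (A i j : ℚ) * y j := by
        rw [Finset.mul_sum]
        apply Finset.sum_congr rfl
        intro j _
        rw [hz' j]
        ring
      rw [this, hy i, mul_zero]
    exact_mod_cast h1
  have hz0 : z j0 ≠ 0 := by
    intro h0
    have := hz' j0
    rw [h0] at this
    have h2 : ((b : ℤ) : ℚ) * y j0 = 0 := by rw [← this]; simp
    rcases mul_eq_zero.1 h2 with h3 | h3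
    · exact hb0 (by exact_mod_cast h3)
    · exact hj0 h3
  obtain ⟨g, hg, hg1⟩ := Finset.extract_gcd (s := (Finset.univ : Finset (Fin n))) z ⟨j0, mem_univ _⟩
  set G := (Finset.univ : Finset (Fin n)).gcd z with hG
  have hG0 : G ≠ 0 := by
    intro h0
    have := hg j0 (mem_univ _)
    rw [h0, zero_mul] at this
    exact hz0 this
  have hAg : ∀ i, ∑ j, A i j * g j = 0 := by
    intro i
    have h1 : G * ∑ j, A i j * g j = 0 := by
      rw [← hAz i, Finset.mul_sum]
      apply Finset.sum_congr rfl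
      intro j _
      rw [hg j (mem_univ _)]
      ring
    exact (mul_eq_zero.1 h1).resolve_left hG0
  have h1 := h (fun j => (g j : ZMod p)) (by
    intro i
    have := congrArg (fun x : ℤ => (x : ZMod p)) (hAg i)
    push_cast at this
    exact this)
  have h2 : ∀ j, (p : ℤ) ∣ g j := by
    intro j
    have := congrFun h1 j
    simp only [Pi.zero_apply] at this
    exact (ZMod.intCast_zmod_eq_zero_iff_dvd _ _).1 this
  have h3 : (p : ℤ) ∣ (Finset.univ : Finset (Fin n)).gcd g := Finset.dvd_gcd fun j _ => h2 j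
  rw [hg1] at h3
  have hp := (Fact.out : p.Prime).one_lt
  have := Int.le_of_dvd one_pos h3
  omega

/-- exponent bounding the Gram determinant -/
def bb (L : ℕ) : ℕ := 3 * L * L + 1

/-- bound for the primes -/
def tq (L : ℕ) : ℕ := (bb L + 4) * (bb L + 4)

theorem exists_prime_TK {m n : ℕ} (A : Matrix (Fin m) (Fin n) ℤ) (hA : ∀ i j, |A i j| ≤ 1)
    {L : ℕ} (hn : n ≤ L) (hm : m ≤ 2 * L) (h : TK ℚ A) :
    ∃ p, p.Prime ∧ p ≤ tq L ∧ ∀ _ : Fact p.Prime, TK (ZMod p) A := by
  set G : Matrix (Fin n) (Fin n) ℤ := Aᵀ * A with hG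
  -- the determinant is not zero
  have hdet : G.det ≠ 0 := by
    intro h0
    have h1 : (G.map (Int.castRingHom ℚ)).det = 0 := by
      have h2 := RingHom.map_det (Int.castRingHom ℚ) G
      rw [h0, map_zero] at h2
      exact h2.symm
    obtain ⟨v, hv, hv2⟩ := Matrix.exists_mulVec_eq_zero_iff.2 h1
    apply hv
    apply h v
    have h3 : G.map (Int.castRingHom ℚ) = (A.map (Int.castRingHom ℚ))ᵀ * A.map (Int.castRingHom ℚ) := by
      rw [hG, Matrix.map_mul, Matrix.transpose_map]
    rw [h3] at hv2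
    have h4 : v ∈ LinearMap.ker ((A.map (Int.castRingHom ℚ))ᵀ * A.map (Int.castRingHom ℚ)).mulVecLin := by
      rw [LinearMap.mem_ker, Matrix.mulVecLin_apply]
      exact hv2
    rw [Matrix.ker_mulVecLin_transpose_mul_self, LinearMap.mem_ker, Matrix.mulVecLin_apply] at h4
    intro i
    have := congrFun h4 i
    exact this
  -- bound
  have hent : ∀ i j, (AbsoluteValue.abs : AbsoluteValue ℤ ℤ) (G i j) ≤ (2 * L : ℕ) := by
    intro i j
    change |G i j| ≤ _
    rw [hG, Matrix.mul_apply]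
    calc |∑ k, Aᵀ i k * A k j| ≤ ∑ k, |Aᵀ i k * A k j| := Finset.abs_sum_le_sum_abs _ _
      _ ≤ ∑ k : Fin m, (1 : ℤ) := by
        apply Finset.sum_le_sum
        intro k _
        rw [abs_mul, Matrix.transpose_apply]
        exact mul_le_one₀ (hA _ _) (abs_nonneg _) (hA _ _)
      _ = m := by simp
      _ ≤ (2 * L : ℕ) := by exact_mod_cast hm
  have hb : G.det.natAbs < 2 ^ bb L := by
    have h1 := Matrix.det_le hent
    rw [Fintype.card_fin] at h1
    change |G.det| ≤ _ at h1
    have h2 : (G.det.natAbs : ℤ) ≤ ((n.factorial * (2 * L) ^ n : ℕ) : ℤ) := by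
      rw [Int.natCast_natAbs]
      refine h1.trans (le_of_eq ?_)
      push_cast
      simp
    have h3 : G.det.natAbs ≤ n.factorial * (2 * L) ^ n := by exact_mod_cast h2
    refine lt_of_le_of_lt h3 ?_
    have h4 : n.factorial ≤ 2 ^ (L * L) := by
      calc n.factorial ≤ n ^ n := Nat.factorial_le_pow n
        _ ≤ (2 ^ n) ^ n := Nat.pow_le_pow_left Nat.lt_two_pow_self.le _
        _ = 2 ^ (n * n) := by rw [← pow_mul]
        _ ≤ _ := Nat.pow_le_pow_right (by norm_num) (Nat.mul_le_mul hn hn)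
    have h5 : (2 * L) ^ n ≤ 2 ^ (2 * L * L) := by
      calc (2 * L) ^ n ≤ (2 ^ (2 * L)) ^ n := Nat.pow_le_pow_left Nat.lt_two_pow_self.le _
        _ = 2 ^ (2 * L * n) := by rw [← pow_mul]
        _ ≤ _ := Nat.pow_le_pow_right (by norm_num) (Nat.mul_le_mul_left _ hn)
    calc n.factorial * (2 * L) ^ n ≤ 2 ^ (L * L) * 2 ^ (2 * L * L) := Nat.mul_le_mul h4 h5
      _ = 2 ^ (3 * L * L) := by rw [← pow_add]; congr 1; ring
      _ < 2 ^ bb L := Nat.pow_lt_pow_right (by norm_num) (by unfold bb; omega)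
  obtain ⟨p, hp, _, hle, hnd⟩ := Pool.Agent.H442R3.SD.exists_prime 0 (bb L) G.det hdet hb
    (bb L + 4) (by omega)
  refine ⟨p, hp, hle, fun _ => ?_⟩
  intro y hy
  have h1 : (G.map (Int.castRingHom (ZMod p))).det ≠ 0 := by
    have h2 := RingHom.map_det (Int.castRingHom (ZMod p)) G
    intro h3
    apply hnd
    rw [← ZMod.intCast_zmod_eq_zero_iff_dvd]
    have h4 : (Int.castRingHom (ZMod p)) G.det = (G.map (Int.castRingHom (ZMod p))).det := h2
    rw [h3] at h4
    exact h4
  apply Matrix.eq_zero_of_mulVec_eq_zero h1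
  have h3 : G.map (Int.castRingHom (ZMod p)) =
      (A.map (Int.castRingHom (ZMod p)))ᵀ * A.map (Int.castRingHom (ZMod p)) := by
    rw [hG, Matrix.map_mul, Matrix.transpose_map]
  rw [h3, ← Matrix.mulVec_mulVec]
  have h4 : A.map (Int.castRingHom (ZMod p)) *ᵥ y = 0 := by
    funext i
    exact hy i
  rw [h4, Matrix.mulVec_zero]

end Pool.Agent.Q226.SS
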