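import Pool.Agent.Q226.SS.Hit
import Pool.Agent.Q226.SS.Av

set_option autoImplicit false

/-!
# The two-stage machine
-/

namespace Pool.Agent.Q226.SS

open Turing Function NPC Pool.Agent.H591R2 CoinMachine

section

variable {N₀ : ℕ} {cA cC : Cmd (Fin (N₀ + 2))} {x x' : List Bool} {k tA : ℕ} {τ : ℕ → ℕ}

/-- result of one round, as a string -/
def resS (x' : List Bool) : List Bool ⊕ ℕ → List Bool
  | Sum.inl y => true :: y
  | Sum.inr k => false :: head k x'

/-- the hypotheses on the two programs, for the input `x` -/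
structure Spec2 (cA cC : Cmd (Fin (N₀ + 2))) (x x' : List Bool) (k₀ tA : ℕ) (τ : ℕ → ℕ)
    (G : List Bool → List Bool ⊕ ℕ) : Prop where
  runA : Run cA (inp x) (inp (head k₀ x')) tA
  runC : ∀ r : List Bool, ∃ t ≤ τ r.length, Run cC (inp (pairBits r x')) (inp (resS x' (G r))) t

/-- halted with output `y` -/
def Fin' (cA cC : Cmd (Fin (N₀ + 2))) (y : List Bool) (c : (lvMachine cA cC).Conf) : Prop :=
  ∃ v, c = mkc cA cC none v (update (fun _ => []) 0 y)

theorem fin_halt (y : List Bool) (c : (lvMachine cA cC).Conf) (h : Fin' cA cC y c) :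
    c.l = none := by
  obtain ⟨v, rfl⟩ := h
  rfl

theorem outProb_eq (y : List Bool) : outProb (lvMachine cA cC) x y =
    hitE (Fin' cA cC y) ((lvMachine cA cC).start x) := by
  unfold outProb hitE
  congr 1
  funext i
  congr 3
  ext w
  simp only [hitS, Set.mem_ofPred_eq]
  constructor
  · rintro ⟨h1, v, h2⟩
    exact ⟨h1, _, h2, v, rfl⟩
  · rintro ⟨h1, c', h2, v, rfl⟩
    exact ⟨h1, v, h2⟩

/-- truncated expected time from a request -/
noncomputable def ET (cA cC : Cmd (Fin (N₀ + 2))) (x' : List Bool) (N k : ℕ) : ℝ :=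
  eT N (cfg cA cC 1 (head k x') [])

/-- probability of the output `y` from a request -/
noncomputable def PP (cA cC : Cmd (Fin (N₀ + 2))) (x' y : List Bool) (k : ℕ) : ℝ :=
  hit (Fin' cA cC y) (cfg cA cC 1 (head k x') [])

theorem ET_nonneg (N k : ℕ) : 0 ≤ ET cA cC x' N k := eT_nonneg _ _

theorem out_eq (y' y : List Bool) :
    hit (Fin' cA cC y) (mkc cA cC none none (st2 y' [])) = if y' = y then 1 else 0 := by
  split_ifs with h
  · subst h
    refine hit_halt rfl ⟨none, ?_⟩
    rw [st2_nil]
  · refine hit_halt' rfl ?_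
    rintro ⟨v, hv⟩
    apply h
    have h1 : (st2 y' [] : Fin (N₀ + 2) → List Bool) = update (fun _ => []) 0 y := by
      have := congrArg (fun c : (lvMachine cA cC).Conf => c.stk) hv
      exact this
    have h2 := congrFun h1 0
    rw [st2_zero] at h2
    simpa using h2

/-- continuation, for the time -/
noncomputable def contE (E : ℕ → ℝ) : List Bool ⊕ ℕ → ℝ
  | Sum.inl _ => 0
  | Sum.inr k => E k

/-- continuation, for the probability -/
noncomputable def contP (y : List Bool) (E : ℕ → ℝ) : List Bool ⊕ ℕ → ℝ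
  | Sum.inl y' => if y' = y then 1 else 0
  | Sum.inr k => E k

variable {G : List Bool → List Bool ⊕ ℕ}

theorem eT_body2 (h : Spec2 cA cC x x' k tA τ G) (N : ℕ) (l : List Bool) :
    eT N (cfg cA cC 1 (false :: x') l) ≤ (l.length : ℝ) + 3 + τ l.length +
      contE (ET cA cC x' N) (G l.reverse) := by
  have h1 := eT_step N (fun b => step_one_false cA cC b x' l)
  have h2 := eT_two (cA := cA) (cC := cC) N l (false :: x')
  rw [pairBits_eq] at h2
  obtain ⟨t, ht, hrun⟩ := h.runC l.reverse
  rw [inp_eq, inp_eq] at hrun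
  obtain ⟨v', hseg⟩ := code_seg hrun (lvProg cA cC) (fun l => Sum.inr (Sum.inl l)) (ctl cA cC 3)
    (fun _ _ => rfl) none
  have h3 := eT_seg N t (seg_run cA cC hseg)
  have ht' : (t : ℝ) ≤ τ l.length := by
    rw [List.length_reverse] at ht
    exact_mod_cast ht
  cases hG : G l.reverse with
  | inl y =>
    rw [hG] at h3
    simp only [resS] at h3
    have h4 := eT_step N (fun b => step_three_true cA cC b v' y)
    rw [eT_halt N (c := mkc cA cC none none (st2 y [])) rfl] at h4
    simp only [contE]
    linarith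
  | inr k' =>
    rw [hG] at h3
    simp only [resS] at h3
    have h4 := eT_step N (fun b => step_three_false cA cC b v' (head k' x'))
    simp only [contE]
    unfold ET
    linarith

/-- recursion for the expected time -/
theorem ET_rec (h : Spec2 cA cC x x' k tA τ G) (N j : ℕ) :
    ET cA cC x' N j ≤ ((2 * j + 3 + τ j : ℕ) : ℝ) +
      av j (fun r => contE (ET cA cC x' N) (G r)) := by
  have h1 := eT_toss (cA := cA) (cC := cC) (x' := x') N j []
  have h2 : avg j (fun l => eT N (cfg cA cC 1 (false :: x') l)) [] ≤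
      avg j (fun l => (fun r => ((j : ℝ) + 3 + τ j) + contE (ET cA cC x' N) (G r)) l.reverse)
        [] := by
    apply avg_mono
    intro l hl
    have hl' : l.length = j := by simpa using hl
    have := eT_body2 h N l
    rw [hl'] at this
    exact this
  rw [avg_eq_av' j (fun r => ((j : ℝ) + 3 + τ j) + contE (ET cA cC x' N) (G r)), av_add,
    av_const] at h2
  have h6 : ET cA cC x' N j = eT N (cfg cA cC 1 (head j x') []) := rfl
  rw [h6]
  push_cast
  linarith

theorem hit_two (y : List Bool) : ∀ v u : List Bool, hit (Fin' cA cC y) (cfg cA cC 2 u v) =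
    hit (Fin' cA cC y) (mkc cA cC (some (Sum.inr (Sum.inl cC.entry))) none
      (st2 (v.reverse.flatMap (fun b => [true, b]) ++ u) [])) := by
  intro v
  induction v with
  | nil =>
    intro u
    exact hit_step (fin_halt y) (fun b => step_two_nil cA cC b u)
  | cons a v ih =>
    intro u
    have h1 := hit_step (fin_halt y) (fun b => step_two_cons cA cC b a u v)
    rw [h1, ih]
    congr 2
    simp

theorem hit_body (h : Spec2 cA cC x x' k tA τ G) (y l : List Bool) :
    hit (Fin' cA cC y) (cfg cA cC 1 (false :: x') l) = contP y (PP cA cC x' y) (G l.reverse) := by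
  have h1 := hit_step (fin_halt y) (fun b => step_one_false cA cC b x' l)
  have h2 := hit_two (cA := cA) (cC := cC) y l (false :: x')
  rw [pairBits_eq] at h2
  obtain ⟨t, ht, hrun⟩ := h.runC l.reverse
  rw [inp_eq, inp_eq] at hrun
  obtain ⟨v', hseg⟩ := code_seg hrun (lvProg cA cC) (fun l => Sum.inr (Sum.inl l)) (ctl cA cC 3)
    (fun _ _ => rfl) none
  have h3 := hit_seg (fin_halt y) t (seg_run cA cC hseg)
  rw [h1, h2, h3]
  cases hG : G l.reverse with
  | inl y' =>
    simp only [resS, contP]
    rw [hit_step (fin_halt y) (fun b => step_three_true cA cC b v' y'), out_eq]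
  | inr k' =>
    simp only [resS, contP]
    rw [hit_step (fin_halt y) (fun b => step_three_false cA cC b v' (head k' x'))]
    rfl

theorem hit_toss (y : List Bool) : ∀ (j : ℕ) (acc : List Bool),
    hit (Fin' cA cC y) (cfg cA cC 1 (head j x') acc) =
      avg j (fun l => hit (Fin' cA cC y) (cfg cA cC 1 (false :: x') l)) acc := by
  intro j
  induction j with
  | zero => intro acc; simp [head, avg]
  | succ j ih =>
    intro acc
    have h1 := hit_coin (fin_halt y) (fun b => step_one_true cA cC b (head j x') acc)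
    have e : true :: head j x' = head (j + 1) x' := rfl
    rw [e] at h1
    rw [h1, ih, ih]
    rfl

/-- recursion for the probability -/
theorem PP_rec (h : Spec2 cA cC x x' k tA τ G) (y : List Bool) (j : ℕ) :
    PP cA cC x' y j = av j (fun r => contP y (PP cA cC x' y) (G r)) := by
  rw [← avg_eq_av' j (fun r => contP y (PP cA cC x' y) (G r))]
  have h6 : PP cA cC x' y j = hit (Fin' cA cC y) (cfg cA cC 1 (head j x') []) := rfl
  rw [h6, hit_toss]
  congr 1
  funext l
  exact hit_body h y l

theorem start_time (h : Spec2 cA cC x x' k tA τ G) (N : ℕ) :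
    eT N ((lvMachine cA cC).start x) ≤ tA + 1 + ET cA cC x' N k := by
  obtain ⟨v', hseg⟩ := code_seg h.runA (lvProg cA cC) Sum.inl (ctl cA cC 0) (fun _ _ => rfl) none
  have h1 := eT_seg N tA (seg_run cA cC hseg)
  rw [inp_eq (head k x')] at h1
  have h2 := eT_step N (fun b => step_zero cA cC b v' (head k x'))
  rw [start_eq]
  unfold ET
  linarith

theorem start_prob (h : Spec2 cA cC x x' k tA τ G) (y : List Bool) :
    outProb (lvMachine cA cC) x y = ENNReal.ofReal (PP cA cC x' y k) := by
  rw [outProb_eq, hitE_eq (fin_halt y)]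
  congr 1
  obtain ⟨v', hseg⟩ := code_seg h.runA (lvProg cA cC) Sum.inl (ctl cA cC 0) (fun _ _ => rfl) none
  have h1 := hit_seg (fin_halt y) tA (seg_run cA cC hseg)
  rw [inp_eq (head k x')] at h1
  have h2 := hit_step (fin_halt y) (fun b => step_zero cA cC b v' (head k x'))
  rw [start_eq, h1, h2]
  rfl

end

end Pool.Agent.Q226.SS
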