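import Pool.Agent.Q226.SS.Machine

set_option autoImplicit false

/-!
# Analysis of the two-stage machine
-/

namespace Pool.Agent.Q226.SS

open Turing Function NPC Pool.Agent.H591R2 CoinMachine

/-- success with output `y` -/
noncomputable def indO (y : List Bool) (o : Option (List Bool)) : ℝ := if o = some y then 1 else 0

/-- failure -/
noncomputable def nonO (o : Option (List Bool)) : ℝ := if o = none then 1 else 0

/-- one round of the algorithm: first the stage `fA` (with `kA` coins), then the number of coins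
is doubled until it is at least `B`, then the stage `fB` is repeated until it succeeds -/
def rnd (kA B : ℕ) (fA fB : List Bool → Option (List Bool)) (r : List Bool) : List Bool ⊕ ℕ :=
  if r.length = kA then (fA r).elim (Sum.inr (2 * kA)) Sum.inl
  else if r.length < B then Sum.inr (2 * r.length)
  else (fB r).elim (Sum.inr r.length) Sum.inl

theorem contP_elim (y : List Bool) (E : ℕ → ℝ) (k : ℕ) (o : Option (List Bool)) :
    contP y E (o.elim (Sum.inr k) Sum.inl) = indO y o + nonO o * E k := by
  cases o with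
  | none => simp [contP, indO, nonO]
  | some z => simp [contP, indO, nonO]

theorem contE_elim (E : ℕ → ℝ) (k : ℕ) (o : Option (List Bool)) :
    contE E (o.elim (Sum.inr k) Sum.inl) = nonO o * E k := by
  cases o with
  | none => simp [contE, nonO]
  | some z => simp [contE, nonO]

theorem nonO_nonneg (o : Option (List Bool)) : 0 ≤ nonO o := by
  unfold nonO; split_ifs <;> norm_num

section

variable {N₀ : ℕ} {cA cC : Cmd (Fin (N₀ + 2))} {x x' : List Bool} {kA B tA : ℕ} {τ : ℕ → ℕ}
  {fA fB : List Bool → Option (List Bool)}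

theorem PP_A (h : Spec2 cA cC x x' kA tA τ (rnd kA B fA fB)) (y : List Bool) :
    PP cA cC x' y kA = av kA (fun r => indO y (fA r)) +
      av kA (fun r => nonO (fA r)) * PP cA cC x' y (2 * kA) := by
  rw [PP_rec h y kA, ← av_mul_right, ← av_add]
  apply av_congr
  intro r hr
  rw [rnd, if_pos hr, contP_elim]

theorem PP_mid (h : Spec2 cA cC x x' kA tA τ (rnd kA B fA fB)) (y : List Bool) {k : ℕ}
    (hk : kA < k) (hB : k < B) : PP cA cC x' y k = PP cA cC x' y (2 * k) := by
  rw [PP_rec h y k, ← av_const k (PP cA cC x' y (2 * k))]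
  apply av_congr
  intro r hr
  rw [rnd, if_neg (by omega), if_pos (by omega), hr]
  rfl

theorem PP_B (h : Spec2 cA cC x x' kA tA τ (rnd kA B fA fB)) (y : List Bool) {k : ℕ}
    (hk : kA < k) (hB : B ≤ k) : PP cA cC x' y k = av k (fun r => indO y (fB r)) +
      av k (fun r => nonO (fB r)) * PP cA cC x' y k := by
  conv_lhs => rw [PP_rec h y k]
  rw [← av_mul_right, ← av_add]
  apply av_congr
  intro r hr
  rw [rnd, if_neg (by omega), if_neg (by omega), contP_elim, hr]

theorem ET_A (h : Spec2 cA cC x x' kA tA τ (rnd kA B fA fB)) (N : ℕ) :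
    ET cA cC x' N kA ≤ ((2 * kA + 3 + τ kA : ℕ) : ℝ) +
      av kA (fun r => nonO (fA r)) * ET cA cC x' N (2 * kA) := by
  refine (ET_rec h N kA).trans (le_of_eq ?_)
  rw [← av_mul_right]
  congr 1
  apply av_congr
  intro r hr
  rw [rnd, if_pos hr, contE_elim]

theorem ET_mid (h : Spec2 cA cC x x' kA tA τ (rnd kA B fA fB)) (N : ℕ) {k : ℕ}
    (hk : kA < k) (hB : k < B) :
    ET cA cC x' N k ≤ ((2 * k + 3 + τ k : ℕ) : ℝ) + ET cA cC x' N (2 * k) := by
  refine (ET_rec h N k).trans (le_of_eq ?_)
  congr 1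
  refine (av_congr k ?_).trans (av_const k _)
  intro r hr
  rw [rnd, if_neg (by omega), if_pos (by omega), hr]
  rfl

theorem ET_B (h : Spec2 cA cC x x' kA tA τ (rnd kA B fA fB)) (N : ℕ) {k : ℕ}
    (hk : kA < k) (hB : B ≤ k) (hq : av k (fun r => nonO (fB r)) ≤ 1 / 2) :
    ET cA cC x' N k ≤ 2 * ((2 * k + 3 + τ k : ℕ) : ℝ) := by
  have h1 := ET_rec h N k
  have h2 : av k (fun r => contE (ET cA cC x' N) (rnd kA B fA fB r)) =
      av k (fun r => nonO (fB r)) * ET cA cC x' N k := by
    rw [← av_mul_right]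
    apply av_congr
    intro r hr
    rw [rnd, if_neg (by omega), if_neg (by omega), contE_elim, hr]
  rw [h2] at h1
  have h3 := ET_nonneg (cA := cA) (cC := cC) (x' := x') N k
  have h4 : av k (fun r => nonO (fB r)) * ET cA cC x' N k ≤ 1 / 2 * ET cA cC x' N k :=
    mul_le_mul_of_nonneg_right hq h3
  linarith

theorem two_prob (h : Spec2 cA cC x x' kA tA τ (rnd kA B fA fB)) (hkA : 1 ≤ kA) (y : List Bool)
    {β : ℝ} (hq : ∀ k, kA < k → B ≤ k → av k (fun r => nonO (fB r)) ≤ 1 / 2)
    (hβ : ∀ k, kA < k → B ≤ k →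
      av k (fun r => indO y (fB r)) = (1 - av k (fun r => nonO (fB r))) * β) :
    PP cA cC x' y kA = av kA (fun r => indO y (fA r)) + av kA (fun r => nonO (fA r)) * β := by
  have key : ∀ (j k : ℕ), kA < k → B ≤ k + j → PP cA cC x' y k = β := by
    intro j
    induction j using Nat.strong_induction_on with
    | _ j ih =>
      intro k hk hj
      by_cases hB : B ≤ k
      · have h1 := PP_B h y hk hB
        have h2 := hq k hk hB
        rw [hβ k hk hB] at h1
        have h3 : (1 - av k (fun r => nonO (fB r))) * (PP cA cC x' y k - β) = 0 := by linarith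
        rcases mul_eq_zero.1 h3 with h4 | h4
        · linarith
        · linarith
      · push Not at hB
        rw [PP_mid h y hk hB]
        exact ih (j - k) (by omega) (2 * k) (by omega) (by omega)
  rw [PP_A h y, key B (2 * kA) (by omega) (by omega)]

theorem two_time (h : Spec2 cA cC x x' kA tA τ (rnd kA B fA fB)) (hkA : 1 ≤ kA) (hτ : Monotone τ)
    (hq : ∀ k, kA < k → B ≤ k → av k (fun r => nonO (fB r)) ≤ 1 / 2) {n : ℕ} (hn : B ≤ 2 ^ n)
    (N : ℕ) : eT N ((lvMachine cA cC).start x) ≤ tA + 1 + ((2 * kA + 3 + τ kA : ℕ) : ℝ) +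
      av kA (fun r => nonO (fA r)) *
        ((n + 2) * ((2 * (2 * B + 2 * kA) + 3 + τ (2 * B + 2 * kA) : ℕ) : ℝ)) := by
  set C : ℝ := ((2 * (2 * B + 2 * kA) + 3 + τ (2 * B + 2 * kA) : ℕ) : ℝ) with hC
  have hC0 : 0 ≤ C := by rw [hC]; positivity
  have hck : ∀ k, k ≤ 2 * B + 2 * kA → ((2 * k + 3 + τ k : ℕ) : ℝ) ≤ C := by
    intro k hk
    rw [hC]
    have := hτ hk
    exact_mod_cast (by omega : 2 * k + 3 + τ k ≤ 2 * (2 * B + 2 * kA) + 3 + τ (2 * B + 2 * kA))
  have key : ∀ (j k : ℕ), kA < k → k ≤ 2 * B + 2 * kA → B ≤ 2 ^ j * k →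
      ET cA cC x' N k ≤ (j + 2) * C := by
    intro j
    induction j with
    | zero =>
      intro k hk hk2 hj
      have hB : B ≤ k := by simpa using hj
      have h1 := ET_B h N hk hB (hq k hk hB)
      have h2 := hck k hk2
      push_cast
      linarith
    | succ j ih =>
      intro k hk hk2 hj
      by_cases hB : B ≤ k
      · have h1 := ET_B h N hk hB (hq k hk hB)
        have h2 := hck k hk2
        have h3 : (0 : ℝ) ≤ (j + 1) * C := by positivity
        push_cast
        linarith
      · push Not at hB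
        have h1 := ET_mid h N hk hB
        have h2 := hck k hk2
        have h3 := ih (2 * k) (by omega) (by omega) (by
          rw [pow_succ] at hj
          calc B ≤ 2 ^ j * 2 * k := hj
            _ = 2 ^ j * (2 * k) := by ring)
        push_cast
        linarith
  have h1 := key n (2 * kA) (by omega) (by omega) (by
    calc B ≤ 2 ^ n := hn
      _ ≤ 2 ^ n * (2 * kA) := Nat.le_mul_of_pos_right _ (by omega))
  have h2 := ET_A h N
  have h3 := start_time h N
  have h4 : 0 ≤ av kA (fun r => nonO (fA r)) := av_nonneg kA fun r => nonO_nonneg _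
  have h5 := mul_le_mul_of_nonneg_left h1 h4
  linarith

end

end Pool.Agent.Q226.SS
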