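import Pool.Agent.Q226.SS.Walk
import Pool.Agent.Q226.SS.Stage

set_option autoImplicit false

/-!
# The two stages and their probabilities
-/

namespace Pool.Agent.Q226.SS

open NPC Pool.Agent.H591R2

/-- first stage -/
def stA (n e s : ℕ) (isb : List Bool → Bool) (B₀ : List Bool) (out : List Bool → List Bool)
    (r : List Bool) : Option (List Bool) :=
  if (r.take s).any id = true then some (out (walk n e isb (TT n e s) B₀ (r.drop s))) else none

/-- weights -/
def wgt (s T Mt v : ℕ) : ℕ := 2 ^ s * Mt - (2 ^ s - 1) * (v * T)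

/-- second stage, for a list of states `L` -/
def stB (n e s : ℕ) (isb : List Bool → Bool) (B₀ : List Bool) (out : List Bool → List Bool)
    (L : List (List Bool)) (r : List Bool) : Option (List Bool) :=
  if valB r < 2 ^ r.length / (L.length * (4 ^ e) ^ TT n e s) * (L.length * (4 ^ e) ^ TT n e s)
  then (pick (L.zip (((dpF n e isb L)^[TT n e s] (dp0 L B₀)).map
    (wgt s L.length ((4 ^ e) ^ TT n e s)))) (valB r % (L.length * (4 ^ e) ^ TT n e s))).map out
  else none

/-- the list of states that is computed from `k` coins -/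
def Lk (n : ℕ) (isb : List Bool → Bool) (k : ℕ) : List (List Bool) :=
  (((List.range k).filter (fun R => decide (R < 2 ^ n))).map (msk n)).filter isb

theorem Lk_eq (n : ℕ) (isb : List Bool → Bool) {k : ℕ} (hk : 2 ^ n ≤ k) : Lk n isb k = Ms n isb := by
  unfold Lk Ms mall
  congr 2
  obtain ⟨d, rfl⟩ := Nat.exists_eq_add_of_le hk
  rw [List.range_add, List.filter_append]
  have h1 : (List.range (2 ^ n)).filter (fun k => decide (k < 2 ^ n)) = List.range (2 ^ n) := by
    rw [List.filter_eq_self]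
    intro k hk
    simpa using hk
  have h2 : ((List.range d).map (fun x => 2 ^ n + x)).filter (fun k => decide (k < 2 ^ n)) = [] := by
    rw [List.filter_eq_nil_iff]
    intro k hk
    simp at hk ⊢
    omega
  rw [h1, h2, List.append_nil]

section

variable {n e s : ℕ} {isb : List Bool → Bool} {B₀ : List Bool} {out : List Bool → List Bool}
  {l : ℕ}

theorem stA_non : av (s + 2 * e * TT n e s) (fun r => nonO (stA n e s isb B₀ out r)) =
    (1 / 2) ^ s := by
  rw [av_append, ← av_any s]
  apply av_congr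
  intro u hu
  rw [← av_const (2 * e * TT n e s) (if u.any id = true then (0 : ℝ) else 1)]
  apply av_congr
  intro v _
  unfold stA nonO
  rw [← hu, List.take_left]
  split_ifs <;> simp_all

theorem stA_ind (hB : B₀ ∈ Om n isb)
    (hinj : ∀ B ∈ Om n isb, ∀ C ∈ Om n isb, out B = out C → B = C) {C : List Bool}
    (hC : C ∈ Om n isb) :
    av (s + 2 * e * TT n e s) (fun r => indO (out C) (stA n e s isb B₀ out r)) =
    (1 - (1 / 2) ^ s) * uu n e isb B₀ (TT n e s) C := by
  have h1 : av s (fun u => 1 - if u.any id = true then (0 : ℝ) else 1) = 1 - (1 / 2) ^ s := by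
    rw [av_sub, av_const, av_any]
  rw [av_append, ← h1, ← av_mul_right]
  apply av_congr
  intro u hu
  unfold uu
  rw [← av_mul]
  apply av_congr
  intro v _
  have htake : (u ++ v).take s = u := by rw [← hu, List.take_left]
  have hdrop : (u ++ v).drop s = v := by rw [← hu, List.drop_left]
  unfold stA indO
  rw [htake, hdrop]
  by_cases h2 : u.any id = true
  · rw [if_pos h2, if_pos h2, sub_zero, one_mul]
    by_cases h3 : walk n e isb (TT n e s) B₀ v = C
    · rw [h3]; simp
    · rw [if_neg h3, if_neg]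
      intro h4
      exact h3 (hinj _ (walk_mem hB _ _) _ hC (Option.some.inj h4))
  · rw [if_neg h2, if_neg h2]
    simp

theorem zip_pair (f : List Bool → ℕ) : ∀ L : List (List Bool),
    L.zip (L.map f) = L.map (fun C => (C, f C)) := by
  intro L
  induction L with
  | nil => rfl
  | cons a L ih => rw [List.map_cons, List.zip_cons_cons, List.map_cons, ih]

/-- weight of a state -/
def WW (n e s : ℕ) (isb : List Bool → Bool) (B₀ C : List Bool) : ℕ :=
  wgt s (Ms n isb).length ((4 ^ e) ^ TT n e s) (VV n e isb (Ms n isb) B₀ (TT n e s) C)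

theorem four_pow (e : ℕ) : ((4 : ℝ) ^ e) = 2 ^ (2 * e) := by rw [pow_mul]; norm_num

theorem WW_real (h : IsMat n isb l) (hn : 2 * n ≤ 2 ^ e) (hB : B₀ ∈ Om n isb) {C : List Bool}
    (hC : C ∈ Om n isb) : (WW n e s isb B₀ C : ℝ) = ((4 : ℝ) ^ e) ^ TT n e s *
      (2 ^ s - (2 ^ s - 1) * ((Om n isb).card * uu n e isb B₀ (TT n e s) C)) := by
  have h1 := uu_upper h hn hB s C hC
  set u := uu n e isb B₀ (TT n e s) C with hu
  set T : ℝ := ((Om n isb).card : ℝ) with hT
  have hV : (VV n e isb (Ms n isb) B₀ (TT n e s) C : ℝ) = ((4 : ℝ) ^ e) ^ TT n e s * u := by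
    rw [VV_real hB, four_pow]
  have h2 : (1 : ℝ) ≤ 2 ^ s := one_le_pow₀ (by norm_num)
  have hMt : (0 : ℝ) < ((4 : ℝ) ^ e) ^ TT n e s := by positivity
  have h3 : ((2 : ℝ) ^ s - 1) * (T * u) ≤ 2 ^ s := by
    have h4 : (2 : ℝ) ^ s * ((2 ^ s - 1) * (T * u)) ≤ 2 ^ s * 2 ^ s := by
      calc (2 : ℝ) ^ s * ((2 ^ s - 1) * (T * u)) = (2 ^ s - 1) * (2 ^ s * (T * u)) := by ring
        _ ≤ (2 ^ s - 1) * (2 ^ s + 1) := mul_le_mul_of_nonneg_left h1 (by linarith)
        _ ≤ 2 ^ s * 2 ^ s := by nlinarith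
    exact le_of_mul_le_mul_left h4 (by linarith)
  have hcast : (((2 ^ s - 1 : ℕ)) : ℝ) = 2 ^ s - 1 := by
    rw [Nat.cast_sub Nat.one_le_two_pow]
    push_cast
    ring
  have hTl : ((Ms n isb).length : ℝ) = T := by rw [hT, card_Om]
  have h5 : (2 ^ s - 1) * (VV n e isb (Ms n isb) B₀ (TT n e s) C * (Ms n isb).length) ≤
      2 ^ s * (4 ^ e) ^ TT n e s := by
    have : (((2 ^ s - 1) * (VV n e isb (Ms n isb) B₀ (TT n e s) C * (Ms n isb).length) : ℕ) : ℝ) ≤
      ((2 ^ s * (4 ^ e) ^ TT n e s : ℕ) : ℝ) := by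
      push_cast
      rw [hcast, hV, hTl]
      calc (2 ^ s - 1) * (((4 : ℝ) ^ e) ^ TT n e s * u * T) =
            ((4 : ℝ) ^ e) ^ TT n e s * ((2 ^ s - 1) * (T * u)) := by ring
        _ ≤ ((4 : ℝ) ^ e) ^ TT n e s * 2 ^ s := mul_le_mul_of_nonneg_left h3 hMt.le
        _ = _ := by ring
    exact_mod_cast this
  unfold WW wgt
  rw [Nat.cast_sub h5]
  push_cast
  rw [hcast, hV, hTl]
  ring

theorem WW_sum (h : IsMat n isb l) (hn : 2 * n ≤ 2 ^ e) (hB : B₀ ∈ Om n isb) :
    ((Ms n isb).map (WW n e s isb B₀)).sum = (Ms n isb).length * (4 ^ e) ^ TT n e s := by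
  have h1 : ((((Ms n isb).map (WW n e s isb B₀)).sum : ℕ) : ℝ) =
      (((Ms n isb).length * (4 ^ e) ^ TT n e s : ℕ) : ℝ) := by
    have h2 : ((Ms n isb).map (WW n e s isb B₀)).sum = ∑ C ∈ Om n isb, WW n e s isb B₀ C := by
      unfold Om
      rw [List.sum_toFinset _ (nodup_Ms n isb)]
    rw [h2]
    push_cast
    rw [Finset.sum_congr rfl (fun C hC => WW_real h hn hB hC), ← Finset.mul_sum,
      Finset.sum_sub_distrib, ← Finset.mul_sum, ← Finset.mul_sum, uu_sum hB, Finset.sum_const,
      nsmul_eq_mul, card_Om]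
    ring
  exact_mod_cast h1

theorem stB_eq {r : List Bool} : stB n e s isb B₀ out (Ms n isb) r =
    if valB r < 2 ^ r.length / ((Ms n isb).length * (4 ^ e) ^ TT n e s) *
        ((Ms n isb).length * (4 ^ e) ^ TT n e s)
    then (pick ((Ms n isb).map (fun C => (C, WW n e s isb B₀ C)))
      (valB r % ((Ms n isb).length * (4 ^ e) ^ TT n e s))).map out
    else none := by
  unfold stB
  rw [dp_eq, List.map_map, zip_pair]
  rfl

theorem stB_spec (h : IsMat n isb l) (hn : 2 * n ≤ 2 ^ e) (hB : B₀ ∈ Om n isb)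
    (hinj : ∀ B ∈ Om n isb, ∀ C ∈ Om n isb, out B = out C → B = C) {k : ℕ}
    (hk : (Ms n isb).length * (4 ^ e) ^ TT n e s ≤ 2 ^ k) :
    av k (fun r => nonO (stB n e s isb B₀ out (Ms n isb) r)) ≤ 1 / 2 ∧
    ∀ C ∈ Om n isb, av k (fun r => indO (out C) (stB n e s isb B₀ out (Ms n isb) r)) =
      (1 - av k (fun r => nonO (stB n e s isb B₀ out (Ms n isb) r))) *
        ((WW n e s isb B₀ C : ℝ) / ((Om n isb).card * ((4 : ℝ) ^ e) ^ TT n e s)) := by
  set S := (Ms n isb).length * (4 ^ e) ^ TT n e s with hS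
  have hT0 : 0 < (Ms n isb).length := by
    rw [← card_Om]
    exact Finset.card_pos.2 ⟨B₀, hB⟩
  have hS0 : 0 < S := by rw [hS]; positivity
  set q := 2 ^ k / S with hq
  have hq1 : 1 ≤ q := by rw [hq, Nat.le_div_iff_mul_le hS0]; omega
  have hqS : q * S ≤ 2 ^ k := Nat.div_mul_le_self _ _
  have hlt : 2 ^ k < (q + 1) * S := by
    have := Nat.lt_div_mul_add (a := 2 ^ k) hS0
    rw [hq, add_mul, one_mul]
    exact this
  have hqS2 : 2 ^ k < 2 * (q * S) := by
    calc 2 ^ k < (q + 1) * S := hlt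
      _ ≤ (2 * q) * S := Nat.mul_le_mul_right _ (by omega)
      _ = 2 * (q * S) := by ring
  have hsum := WW_sum (s := s) h hn hB
  rw [← hS] at hsum
  set P : ℕ → Option (List Bool) := fun z => pick ((Ms n isb).map (fun C => (C, WW n e s isb B₀ C))) z
    with hP
  have hPs : ∀ z, z < S → ∃ C ∈ Ms n isb, P z = some C := by
    intro z hz
    exact pick_some (WW n e s isb B₀) (Ms n isb) z (by rw [hsum]; exact hz)
  -- the failure probability
  have hnon : av k (fun r => nonO (stB n e s isb B₀ out (Ms n isb) r)) =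
      1 - (q * S : ℕ) / 2 ^ k := by
    have h1 : av k (fun r => nonO (stB n e s isb B₀ out (Ms n isb) r)) =
        av k (fun r => 1 - (fun U => if U < q * S then (1 : ℝ) else 0) (valB r)) := by
      apply av_congr
      intro r hr
      rw [stB_eq, hr, ← hS, ← hq]
      simp only
      split_ifs with h2
      · obtain ⟨C, _, hC⟩ := hPs (valB r % S) (Nat.mod_lt _ hS0)
        simp only [hP] at hC
        rw [hC]
        simp [nonO]
      · simp [nonO]
    rw [h1, av_sub, av_const, av_val k (fun U => if U < q * S then (1 : ℝ) else 0)]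
    congr 2
    rw [Finset.sum_boole]
    congr 1
    have : (Finset.range (2 ^ k)).filter (fun U => U < q * S) = Finset.range (q * S) := by
      ext U
      rw [Finset.mem_filter, Finset.mem_range, Finset.mem_range]
      omega
    rw [this, Finset.card_range]
  have hpow : (0 : ℝ) < 2 ^ k := by positivity
  constructor
  · rw [hnon]
    have h1 : (2 : ℝ) ^ k < 2 * (q * S : ℕ) := by exact_mod_cast hqS2
    have h2 : (1 / 2 : ℝ) ≤ (q * S : ℕ) / 2 ^ k := by
      rw [div_le_div_iff₀ (by norm_num) hpow]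
      linarith
    linarith
  · intro C hC
    have hind : av k (fun r => indO (out C) (stB n e s isb B₀ out (Ms n isb) r)) =
        (q * WW n e s isb B₀ C : ℝ) / 2 ^ k := by
      have h1 : av k (fun r => indO (out C) (stB n e s isb B₀ out (Ms n isb) r)) =
          av k (fun r => (fun U => if U < q * S then (if P (U % S) = some C then (1 : ℝ) else 0)
            else 0) (valB r)) := by
        apply av_congr
        intro r hr
        rw [stB_eq, hr, ← hS, ← hq]
        simp only
        split_ifs with h2 h3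
        · simp only [hP] at h3
          rw [h3]
          simp [indO]
        · obtain ⟨D, hD, hD2⟩ := hPs (valB r % S) (Nat.mod_lt _ hS0)
          have hD2' := hD2
          simp only [hP] at hD2
          rw [hD2]
          unfold indO
          rw [if_neg]
          intro h4
          rw [Option.map_some, Option.some.injEq] at h4
          apply h3
          rw [hD2', hinj D (by unfold Om; rw [List.mem_toFinset]; exact hD) C hC h4]
        · simp [indO]
      rw [h1, av_val k (fun U => if U < q * S then (if P (U % S) = some C then (1 : ℝ) else 0)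
            else 0)]
      congr 1
      rw [← Finset.sum_filter]
      have h2 : (Finset.range (2 ^ k)).filter (fun U => U < q * S) = Finset.range (q * S) := by
        ext U
        rw [Finset.mem_filter, Finset.mem_range, Finset.mem_range]
        omega
      rw [h2, sum_period q S (fun z => if P z = some C then (1 : ℝ) else 0)]
      congr 1
      have h3 := pick_count (WW n e s isb B₀) C (Ms n isb) (nodup_Ms n isb)
      rw [hsum, if_pos (by rw [← List.mem_toFinset]; exact hC)] at h3
      exact h3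
    rw [hind, hnon]
    have hSr : ((Om n isb).card : ℝ) * ((4 : ℝ) ^ e) ^ TT n e s = (S : ℝ) := by
      rw [hS, card_Om]
      push_cast
      ring
    rw [hSr]
    have hSpos : (0 : ℝ) < S := by exact_mod_cast hS0
    push_cast
    field_simp
    ring

/-- **exactness** -/
theorem exact_id (h : IsMat n isb l) (hn : 2 * n ≤ 2 ^ e) (hB : B₀ ∈ Om n isb) {C : List Bool}
    (hC : C ∈ Om n isb) :
    (1 - (1 / 2 : ℝ) ^ s) * uu n e isb B₀ (TT n e s) C + (1 / 2) ^ s *
      ((WW n e s isb B₀ C : ℝ) / ((Om n isb).card * ((4 : ℝ) ^ e) ^ TT n e s)) =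
    1 / (Om n isb).card := by
  rw [WW_real h hn hB hC]
  have hT : (0 : ℝ) < (Om n isb).card := by exact_mod_cast Finset.card_pos.2 ⟨B₀, hB⟩
  have hMt : (0 : ℝ) < ((4 : ℝ) ^ e) ^ TT n e s := by positivity
  set M : ℝ := ((4 : ℝ) ^ e) ^ TT n e s
  set T : ℝ := ((Om n isb).card : ℝ)
  set u := uu n e isb B₀ (TT n e s) C
  have h2 : (1 / 2 : ℝ) ^ s * 2 ^ s = 1 := by rw [← mul_pow]; norm_num
  have h3 : M * (2 ^ s - (2 ^ s - 1) * (T * u)) / (T * M) = 2 ^ s * (1 / T) - (2 ^ s - 1) * u := by
    field_simp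
  rw [h3]
  calc (1 - (1 / 2 : ℝ) ^ s) * u + (1 / 2) ^ s * (2 ^ s * (1 / T) - (2 ^ s - 1) * u) =
      (1 - (1 / 2 : ℝ) ^ s) * u + ((1 / 2) ^ s * 2 ^ s) * (1 / T) -
        ((1 / 2) ^ s * 2 ^ s) * u + (1 / 2) ^ s * u := by ring
    _ = 1 / T := by rw [h2]; ring

end

end Pool.Agent.Q226.SS
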