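import Pool.Agent.Q226.SS.Cplx

set_option autoImplicit false

/-!
# Spanning trees and masks
-/

namespace Pool.Agent.Q226.SS

open Finset Module Submodule Pool.Agent.H442R3.MPar Pool.Agent.H442R3.SP

variable {F : List (List ℕ)} {d : ℕ}

theorem mem_tops (hd : HasDim F d) {s : List ℕ} : s ∈ tops F ↔ s ∈ F ∧ s.length = d + 1 := by
  rw [tops, List.mem_filter, List.all_eq_true]
  apply and_congr_right
  intro hs
  constructor
  · intro h
    obtain ⟨t, ht, ht2⟩ := hd.ex
    have h1 := h t ht
    rw [decide_eq_true_iff] at h1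
    have := hd.le s hs
    omega
  · intro h t ht
    rw [decide_eq_true_iff]
    have := hd.le t ht
    omega

theorem mem_rws (hd : HasDim F d) {t : List ℕ} : t ∈ rws F ↔ t ∈ F ∧ t.length = d := by
  rw [rws, List.mem_filter, List.any_eq_true]
  apply and_congr_right
  intro _
  constructor
  · rintro ⟨s, hs, h⟩
    rw [decide_eq_true_iff, ((mem_tops hd).1 hs).2] at h
    omega
  · intro h
    obtain ⟨s, hs, hs2⟩ := hd.ex
    exact ⟨s, (mem_tops hd).2 ⟨hs, hs2⟩, by rw [decide_eq_true_iff]; omega⟩

/-- the vectors -/
noncomputable def vF (F : List (List ℕ)) (d : ℕ) (j : ℕ) : {t // t ∈ F ∧ t.length = d} → ℚ :=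
  col F d ((tops F).getD j [])

theorem KTriv_iff (hd : HasDim F d) (B : List Bool) :
    KTriv ℚ F B ↔ LinearIndepOn ℚ (vF F d) (supp (nF F) B : Set ℕ) := by
  rw [linearIndepOn_finset_iff]
  constructor
  · intro h g hg i hi
    rw [mem_supp] at hi
    have h1 := h (fun j : Fin (nF F) => if B.getD j false = true then g j else 0) (by
      intro t ht
      rw [mem_rws hd] at ht
      have h2 := congrFun hg ⟨t, ht⟩
      rw [Finset.sum_apply] at h2
      simp only [Pi.smul_apply, smul_eq_mul, Pi.zero_apply] at h2
      rw [supp, Finset.sum_filter, Finset.sum_range] at h2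
      refine Eq.trans ?_ h2
      apply Finset.sum_congr rfl
      intro j _
      unfold vF col
      split_ifs <;> ring) (by
      intro k hk
      simp only [hk, Bool.false_eq_true, if_false])
    have h2 := congrFun h1 ⟨i, hi.1⟩
    simp only [hi.2, if_true, Pi.zero_apply] at h2
    exact h2
  · intro h y h1 h2
    funext i
    by_cases hi : B.getD i false = true
    · have h3 := h (fun j => if hj : j < nF F then y ⟨j, hj⟩ else 0) (by
        funext t
        rw [Finset.sum_apply]
        simp only [Pi.smul_apply, smul_eq_mul, Pi.zero_apply]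
        rw [supp, Finset.sum_filter, Finset.sum_range]
        refine Eq.trans ?_ (h1 t.1 ((mem_rws hd).2 t.2))
        apply Finset.sum_congr rfl
        intro j _
        unfold vF col
        rw [dif_pos j.2]
        split_ifs with h4
        · ring
        · rw [h2 j (by simpa using h4)]
          ring) i (mem_supp.2 ⟨i.2, hi⟩)
      rw [dif_pos i.2] at h3
      exact h3
    · exact h2 i (by simpa using hi)

theorem ind_iff' (hF : IsComplex F) (hd : HasDim F d) (B : List Bool) :
    ind F B = true ↔ LinearIndepOn ℚ (vF F d) (supp (nF F) B : Set ℕ) := by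
  rw [ind_iff (fun s hs => (hF.incr s hs).nodup), KTriv_iff hd]

theorem length_setT (n : ℕ) (B : List Bool) (j : ℕ) : (setT n B j).length = n := by simp [setT]

theorem supp_setT {n : ℕ} {B : List Bool} {j : ℕ} (hj : j < n) :
    supp n (setT n B j) = insert j (supp n B) := by
  ext i
  rw [mem_insert, mem_supp, mem_supp]
  by_cases hi : i < n
  · have h1 : (setT n B j).getD i false = (decide (i = j) || B.getD i false) := by
      rw [List.getD_eq_getElem _ _ (by rw [length_setT]; exact hi)]
      simp [setT]
    rw [h1]
    simp [hi]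
  · constructor
    · rintro ⟨h, _⟩
      exact absurd h hi
    · rintro (h | h)
      · subst h
        exact absurd hj hi
      · exact absurd h.1 hi

theorem isB_iff (hF : IsComplex F) (hd : HasDim F d) (B : List Bool) :
    isB F B = true ↔ MaxInd (vF F d) (nF F) (supp (nF F) B) := by
  rw [isB, Bool.and_eq_true, ind_iff' hF hd, List.all_eq_true]
  unfold MaxInd
  rw [and_iff_right (show supp (nF F) B ⊆ range (nF F) from filter_subset _ _)]
  apply and_congr_right
  intro _
  constructor
  · intro h j hj hjS h2
    have h1 := h j (List.mem_range.2 hj)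
    rw [Bool.or_eq_true] at h1
    rcases h1 with h1 | h1
    · exact hjS (mem_supp.2 ⟨hj, h1⟩)
    · rw [Bool.not_eq_true'] at h1
      have h3 : ind F (setT (nF F) B j) = true := by
        rw [ind_iff' hF hd, supp_setT hj, Finset.coe_insert]
        exact h2
      rw [h1] at h3
      exact absurd h3 (by simp)
  · intro h j hj
    rw [List.mem_range] at hj
    rw [Bool.or_eq_true]
    by_cases hjS : B.getD j false = true
    · exact Or.inl hjS
    · right
      rw [Bool.not_eq_true', ← Bool.not_eq_true, ind_iff' hF hd, supp_setT hj, Finset.coe_insert]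
      exact h j hj (fun h2 => hjS (mem_supp.1 h2).2)

theorem isMatF (hF : IsComplex F) (hd : HasDim F d) :
    IsMat (nF F) (isB F) (finrank ℚ (SW (vF F d) (nF F))) :=
  isMat_of fun B _ => isB_iff hF hd B

/-! ### the greedy basis -/

theorem greedy_inv (hF : IsComplex F) (hd : HasDim F d) (k : ℕ) (hk : k ≤ nF F) :
    let B := (List.range k).foldl
      (fun B j => bif ind F (setT (nF F) B j) then setT (nF F) B j else B)
      (List.replicate (nF F) false)
    B.length = nF F ∧ LinearIndepOn ℚ (vF F d) (supp (nF F) B : Set ℕ) ∧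
      ∀ j < k, j ∉ supp (nF F) B →
        ¬ LinearIndepOn ℚ (vF F d) (insert j (supp (nF F) B : Set ℕ)) := by
  induction k with
  | zero =>
    simp only [List.range_zero, List.foldl_nil]
    refine ⟨List.length_replicate, ?_, fun j hj => absurd hj (by omega)⟩
    have : supp (nF F) (List.replicate (nF F) false) = ∅ := by
      ext i
      rw [mem_supp]
      constructor
      · rintro ⟨hi, h⟩
        rw [List.getD_eq_getElem _ _ (by simpa using hi)] at h
        simp at h
      · intro h
        exact absurd h (notMem_empty _)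
    rw [this, Finset.coe_empty]
    exact linearIndepOn_empty _ _
  | succ k ih =>
    obtain ⟨h1, h2, h3⟩ := ih (by omega)
    simp only [List.range_succ, List.foldl_append, List.foldl_cons, List.foldl_nil]
    set B := (List.range k).foldl
      (fun B j => bif ind F (setT (nF F) B j) then setT (nF F) B j else B)
      (List.replicate (nF F) false) with hB
    by_cases hi : ind F (setT (nF F) B k) = true
    · rw [hi, cond_true]
      have h4 := (ind_iff' hF hd _).1 hi
      refine ⟨length_setT _ _ _, h4, fun j hj hjS => ?_⟩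
      rw [supp_setT (by omega)] at hjS ⊢
      rw [mem_insert, not_or] at hjS
      intro h5
      apply h3 j (by omega) hjS.2
      apply h5.mono
      apply Set.insert_subset_insert
      rw [Finset.coe_insert]
      exact Set.subset_insert _ _
    · rw [Bool.not_eq_true] at hi
      rw [hi, cond_false]
      refine ⟨h1, h2, fun j hj hjS => ?_⟩
      rcases Nat.lt_or_ge j k with hjk | hjk
      · exact h3 j hjk hjS
      · have : j = k := by omega
        subst this
        intro h5
        rw [← Bool.not_eq_true, ind_iff' hF hd, supp_setT (by omega), Finset.coe_insert] at hi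
        exact hi h5

theorem iniB_mem (hF : IsComplex F) (hd : HasDim F d) : iniB F ∈ Om (nF F) (isB F) := by
  obtain ⟨h1, h2, h3⟩ := greedy_inv hF hd (nF F) le_rfl
  rw [mem_Om]
  refine ⟨h1, ?_⟩
  rw [isB_iff hF hd]
  exact ⟨filter_subset _ _, h2, h3⟩

/-! ### trees -/

theorem nodup_tops (hF : IsComplex F) : (tops F).Nodup := hF.nodup.filter _

theorem mem_zip (hF : IsComplex F) {B : List Bool} (hB : B.length = nF F) {j : ℕ} (hj : j < nF F) :
    (((tops F).zip B).any (fun q => decide (q.1 = (tops F).getD j []) && q.2) = true ↔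
      j ∈ supp (nF F) B) := by
  have hj' : j < (tops F).length := hj
  rw [List.any_eq_true, mem_supp]
  constructor
  · rintro ⟨⟨s, b⟩, hq, h⟩
    rw [Bool.and_eq_true, decide_eq_true_iff] at h
    obtain ⟨i, hi, he⟩ := List.getElem_of_mem hq
    rw [List.getElem_zip] at he
    have hi1 : i < (tops F).length := by
      rw [List.length_zip] at hi; omega
    have hi2 : i < B.length := by
      rw [List.length_zip] at hi; omega
    have e1 : (tops F)[i] = s := congrArg Prod.fst he
    have e2 : B[i] = b := congrArg Prod.snd he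
    simp only at h
    rw [List.getD_eq_getElem _ _ hj', ← e1] at h
    have h3 := (List.Nodup.getElem_inj_iff (nodup_tops hF)).1 h.1
    subst h3
    refine ⟨hj, ?_⟩
    rw [List.getD_eq_getElem _ _ hi2, e2]
    exact h.2
  · rintro ⟨_, h⟩
    have hjB : j < B.length := by rw [hB]; exact hj
    rw [List.getD_eq_getElem _ _ hjB] at h
    have hz : j < ((tops F).zip B).length := by rw [List.length_zip]; omega
    refine ⟨((tops F).zip B)[j], List.getElem_mem hz, ?_⟩
    rw [List.getElem_zip, Bool.and_eq_true, decide_eq_true_iff, List.getD_eq_getElem _ _ hj']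
    exact ⟨rfl, h⟩

theorem mem_treeOf (hd : HasDim F d) {B : List Bool} {s : List ℕ} : s ∈ treeOf F B ↔
    s ∈ F ∧ (s.length ≤ d ∨ ((tops F).zip B).any (fun q => decide (q.1 = s) && q.2) = true) := by
  rw [treeOf, List.mem_filter, Bool.or_eq_true]
  apply and_congr_right
  intro hs
  apply or_congr _ Iff.rfl
  rw [Bool.not_eq_true', ← Bool.not_eq_true, List.any_eq_true]
  constructor
  · intro h
    by_contra hcon
    apply h
    refine ⟨s, (mem_tops hd).2 ⟨hs, ?_⟩, by simp⟩
    have := hd.le s hs
    omega
  · rintro h ⟨t, ht, he⟩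
    rw [decide_eq_true_iff] at he
    subst he
    have := ((mem_tops hd).1 ht).2
    omega

theorem mem_treeOf_top (hF : IsComplex F) (hd : HasDim F d) {B : List Bool}
    (hB : B.length = nF F) {j : ℕ} (hj : j < nF F) :
    (tops F).getD j [] ∈ treeOf F B ↔ j ∈ supp (nF F) B := by
  have hj' : j < (tops F).length := hj
  have h1 : (tops F).getD j [] ∈ tops F := by
    rw [List.getD_eq_getElem _ _ hj']
    exact List.getElem_mem _
  have h2 := (mem_tops hd).1 h1
  rw [mem_treeOf hd, mem_zip hF hB hj]
  constructor
  · rintro ⟨_, h | h⟩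
    · omega
    · exact h
  · intro h
    exact ⟨h2.1, Or.inr h⟩

theorem treeOf_inj (hF : IsComplex F) (hd : HasDim F d) {B C : List Bool} (hB : B.length = nF F)
    (hC : C.length = nF F) (h : treeOf F B = treeOf F C) : B = C := by
  apply supp_inj hB hC
  ext j
  by_cases hj : j < nF F
  · rw [← mem_treeOf_top hF hd hB hj, ← mem_treeOf_top hF hd hC hj, h]
  · rw [mem_supp, mem_supp]
    constructor <;> exact fun h => absurd h.1 hj

theorem top_image (hd : HasDim F d) (hF : IsComplex F) {B : List Bool} (hB : B.length = nF F) :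
    {s | s ∈ treeOf F B ∧ s.length = d + 1} =
      (fun j => (tops F).getD j []) '' (supp (nF F) B : Set ℕ) := by
  ext s
  simp only [Set.mem_ofPred_eq, Set.mem_image, Finset.mem_coe]
  constructor
  · rintro ⟨h1, h2⟩
    have h3 : s ∈ tops F := (mem_tops hd).2 ⟨((mem_treeOf hd).1 h1).1, h2⟩
    obtain ⟨j, hj, rfl⟩ := List.getElem_of_mem h3
    have e := List.getD_eq_getElem (tops F) [] hj
    refine ⟨j, ?_, e⟩
    rw [← mem_treeOf_top hF hd hB hj, e]
    exact h1
  · rintro ⟨j, hj, rfl⟩
    have hj2 : j < nF F := (mem_supp.1 hj).1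
    have hj' : j < (tops F).length := hj2
    refine ⟨(mem_treeOf_top hF hd hB hj2).2 hj, ?_⟩
    have h1 : (tops F).getD j [] ∈ tops F := by
      rw [List.getD_eq_getElem _ _ hj']
      exact List.getElem_mem _
    exact ((mem_tops hd).1 h1).2

theorem all_image (hd : HasDim F d) :
    {s | s ∈ F ∧ s.length = d + 1} =
      (fun j => (tops F).getD j []) '' ((range (nF F) : Finset ℕ) : Set ℕ) := by
  ext s
  simp only [Set.mem_ofPred_eq, Set.mem_image, Finset.mem_coe, mem_range]
  rw [← mem_tops hd]
  constructor
  · intro h3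
    obtain ⟨j, hj, rfl⟩ := List.getElem_of_mem h3
    exact ⟨j, hj, List.getD_eq_getElem (tops F) [] hj⟩
  · rintro ⟨j, hj, rfl⟩
    have hj' : j < (tops F).length := hj
    rw [List.getD_eq_getElem _ _ hj']
    exact List.getElem_mem _

theorem injOn_tops (hF : IsComplex F) :
    Set.InjOn (fun j => (tops F).getD j []) ((range (nF F) : Finset ℕ) : Set ℕ) := by
  intro i hi j hj h
  have hi' : i < (tops F).length := by simpa [nF] using hi
  have hj' : j < (tops F).length := by simpa [nF] using hj
  simp only at h
  rw [List.getD_eq_getElem _ _ hi', List.getD_eq_getElem _ _ hj'] at h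
  exact (List.Nodup.getElem_inj_iff (nodup_tops hF)).1 h

theorem isTree_iff (hF : IsComplex F) (hd : HasDim F d) {B : List Bool} (hB : B.length = nF F) :
    IsTree F d (treeOf F B) ↔ MaxInd (vF F d) (nF F) (supp (nF F) B) := by
  have hsub : supp (nF F) B ⊆ range (nF F) := filter_subset _ _
  have e1 : LinearIndepOn ℚ (col F d) {s | s ∈ treeOf F B ∧ s.length = d + 1} ↔
      LinearIndepOn ℚ (vF F d) (supp (nF F) B : Set ℕ) := by
    rw [top_image hd hF hB]
    constructor
    · intro h
      exact h.comp_of_image ((injOn_tops hF).mono (by exact_mod_cast hsub))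
    · intro h
      exact LinearIndepOn.image_of_comp _ _ h
  have e2 : (span ℚ (col F d '' {s | s ∈ treeOf F B ∧ s.length = d + 1}) =
      span ℚ (col F d '' {s | s ∈ F ∧ s.length = d + 1})) ↔
      span ℚ (vF F d '' (supp (nF F) B : Set ℕ)) = SW (vF F d) (nF F) := by
    rw [top_image hd hF hB, all_image hd, Set.image_image, Set.image_image]
    rfl
  constructor
  · intro h
    have h1 := e1.1 h.indep
    have h2 := e2.1 h.span
    refine ⟨hsub, h1, fun j hj hjS h3 => ?_⟩
    rw [linearIndepOn_insert (by exact_mod_cast hjS), h2] at h3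
    apply h3.2
    exact subset_span ⟨j, by simpa using hj, rfl⟩
  · intro h
    exact
      { sub := List.filter_sublist
        skel := fun s hs hl => (mem_treeOf hd).2 ⟨hs, Or.inl hl⟩
        indep := e1.2 h.2.1
        span := e2.2 h.span_eq }

theorem filter_of_sublist : ∀ {l Y : List (List ℕ)}, Y.Sublist l → l.Nodup →
    l.filter (fun s => decide (s ∈ Y)) = Y := by
  intro l Y h
  induction h with
  | slnil => intro _; rfl
  | @cons l₁ l₂ a h ih =>
    intro hn
    rw [List.nodup_cons] at hn
    rw [List.filter_cons_of_neg, ih hn.2]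
    rw [decide_eq_true_iff]
    exact fun h2 => hn.1 (h.subset h2)
  | @cons_cons l₁ l₂ a h ih =>
    intro hn
    rw [List.nodup_cons] at hn
    rw [List.filter_cons_of_pos (by simp)]
    congr 1
    rw [← ih hn.2]
    apply List.filter_congr
    intro s hs
    have : s ≠ a := fun h2 => hn.1 (h2 ▸ hs)
    rw [ih hn.2]
    simp [this]

theorem tree_eq (hF : IsComplex F) (hd : HasDim F d) {Y : List (List ℕ)} (hY : IsTree F d Y) :
    Y = treeOf F ((tops F).map (fun s => decide (s ∈ Y))) := by
  conv_lhs => rw [← filter_of_sublist hY.sub hF.nodup]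
  rw [treeOf]
  apply List.filter_congr
  intro s hs
  rw [Bool.eq_iff_iff, decide_eq_true_iff, Bool.or_eq_true]
  constructor
  · intro h
    by_cases hl : s.length = d + 1
    · right
      rw [List.any_eq_true]
      have h3 : s ∈ tops F := (mem_tops hd).2 ⟨hs, hl⟩
      obtain ⟨j, hj, rfl⟩ := List.getElem_of_mem h3
      have hz : j < ((tops F).zip ((tops F).map (fun s => decide (s ∈ Y)))).length := by
        rw [List.length_zip, List.length_map]; omega
      refine ⟨_, List.getElem_mem hz, ?_⟩
      rw [List.getElem_zip, List.getElem_map]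
      simp [h]
    · left
      rw [Bool.not_eq_true', ← Bool.not_eq_true, List.any_eq_true]
      rintro ⟨t, ht, he⟩
      rw [decide_eq_true_iff] at he
      subst he
      exact hl ((mem_tops hd).1 ht).2
  · rintro (h | h)
    · apply hY.skel s hs
      rw [Bool.not_eq_true', ← Bool.not_eq_true, List.any_eq_true] at h
      by_contra hcon
      apply h
      have := hd.le s hs
      exact ⟨s, (mem_tops hd).2 ⟨hs, by omega⟩, by simp⟩
    · rw [List.any_eq_true] at h
      obtain ⟨q, hq, h⟩ := h
      obtain ⟨i, hi, he⟩ := List.getElem_of_mem hq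
      rw [List.getElem_zip, List.getElem_map] at he
      rw [← he, Bool.and_eq_true, decide_eq_true_iff, decide_eq_true_iff] at h
      rw [← h.1]
      exact h.2

theorem trees_eq (hF : IsComplex F) (hd : HasDim F d) :
    {Y | IsTree F d Y} = treeOf F '' (Om (nF F) (isB F) : Set (List Bool)) := by
  ext Y
  simp only [Set.mem_ofPred_eq, Set.mem_image, Finset.mem_coe]
  constructor
  · intro h
    have h1 := tree_eq hF hd h
    refine ⟨_, ?_, h1.symm⟩
    have hl : ((tops F).map (fun s => decide (s ∈ Y))).length = nF F := List.length_map _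
    rw [mem_Om]
    refine ⟨hl, ?_⟩
    rw [isB_iff hF hd, ← isTree_iff hF hd hl, ← h1]
    exact h
  · rintro ⟨B, hB, rfl⟩
    rw [mem_Om] at hB
    rw [isTree_iff hF hd hB.1, ← isB_iff hF hd]
    exact hB.2

theorem treeOf_injOn (hF : IsComplex F) (hd : HasDim F d) :
    Set.InjOn (treeOf F) (Om (nF F) (isB F) : Set (List Bool)) := by
  intro B hB C hC h
  rw [Finset.mem_coe, mem_Om] at hB hC
  exact treeOf_inj hF hd hB.1 hC.1 h

theorem ncard_trees (hF : IsComplex F) (hd : HasDim F d) :
    {Y | IsTree F d Y}.ncard = (Om (nF F) (isB F)).card := by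
  rw [trees_eq hF hd, (treeOf_injOn hF hd).ncard_image, Set.ncard_coe_finset]

theorem finite_trees (hF : IsComplex F) (hd : HasDim F d) : {Y | IsTree F d Y}.Finite := by
  rw [trees_eq hF hd]
  exact (Finset.finite_toSet _).image _

theorem nonempty_trees (hF : IsComplex F) (hd : HasDim F d) : {Y | IsTree F d Y}.Nonempty := by
  rw [trees_eq hF hd]
  exact ⟨_, iniB F, iniB_mem hF hd, rfl⟩

end Pool.Agent.Q226.SS
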