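import Pool.Agent.Q226.SS.Chain

set_option autoImplicit false

/-!
# The distribution of the exchange chain
-/

namespace Pool.Agent.Q226.SS

open NPC Pool.Agent.H591R2

/-- one step of the walk driven by a coin string -/
def wstp (n e : ℕ) (isb : List Bool → Bool) (p : List Bool × List Bool) : List Bool × List Bool :=
  (stp n e isb p.1 (valB (p.2.take (2 * e))), p.2.drop (2 * e))

/-- the walk -/
def walk (n e : ℕ) (isb : List Bool → Bool) (t : ℕ) (B w : List Bool) : List Bool :=
  ((wstp n e isb)^[t] (B, w)).1

section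

variable {n e : ℕ} {isb : List Bool → Bool}

theorem wstp_append (t : ℕ) : ∀ (B w v : List Bool), w.length = 2 * e * t →
    (wstp n e isb)^[t] (B, w ++ v) = (walk n e isb t B w, v) := by
  induction t with
  | zero =>
    intro B w v hw
    have : w = [] := List.length_eq_zero_iff.1 (by simpa using hw)
    subst this
    rfl
  | succ t ih =>
    intro B w v hw
    have hle : 2 * e ≤ w.length := by rw [hw, mul_add, mul_one]; omega
    unfold walk
    rw [Function.iterate_succ_apply, Function.iterate_succ_apply]
    have h1 : wstp n e isb (B, w ++ v) =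
        (stp n e isb B (valB (w.take (2 * e))), w.drop (2 * e) ++ v) := by
      unfold wstp
      simp only
      rw [List.take_append_of_le_length hle, List.drop_append_of_le_length hle]
    have h2 : wstp n e isb (B, w) =
        (stp n e isb B (valB (w.take (2 * e))), w.drop (2 * e)) := rfl
    rw [h1, h2, ih _ _ _ (by rw [List.length_drop, hw, mul_add, mul_one]; omega)]
    rfl

theorem walk_succ (t : ℕ) (B w v : List Bool) (hw : w.length = 2 * e * t)
    (hv : v.length = 2 * e) :
    walk n e isb (t + 1) B (w ++ v) = stp n e isb (walk n e isb t B w) (valB v) := by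
  have h1 : walk n e isb (t + 1) B (w ++ v) = ((wstp n e isb)^[t + 1] (B, w ++ v)).1 := rfl
  rw [h1, Function.iterate_succ_apply', wstp_append t B w v hw]
  unfold wstp
  simp only
  rw [List.take_of_length_le (by omega)]

theorem walk_mem {B : List Bool} (hB : B ∈ Om n isb) (t : ℕ) : ∀ w : List Bool,
    walk n e isb t B w ∈ Om n isb := by
  have key : ∀ (t : ℕ) (p : List Bool × List Bool), p.1 ∈ Om n isb →
      ((wstp n e isb)^[t] p).1 ∈ Om n isb := by
    intro t
    induction t with
    | zero => intro p hp; exact hp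
    | succ t ih =>
      intro p hp
      rw [Function.iterate_succ_apply]
      exact ih _ (stp_mem hp _)
  exact fun w => key t (B, w) hB

/-- distribution of the walk -/
noncomputable def uu (n e : ℕ) (isb : List Bool → Bool) (B₀ : List Bool) (t : ℕ) (C : List Bool) : ℝ :=
  av (2 * e * t) (fun w => if walk n e isb t B₀ w = C then 1 else 0)

/-- transition probabilities -/
noncomputable def KK (n e : ℕ) (isb : List Bool → Bool) (B C : List Bool) : ℝ :=
  (∑ R ∈ Finset.range (2 ^ (2 * e)), if stp n e isb B R = C then (1 : ℝ) else 0) / 2 ^ (2 * e)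

theorem uu_zero (B₀ C : List Bool) : uu n e isb B₀ 0 C = if C = B₀ then 1 else 0 := by
  unfold uu
  rw [mul_zero]
  change (if B₀ = C then (1 : ℝ) else 0) = _
  by_cases h : C = B₀
  · rw [if_pos h, if_pos h.symm]
  · rw [if_neg h, if_neg (Ne.symm h)]

theorem uu_succ {B₀ : List Bool} (hB : B₀ ∈ Om n isb) (t : ℕ) (C : List Bool) :
    uu n e isb B₀ (t + 1) C = ∑ B ∈ Om n isb, uu n e isb B₀ t B * KK n e isb B C := by
  have h1 : uu n e isb B₀ (t + 1) C = av (2 * e * t) (fun w =>
      KK n e isb (walk n e isb t B₀ w) C) := by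
    unfold uu
    rw [mul_add, mul_one, av_append]
    apply av_congr
    intro w hw
    unfold KK
    rw [← av_val (2 * e) (fun R => if stp n e isb (walk n e isb t B₀ w) R = C then (1 : ℝ) else 0)]
    apply av_congr
    intro v hv
    rw [walk_succ t B₀ w v hw hv]
  rw [h1]
  have h2 : ∀ w : List Bool, KK n e isb (walk n e isb t B₀ w) C =
      ∑ B ∈ Om n isb, (if walk n e isb t B₀ w = B then 1 else 0) * KK n e isb B C := by
    intro w
    simp only [ite_mul, one_mul, zero_mul]
    rw [Finset.sum_ite_eq, if_pos (walk_mem hB t w)]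
  rw [av_congr _ (fun w _ => h2 w), av_sum]
  apply Finset.sum_congr rfl
  intro B _
  rw [av_mul_right]
  rfl

theorem KK_sum {B : List Bool} (hB : B ∈ Om n isb) : ∑ C ∈ Om n isb, KK n e isb B C = 1 := by
  unfold KK
  rw [← Finset.sum_div, Finset.sum_comm]
  have : ∀ R ∈ Finset.range (2 ^ (2 * e)), ∑ C ∈ Om n isb,
      (if stp n e isb B R = C then (1 : ℝ) else 0) = 1 := by
    intro R _
    rw [Finset.sum_ite_eq, if_pos (stp_mem hB R)]
  rw [Finset.sum_congr rfl this, Finset.sum_const, Finset.card_range]
  simp

variable {l : ℕ}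

theorem KK_off (h : IsMat n isb l) (hn : n ≤ 2 ^ e) : ∀ B ∈ Om n isb, ∀ C ∈ Om n isb, B ≠ C →
    KK n e isb B C = if adj n B C then 1 / ((4 ^ e : ℕ) : ℝ) else 0 := by
  intro B hB C hC hBC
  have h1 := stp_count h hn hB hC hBC
  unfold KK
  rw [Finset.sum_boole, h1]
  have h2 : ((4 ^ e : ℕ) : ℝ) = 2 ^ (2 * e) := by
    push_cast
    rw [pow_mul]
    norm_num
  rw [h2]
  split_ifs <;> simp

/-- number of steps of the walk -/
def TT (n e s : ℕ) : ℕ := 4 ^ e * (2 * (n + s))

theorem uu_upper (h : IsMat n isb l) (hn : 2 * n ≤ 2 ^ e) {B₀ : List Bool} (hB : B₀ ∈ Om n isb)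
    (s : ℕ) : ∀ C ∈ Om n isb,
    2 ^ s * (((Om n isb).card : ℝ) * uu n e isb B₀ (TT n e s) C) ≤ 2 ^ s + 1 := by
  have hM : 1 ≤ 4 ^ e := Nat.one_le_pow _ _ (by norm_num)
  refine mix_upper (Ω := Om n isb) (adj := adj n) (adj_symm h) (fun B _ => adj_irr n B) hM ?_
    (fun f hf => poincare_mask h f hf) (KK n e isb) (KK_off h (by omega)) (fun B hB => KK_sum hB)
    (uu n e isb B₀) B₀ hB (fun C _ => uu_zero B₀ C) (fun t C _ => uu_succ hB t C)
    (card_Om_le n isb)
  intro B hB
  have h1 := deg_le h hB
  have h2 : 4 ^ e = 2 ^ e * 2 ^ e := by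
    rw [← Nat.mul_pow]
  have h3 : 2 * n * (2 * n) ≤ 2 ^ e * 2 ^ e := Nat.mul_le_mul hn hn
  rw [h2]
  nlinarith

end

/-! ### exact computation of the distribution -/

/-- number of codes leading from `B` to `C` -/
def cnt (n e : ℕ) (isb : List Bool → Bool) (B C : List Bool) : ℕ :=
  ((List.range (4 ^ e)).filter (fun u => decide (stp n e isb B u = C))).length

/-- one step of the dynamic program, for a list of states `L` -/
def dpF (n e : ℕ) (isb : List Bool → Bool) (L : List (List Bool)) (v : List ℕ) : List ℕ :=
  L.map (fun C => ((L.zip v).map (fun p => cnt n e isb p.1 C * p.2)).sum)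

/-- start of the dynamic program -/
def dp0 (L : List (List Bool)) (B₀ : List Bool) : List ℕ := L.map (fun C => if C = B₀ then 1 else 0)

/-- the values of the dynamic program -/
def VV (n e : ℕ) (isb : List Bool → Bool) (L : List (List Bool)) (B₀ : List Bool) :
    ℕ → List Bool → ℕ
  | 0, C => if C = B₀ then 1 else 0
  | t + 1, C => (L.map (fun B => cnt n e isb B C * VV n e isb L B₀ t B)).sum

theorem zip_self (g : List Bool → ℕ → ℕ) (f : List Bool → ℕ) : ∀ L : List (List Bool),
    (L.zip (L.map f)).map (fun p => g p.1 p.2) = L.map (fun B => g B (f B)) := by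
  intro L
  induction L with
  | nil => rfl
  | cons a L ih => rw [List.map_cons, List.zip_cons_cons, List.map_cons, List.map_cons, ih]

theorem dp_eq (n e : ℕ) (isb : List Bool → Bool) (L : List (List Bool)) (B₀ : List Bool) (t : ℕ) :
    (dpF n e isb L)^[t] (dp0 L B₀) = L.map (VV n e isb L B₀ t) := by
  induction t with
  | zero => rfl
  | succ t ih =>
    rw [Function.iterate_succ_apply', ih]
    unfold dpF
    apply List.map_congr_left
    intro C _
    rw [zip_self (fun B x => cnt n e isb B C * x)]
    rfl

section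

variable {n e : ℕ} {isb : List Bool → Bool}

theorem cnt_real (B C : List Bool) :
    (cnt n e isb B C : ℝ) = 2 ^ (2 * e) * KK n e isb B C := by
  unfold cnt KK
  rw [Finset.sum_boole, mul_div_cancel₀ _ (by positivity)]
  congr 1
  have h1 : (4 : ℕ) ^ e = 2 ^ (2 * e) := by rw [pow_mul]; norm_num
  rw [h1]
  rfl

theorem VV_real {B₀ : List Bool} (hB : B₀ ∈ Om n isb) (t : ℕ) : ∀ C : List Bool,
    (VV n e isb (Ms n isb) B₀ t C : ℝ) = (2 ^ (2 * e)) ^ t * uu n e isb B₀ t C := by
  induction t with
  | zero =>
    intro C
    rw [uu_zero]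
    unfold VV
    split_ifs <;> simp
  | succ t ih =>
    intro C
    have h1 : (VV n e isb (Ms n isb) B₀ (t + 1) C : ℝ) =
        ∑ B ∈ Om n isb, (cnt n e isb B C : ℝ) * VV n e isb (Ms n isb) B₀ t B := by
      have h2 : VV n e isb (Ms n isb) B₀ (t + 1) C =
          ∑ B ∈ Om n isb, cnt n e isb B C * VV n e isb (Ms n isb) B₀ t B := by
        unfold Om
        rw [List.sum_toFinset _ (nodup_Ms n isb)]
        rfl
      rw [h2]
      push_cast
      rfl
    rw [h1, uu_succ hB, Finset.mul_sum]
    apply Finset.sum_congr rfl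
    intro B _
    rw [cnt_real, ih B, pow_succ]
    ring

theorem uu_sum {B₀ : List Bool} (hB : B₀ ∈ Om n isb) (t : ℕ) :
    ∑ C ∈ Om n isb, uu n e isb B₀ t C = 1 := by
  induction t with
  | zero =>
    simp only [uu_zero]
    rw [Finset.sum_ite_eq', if_pos hB]
  | succ t ih =>
    simp only [uu_succ hB]
    rw [Finset.sum_comm, ← ih]
    apply Finset.sum_congr rfl
    intro B hB'
    rw [← Finset.mul_sum, KK_sum hB', mul_one]

end

/-! ### weighted choice -/

/-- choice of a list element according to weights -/
def pick : List (List Bool × ℕ) → ℕ → Option (List Bool)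
  | [], _ => none
  | p :: l, z => if z < p.2 then some p.1 else pick l (z - p.2)

theorem pick_some (W : List Bool → ℕ) : ∀ (L : List (List Bool)) (z : ℕ), z < (L.map W).sum →
    ∃ C ∈ L, pick (L.map (fun C => (C, W C))) z = some C := by
  intro L
  induction L with
  | nil => intro z hz; simp at hz
  | cons a L ih =>
    intro z hz
    rw [List.map_cons, pick]
    by_cases h : z < W a
    · exact ⟨a, List.mem_cons_self, by simp [h]⟩
    · simp only [List.map_cons, List.sum_cons] at hz
      obtain ⟨C, hC, h2⟩ := ih (z - W a) (by omega)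
      refine ⟨C, List.mem_cons_of_mem _ hC, ?_⟩
      simp only [h, if_false]
      exact h2

theorem pick_mem (W : List Bool → ℕ) : ∀ (L : List (List Bool)) (z : ℕ) (C : List Bool),
    pick (L.map (fun C => (C, W C))) z = some C → C ∈ L := by
  intro L
  induction L with
  | nil => intro z C h; simp [pick] at h
  | cons a L ih =>
    intro z C h
    rw [List.map_cons, pick] at h
    split_ifs at h with h1
    · rw [Option.some.injEq] at h
      rw [← h]
      exact List.mem_cons_self
    · exact List.mem_cons_of_mem _ (ih _ _ h)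

theorem pick_count (W : List Bool → ℕ) (C : List Bool) : ∀ L : List (List Bool), L.Nodup →
    ∑ z ∈ Finset.range (L.map W).sum,
      (if pick (L.map (fun C => (C, W C))) z = some C then (1 : ℝ) else 0) =
      if C ∈ L then (W C : ℝ) else 0 := by
  intro L
  induction L with
  | nil => intro _; simp
  | cons a L ih =>
    intro hnd
    rw [List.nodup_cons] at hnd
    have hi := ih hnd.2
    rw [List.map_cons, List.sum_cons, Finset.sum_range_add]
    have h1 : ∑ z ∈ Finset.range (W a), (if pick ((a :: L).map (fun C => (C, W C))) z = some C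
        then (1 : ℝ) else 0) = if a = C then (W a : ℝ) else 0 := by
      have h2 : ∀ z ∈ Finset.range (W a), (if pick ((a :: L).map (fun C => (C, W C))) z = some C
        then (1 : ℝ) else 0) = if a = C then 1 else 0 := by
        intro z hz
        rw [Finset.mem_range] at hz
        rw [List.map_cons, pick]
        simp only [hz, if_true, Option.some.injEq]
      rw [Finset.sum_congr rfl h2, Finset.sum_const, Finset.card_range]
      split_ifs <;> simp
    have h3 : ∑ z ∈ Finset.range (L.map W).sum,
        (if pick ((a :: L).map (fun C => (C, W C))) (W a + z) = some C then (1 : ℝ) else 0) =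
        if C ∈ L then (W C : ℝ) else 0 := by
      rw [← hi]
      apply Finset.sum_congr rfl
      intro z _
      rw [List.map_cons, pick]
      simp only [show ¬ (W a + z < W a) by omega, if_false, Nat.add_sub_cancel_left]
    rw [h1, h3]
    by_cases h4 : a = C
    · subst h4
      rw [if_pos rfl, if_neg hnd.1, if_pos List.mem_cons_self, add_zero]
    · rw [if_neg h4, zero_add]
      have : C ∈ a :: L ↔ C ∈ L := by
        rw [List.mem_cons]
        exact ⟨fun h => h.resolve_left (Ne.symm h4), Or.inr⟩
      simp only [this]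

/-- periodic sums -/
theorem sum_period (q S : ℕ) (g : ℕ → ℝ) :
    ∑ U ∈ Finset.range (q * S), g (U % S) = q * ∑ z ∈ Finset.range S, g z := by
  induction q with
  | zero => simp
  | succ q ih =>
    rw [Nat.succ_mul, Finset.sum_range_add, ih]
    have : ∑ z ∈ Finset.range S, g ((q * S + z) % S) = ∑ z ∈ Finset.range S, g z := by
      apply Finset.sum_congr rfl
      intro z hz
      rw [Finset.mem_range] at hz
      rw [Nat.mul_add_mod', Nat.mod_eq_of_lt hz]
    rw [this]
    push_cast
    ring

end Pool.Agent.Q226.SS
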